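import Pool.Agent.Rein69.Seq

set_option autoImplicit false

namespace Rein69

open Complex Finset MeasureTheory

/-- open triangle with vertices `0, u, v` -/
def Tri (u v : ℂ) : Set ℂ := {z | 0 < cr z v ∧ 0 < cr u z ∧ cr z v + cr u z < cr u v}

lemma continuous_cr_left (u : ℂ) : Continuous (fun z => cr z u) := by
  unfold cr; fun_prop

lemma continuous_cr_right (u : ℂ) : Continuous (fun z => cr u z) := by
  unfold cr; fun_prop

lemma Tri_open (u v : ℂ) : IsOpen (Tri u v) := by
  have h1 := continuous_cr_left v
  have h2 := continuous_cr_right u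
  have e : Tri u v = {z | 0 < cr z v} ∩ ({z | 0 < cr u z} ∩ {z | cr z v + cr u z < cr u v}) := rfl
  rw [e]
  exact (isOpen_lt continuous_const h1).inter ((isOpen_lt continuous_const h2).inter
    (isOpen_lt (h1.add h2) continuous_const))

/-- the linear map taking the standard basis to `u, v` -/
noncomputable def bmap (u v : ℂ) : ℂ →ₗ[ℝ] ℂ where
  toFun z := (z.re : ℂ) * u + (z.im : ℂ) * v
  map_add' z w := by simp; ring
  map_smul' r z := by simp; ring

lemma det_bmap (u v : ℂ) : LinearMap.det (bmap u v) = cr u v := by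
  rw [← LinearMap.det_toMatrix Complex.basisOneI, Matrix.det_fin_two]
  simp [LinearMap.toMatrix_apply, bmap, cr]
  ring

/-- standard triangle -/
def stdTri : Set ℂ := {z | 0 < z.re ∧ 0 < z.im ∧ z.re + z.im < 1}

lemma vol_stdTri : volume stdTri = ENNReal.ofReal (1 / 2) := by
  have h1 := Complex.volume_preserving_equiv_real_prod
  set R : Set (ℝ × ℝ) := regionBetween (fun _ => 0) (fun x => 1 - x) (Set.Ioo 0 1) with hR
  have h2 : stdTri = Complex.measurableEquivRealProd ⁻¹' R := by
    ext z
    simp only [stdTri, Set.mem_ofPred_eq, hR, regionBetween, Set.mem_preimage,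
      Complex.measurableEquivRealProd_apply, Set.mem_Ioo]
    constructor
    · rintro ⟨a, b, c⟩; exact ⟨⟨a, by linarith⟩, b, by linarith⟩
    · rintro ⟨⟨a, b⟩, c, d⟩; exact ⟨a, c, by linarith⟩
  rw [h2, h1.measure_preimage_equiv]
  rw [hR]
  have h3 := volume_regionBetween_eq_integral (μ := (volume : Measure ℝ)) (s := Set.Ioo (0:ℝ) 1)
    (f := fun _ => (0:ℝ)) (g := fun x => 1 - x) (by
      exact (integrableOn_const (by simp) (by simp)))
    ((continuous_const.sub continuous_id).integrableOn_Icc.mono_set Set.Ioo_subset_Icc_self)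
    measurableSet_Ioo (fun x hx => by simp only [Set.mem_Ioo] at hx; linarith)
  have h4 : (volume : Measure (ℝ × ℝ)) = (volume : Measure ℝ).prod volume := rfl
  rw [h4, h3]
  congr 1
  rw [← MeasureTheory.integral_Ioc_eq_integral_Ioo, ← intervalIntegral.integral_of_le zero_le_one]
  simp only [Pi.sub_apply, sub_zero]
  rw [intervalIntegral.integral_sub (by simp) (by simp)]
  simp
  norm_num

lemma vol_Tri {u v : ℂ} (h : 0 < cr u v) : volume (Tri u v) = ENNReal.ofReal (cr u v / 2) := by
  have h1 : Tri u v = bmap u v '' stdTri := by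
    ext z
    constructor
    · rintro ⟨a, b, c⟩
      refine ⟨⟨cr z v / cr u v, cr u z / cr u v⟩, ⟨div_pos a h, div_pos b h, ?_⟩, ?_⟩
      · simp only
        rw [← add_div, div_lt_one h]; exact c
      · exact (cr_expand u v z h.ne').symm
    · rintro ⟨w, ⟨a, b, c⟩, rfl⟩
      have e1 : cr (bmap u v w) v = w.re * cr u v := by
        simp only [bmap, LinearMap.coe_mk, AddHom.coe_mk]
        rw [cr_add_left, cr_smul_left, cr_smul_left, cr_self]; ring
      have e2 : cr u (bmap u v w) = w.im * cr u v := by
        simp only [bmap, LinearMap.coe_mk, AddHom.coe_mk]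
        rw [cr_add_right, cr_smul_right, cr_smul_right, cr_self]; ring
      refine ⟨?_, ?_, ?_⟩
      · rw [e1]; positivity
      · rw [e2]; positivity
      · rw [e1, e2]; nlinarith
  rw [h1, Measure.addHaar_image_linearMap, det_bmap, vol_stdTri, ← ENNReal.ofReal_mul (abs_nonneg _),
    abs_of_pos h]
  congr 1; ring

/-- The polygon area bound. -/
theorem areaBd_of_measure {N : ℂ → ℝ} (hN : IsSN N) (S : Set ℂ) (hS : ∀ z, N z < 1 → z ∈ S)
    (hfin : volume S ≠ ⊤) : AreaBd N (volume S).toReal := by
  intro M v hM hv hv0 hpos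
  set T : ℕ → Set ℂ := fun i => Tri (v i) (v (i + 1)) with hT
  have hc : ∀ i, i < M → 0 < cr (v i) (v (i + 1)) := fun i hi =>
    hpos i (i + 1) (Nat.lt_succ_self i) hi (by omega)
  -- membership description
  have hmem : ∀ i, i < M → ∀ z ∈ T i, ∃ α γ : ℝ, 0 < α ∧ 0 < γ ∧ α + γ < 1 ∧
      z = α * v i + γ * v (i + 1) := by
    intro i hi z hz
    obtain ⟨a, b, c⟩ := hz
    have hci := hc i hi
    refine ⟨_, _, div_pos a hci, div_pos b hci, ?_, cr_expand _ _ z hci.ne'⟩
    rw [← add_div, div_lt_one hci]; exact c
  have hnn : ∀ i j, i ≤ j → j ≤ M → 0 ≤ cr (v i) (v j) := by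
    intro i j hij hj
    rcases hij.eq_or_lt with h | h
    · rw [h, cr_self]
    · by_cases h0 : 0 < i ∨ j < M
      · exact (hpos i j h hj h0).le
      · have : i = 0 ∧ j = M := by omega
        rw [this.1, this.2, hv0, cr_neg_right, cr_self]; simp
  have hdisj : ∀ i, i < M → ∀ j, j < M → i ≠ j → Disjoint (T i) (T j) := by
    have key : ∀ i j, i < j → j < M → Disjoint (T i) (T j) := by
      intro i j hij hj
      rw [Set.disjoint_left]
      intro z hz hz'
      obtain ⟨α, γ, h1, h2, h3, h4⟩ := hmem i (hij.trans hj) z hz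
      obtain ⟨α', γ', h1', h2', h3', h4'⟩ := hmem j hj z hz'
      have e : cr z z = 0 := cr_self z
      nth_rewrite 1 [h4] at e
      rw [h4'] at e
      simp only [cr_add_left, cr_add_right, cr_smul_left, cr_smul_right] at e
      have p1 : 0 < cr (v i) (v j) := hpos i j hij hj.le (Or.inr hj)
      have p2 := hnn i (j + 1) (by omega) (by omega)
      have p3 := hnn (i + 1) j (by omega) (by omega)
      have p4 := hnn (i + 1) (j + 1) (by omega) (by omega)
      have q1 : 0 < α * (α' * cr (v i) (v j)) := by positivity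
      have q2 : 0 ≤ α * (γ' * cr (v i) (v (j + 1))) := by positivity
      have q3 : 0 ≤ γ * (α' * cr (v (i + 1)) (v j)) := by positivity
      have q4 : 0 ≤ γ * (γ' * cr (v (i + 1)) (v (j + 1))) := by positivity
      linarith
    intro i hi j hj hij
    rcases lt_or_gt_of_ne hij with h | h
    · exact key i j h hj
    · exact (key j i h hi).symm
  set U : Set ℂ := ⋃ i ∈ range M, T i with hU
  have hUm : MeasurableSet U := by
    apply Finset.measurableSet_biUnion
    intro i _
    exact (Tri_open _ _).measurableSet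
  have hUvol : volume U = ∑ i ∈ range M, volume (T i) := by
    apply measure_biUnion_finset
    · intro i hi j hj hij
      exact hdisj i (by simpa using hi) j (by simpa using hj) hij
    · intro i _
      exact (Tri_open _ _).measurableSet
  have hUcr : ∀ z ∈ U, 0 < cr (v 0) z := by
    intro z hz
    simp only [hU, Set.mem_iUnion, Finset.mem_range] at hz
    obtain ⟨i, hi, hz⟩ := hz
    obtain ⟨α, γ, h1, h2, h3, h4⟩ := hmem i hi z hz
    rw [h4, cr_add_right, cr_smul_right, cr_smul_right]
    by_cases h0 : i = 0
    · have : 0 < cr (v 0) (v (i + 1)) := hpos 0 (i + 1) (by omega) (by omega) (by omega)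
      rw [h0, cr_self, mul_zero, zero_add]
      rw [h0] at this
      positivity
    · have p1 : 0 < cr (v 0) (v i) := hpos 0 i (by omega) hi.le (Or.inr hi)
      have p2 : 0 ≤ cr (v 0) (v (i + 1)) := hnn 0 (i + 1) (by omega) (by omega)
      have q1 : 0 < α * cr (v 0) (v i) := by positivity
      have q2 : 0 ≤ γ * cr (v 0) (v (i + 1)) := by positivity
      linarith
  have hUN : ∀ z ∈ U, N z < 1 := by
    intro z hz
    simp only [hU, Set.mem_iUnion, Finset.mem_range] at hz
    obtain ⟨i, hi, hz⟩ := hz
    obtain ⟨α, γ, h1, h2, h3, h4⟩ := hmem i hi z hz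
    have := hN.tri ((α : ℂ) * v i) ((γ : ℂ) * v (i + 1))
    rw [← h4, hN.smul_nonneg h1.le, hN.smul_nonneg h2.le, hv, hv] at this
    linarith
  set U' : Set ℂ := (fun z => -z) ⁻¹' U with hU'
  have hU'vol : volume U' = volume U := by
    have : MeasurePreserving (fun z : ℂ => -z) volume volume := Measure.measurePreserving_neg _
    exact this.measure_preimage hUm.nullMeasurableSet
  have hUU' : Disjoint U U' := by
    rw [Set.disjoint_left]
    intro z hz hz'
    have h1 := hUcr z hz
    have h2 := hUcr (-z) hz'
    rw [cr_neg_right] at h2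
    linarith
  have hsub : U ∪ U' ⊆ S := by
    rintro z (hz | hz)
    · exact hS z (hUN z hz)
    · apply hS
      have := hUN (-z) hz
      rwa [hN.neg] at this
  have hvol : volume U + volume U ≤ volume S := by
    calc volume U + volume U = volume U + volume U' := by rw [hU'vol]
      _ = volume (U ∪ U') := (measure_union hUU' (by
          rw [hU']
          exact measurable_neg hUm)).symm
      _ ≤ volume S := measure_mono hsub
  have hUvol2 : volume U = ENNReal.ofReal (∑ i ∈ range M, cr (v i) (v (i + 1)) / 2) := by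
    rw [hUvol, ENNReal.ofReal_sum_of_nonneg]
    · apply Finset.sum_congr rfl
      intro i hi
      exact vol_Tri (hc i (by simpa using hi))
    · intro i hi
      have := hc i (by simpa using hi)
      positivity
  rw [hUvol2] at hvol
  have hsum0 : 0 ≤ ∑ i ∈ range M, cr (v i) (v (i + 1)) / 2 := by
    apply Finset.sum_nonneg
    intro i hi
    have := hc i (by simpa using hi)
    positivity
  rw [← ENNReal.ofReal_add hsum0 hsum0] at hvol
  have := ENNReal.toReal_mono hfin hvol
  rw [ENNReal.toReal_ofReal (by positivity)] at this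
  rw [← Finset.sum_div] at this
  linarith

end Rein69
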