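import Pool.Agent.Rein69.Cfg

set_option autoImplicit false

namespace Rein69

open Complex Finset

section
variable {n : ℕ} [NeZero n]

lemma ft_zero (F : ZMod n → ℂ) : ft F 0 = (1 / (n : ℂ)) * ∑ k, F k := by
  unfold ft; simp [chi_zero]

lemma Am_zero (ρ : ZMod n → ℝ) (h : ∀ x, 0 < ρ x) : Am ρ 0 = (1 / (n : ℝ)) * ∑ k, ρ k := by
  unfold Am
  rw [ft_zero]
  have : (1 / (n : ℂ)) * ∑ k, (ρ k : ℂ) = (((1 / (n : ℝ)) * ∑ k, ρ k : ℝ) : ℂ) := by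
    push_cast; rfl
  rw [this, Complex.norm_real, Real.norm_of_nonneg]
  have : 0 ≤ ∑ k, ρ k := Finset.sum_nonneg (fun k _ => (h k).le)
  positivity

lemma parseval0 (F : ZMod n → ℂ) : ∑ l, ‖ft F l‖ ^ 2 = (1 / (n : ℝ)) * ∑ k, ‖F k‖ ^ 2 := by
  have h := ft_parseval F 0 0
  simp only [sub_self, mul_zero, chi_zero, mul_one, add_zero] at h
  have hn := nC_ne (n := n)
  have e : ((∑ l, ‖ft F l‖ ^ 2 : ℝ) : ℂ) = (((1 / (n : ℝ)) * ∑ k, ‖F k‖ ^ 2 : ℝ) : ℂ) := by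
    have h1 : ((∑ l, ‖ft F l‖ ^ 2 : ℝ) : ℂ) = ∑ l, ((normSq (ft F l) : ℝ) : ℂ) := by
      push_cast
      apply Finset.sum_congr rfl
      intro l _
      rw [Complex.normSq_eq_norm_sq]; push_cast; rfl
    have h2 : ((∑ k, ‖F k‖ ^ 2 : ℝ) : ℂ) = ∑ k, (starRingEnd ℂ) (F k) * F k := by
      push_cast
      apply Finset.sum_congr rfl
      intro k _
      rw [← Complex.normSq_eq_conj_mul_self, Complex.normSq_eq_norm_sq]; push_cast; rfl
    rw [h1, Complex.ofReal_mul, h2, h]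
    push_cast
    field_simp
  exact_mod_cast e

lemma sumA (ρ : ZMod n → ℝ) : ∑ l, Am ρ l ^ 2 = (1 / (n : ℝ)) * ∑ k, ρ k ^ 2 := by
  unfold Am
  rw [parseval0]
  congr 1
  apply Finset.sum_congr rfl
  intro k _
  rw [Complex.norm_real, Real.norm_eq_abs, sq_abs]

lemma sumB (b : ZMod n → ℂ) : ∑ l, Bm b l ^ 2 = (1 / (n : ℝ)) * ∑ k, normSq (b k) := by
  unfold Bm
  rw [parseval0]
  congr 1
  apply Finset.sum_congr rfl
  intro k _
  rw [Complex.normSq_eq_norm_sq]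

lemma Am_neg (ρ : ZMod n → ℝ) (l : ZMod n) : Am ρ (-l) = Am ρ l := by
  unfold Am
  have e : ft (fun x => (ρ x : ℂ)) (-l) = (starRingEnd ℂ) (ft (fun x => (ρ x : ℂ)) l) := by
    unfold ft
    simp only [map_mul, map_sum, conj_chi, map_div₀, map_one, Complex.conj_natCast,
      Complex.conj_ofReal]
    congr 1
    apply Finset.sum_congr rfl
    intro k _
    congr 2; ring
  rw [e, Complex.norm_conj]

lemma Am_nonneg (ρ : ZMod n → ℝ) (l : ZMod n) : 0 ≤ Am ρ l := norm_nonneg _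
lemma Bm_nonneg (b : ZMod n → ℂ) (l : ZMod n) : 0 ≤ Bm b l := norm_nonneg _

variable {ρ : ZMod n → ℝ} {b : ZMod n → ℂ} {V : ℝ} (h : Cfg n ρ b V)
include h

lemma Cfg.A0_ge : 1 ≤ Am ρ 0 := by
  rw [Am_zero ρ h.ρpos]
  have hn := n_posR (n := n)
  have h1 : ∑ _k : ZMod n, (1 : ℝ) ≤ ∑ k, ρ k := Finset.sum_le_sum (fun k _ => h.ρ_ge k)
  rw [Finset.sum_const, Finset.card_univ, ZMod.card, nsmul_eq_mul, mul_one] at h1
  rw [one_div, inv_mul_eq_div, le_div_iff₀ hn, one_mul]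
  exact h1

lemma Cfg.D_ineq : 1 + ∑ l, Bm b l ^ 2 ≤ ∑ l, Am ρ l ^ 2 := by
  rw [sumA, sumB]
  have hn := n_posR (n := n)
  have h1 : ∑ _k : ZMod n, (1 : ℝ) ≤ ∑ k, (ρ k ^ 2 - normSq (b k)) :=
    Finset.sum_le_sum (fun k _ => h.det k)
  rw [Finset.sum_const, Finset.card_univ, ZMod.card, nsmul_eq_mul, mul_one,
    Finset.sum_sub_distrib] at h1
  have h2 : 1 / (n : ℝ) * n ≤ 1 / (n : ℝ) * (∑ k, ρ k ^ 2 - ∑ k, normSq (b k)) :=
    mul_le_mul_of_nonneg_left h1 (by positivity)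
  rw [one_div_mul_cancel hn.ne', mul_sub] at h2
  linarith

lemma Cfg.VA {τ : ℝ} (hτ : ∀ x, ρ x ≤ 1 + τ) :
    ∑ l ∈ univ.erase (0 : ZMod n), Am ρ l ^ 2 ≤ (Am ρ 0 - 1) * (τ - (Am ρ 0 - 1)) := by
  have hn := n_posR (n := n)
  have h1 : Am ρ 0 ^ 2 + ∑ l ∈ univ.erase (0 : ZMod n), Am ρ l ^ 2 = ∑ l, Am ρ l ^ 2 :=
    Finset.add_sum_erase univ (fun l => Am ρ l ^ 2) (Finset.mem_univ 0)
  rw [sumA] at h1
  have h2 := Am_zero ρ h.ρpos
  have h3 : ∑ k, ρ k ^ 2 ≤ ∑ k, ((2 + τ) * ρ k - (1 + τ)) := by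
    apply Finset.sum_le_sum
    intro k _
    have := h.ρ_ge k
    have := hτ k
    nlinarith
  rw [Finset.sum_sub_distrib, ← Finset.mul_sum, Finset.sum_const, Finset.card_univ, ZMod.card,
    nsmul_eq_mul] at h3
  have h4 : 1 / (n : ℝ) * ∑ k, ρ k ^ 2 ≤ (2 + τ) * Am ρ 0 - (1 + τ) := by
    have h5 : 1 / (n : ℝ) * ∑ k, ρ k ^ 2 ≤ 1 / (n : ℝ) * ((2 + τ) * ∑ k, ρ k - n * (1 + τ)) :=
      mul_le_mul_of_nonneg_left h3 (by positivity)
    have h6 : 1 / (n : ℝ) * ((2 + τ) * ∑ k, ρ k - n * (1 + τ)) =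
        (2 + τ) * (1 / (n : ℝ) * ∑ k, ρ k) - (1 + τ) := by field_simp
    rw [h6, ← h2] at h5
    exact h5
  nlinarith

omit h in
lemma sum_chi_erase {l : ZMod n} (hl : l ≠ 0) : ∑ k : ZMod n, chi (-(k * l)) = 0 := by
  have := sum_chi (-l : ZMod n)
  rw [if_neg (by simpa using hl)] at this
  rw [← this]
  apply Finset.sum_congr rfl
  intro k _; congr 1; ring

lemma Cfg.A_le {l : ZMod n} (hl : l ≠ 0) : Am ρ l ≤ Am ρ 0 - 1 := by
  have hn := n_posR (n := n)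
  have e : ft (fun x => (ρ x : ℂ)) l = (1 / (n : ℂ)) * ∑ k, ((ρ k - 1 : ℝ) : ℂ) * chi (-(k * l)) := by
    unfold ft
    congr 1
    have : ∀ k : ZMod n, ((ρ k - 1 : ℝ) : ℂ) * chi (-(k * l)) =
        (ρ k : ℂ) * chi (-(k * l)) - chi (-(k * l)) := by
      intro k; push_cast; ring
    rw [Finset.sum_congr rfl (fun k _ => this k), Finset.sum_sub_distrib, sum_chi_erase hl, sub_zero]
  unfold Am
  rw [e, norm_mul]
  have h1 : ‖∑ k, ((ρ k - 1 : ℝ) : ℂ) * chi (-(k * l))‖ ≤ ∑ k, (ρ k - 1) := by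
    refine (norm_sum_le _ _).trans (le_of_eq ?_)
    apply Finset.sum_congr rfl
    intro k _
    rw [norm_mul, norm_chi, mul_one, Complex.norm_real, Real.norm_of_nonneg]
    linarith [h.ρ_ge k]
  have h2 : ‖(1 / (n : ℂ))‖ = 1 / n := by simp
  have h3 : ‖ft (fun x => (ρ x : ℂ)) 0‖ = (1 / (n : ℝ)) * ∑ k, ρ k := Am_zero ρ h.ρpos
  rw [h2, h3]
  rw [Finset.sum_sub_distrib, Finset.sum_const, Finset.card_univ, ZMod.card, nsmul_eq_mul,
    mul_one] at h1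
  calc 1 / (n : ℝ) * ‖∑ k, ((ρ k - 1 : ℝ) : ℂ) * chi (-(k * l))‖ ≤
      1 / (n : ℝ) * (∑ k, ρ k - n) := mul_le_mul_of_nonneg_left h1 (by positivity)
    _ = 1 / (n : ℝ) * ∑ k, ρ k - 1 := by field_simp

end

/-- gauge consequence for even `n` -/
lemma gauge_even {m : ℕ} [NeZero (2 * m)] (b : ZMod (2 * m) → ℂ)
    (hb : b (((0 : ℕ) : ZMod (2 * m))) + b ((m : ZMod (2 * m))) = 0) :
    2 * Bm b 0 ≤ ∑ l ∈ univ.erase (0 : ZMod (2 * m)), Bm b l * ‖1 + E (2 * m) (6 * l.val * m)‖ := by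
  have e1 : ∑ l : ZMod (2 * m), ft b l * (1 + E (2 * m) (6 * l.val * m)) = 0 := by
    have h0 := ft_inv b (((0 : ℕ) : ZMod (2 * m)))
    have h1 := ft_inv b ((m : ZMod (2 * m)))
    rw [h0, h1, ← Finset.sum_add_distrib] at hb
    rw [← hb]
    apply Finset.sum_congr rfl
    intro l _
    rw [← chi_val, mul_comm ((m : ZMod (2 * m))) l]
    simp [chi_zero]; ring
  rw [← Finset.add_sum_erase univ _ (Finset.mem_univ 0)] at e1
  have e2 : ft b 0 * 2 = -∑ l ∈ univ.erase (0 : ZMod (2 * m)), ft b l * (1 + E (2 * m) (6 * l.val * m)) := by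
    have : (1 + E (2 * m) (6 * ((0 : ZMod (2 * m)).val : ℤ) * m)) = 2 := by
      simp [E_zero]; norm_num
    rw [this] at e1
    linear_combination e1
  have e3 : 2 * Bm b 0 = ‖ft b 0 * 2‖ := by
    rw [norm_mul]; simp [Bm]; ring
  rw [e3, e2, norm_neg]
  refine (norm_sum_le _ _).trans (le_of_eq ?_)
  apply Finset.sum_congr rfl
  intro l _
  rw [norm_mul]; rfl

end Rein69
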