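import Pool.Agent.Rein69.Ineq

set_option autoImplicit false

namespace Rein69

open Complex Finset

/-- abstract configuration of `n` hexagons -/
structure Cfg (n : ℕ) [NeZero n] (ρ : ZMod n → ℝ) (b : ZMod n → ℂ) (V : ℝ) : Prop where
  ρpos : ∀ x, 0 < ρ x
  det : ∀ x, 1 ≤ ρ x ^ 2 - normSq (b x)
  nn : ∀ i j : ℕ, i ≤ j → j ≤ i + 3 * n → 0 ≤ cr (W ρ b i) (W ρ b j)
  three : ∀ i j l : ℕ, i ≤ j → j ≤ l → l ≤ i + 3 * n →
    cr (W ρ b i) (W ρ b l) ≤ cr (W ρ b i) (W ρ b j) + cr (W ρ b j) (W ρ b l)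
  step : ∀ s M i0 : ℕ, 0 < s → 2 ≤ M → s * M = 3 * n →
    ∑ i ∈ range M, cr (W ρ b (i0 + s * i)) (W ρ b (i0 + s * (i + 1))) ≤ V
  pair : ∀ i j : ℕ, i < j → j < i + n →
    cr (W ρ b i) (W ρ b j) + cr (W ρ b j) (W ρ b (i + n)) +
    cr (W ρ b (i + n)) (W ρ b (j + n)) + cr (W ρ b (j + n)) (W ρ b (i + 2 * n)) +
    cr (W ρ b (i + 2 * n)) (W ρ b (j + 2 * n)) +
    cr (W ρ b (j + 2 * n)) (W ρ b (i + 3 * n)) ≤ V

/-- passing from hexagon sequences to configurations -/
theorem good_of_cfg {N : ℂ → ℝ} (hN : IsSN N) {V κ : ℝ} (hV : AreaBd N V) {n : ℕ} [NeZero n]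
    {Φ : ℕ → ℝ} {ρ : ℕ → ℝ} {b : ℕ → ℂ} (h : HSeq N n Φ ρ b)
    (hmain : ∀ c : ℝ, 0 < c → ∀ ρ' b' V', Cfg n ρ' b' V' →
      (∀ k : ℕ, ρ' (k : ZMod n) = c * ρ k) → (∀ k : ℕ, b' (k : ZMod n) = c * b k) →
      κ * (Real.sqrt 3 / 2) ≤ V') : Good κ N V := by
  have hn0 : 0 < n := NeZero.pos n
  have hs3 := s3_pos
  -- determinants
  set d : ℕ → ℝ := fun k => normSq (hA N (Φ k)) - normSq (hB N (Φ k)) with hd
  have hd' : ∀ k, d k = ρ k ^ 2 - normSq (b k) := by
    intro k
    simp only [hd]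
    rw [h.a, h.bb, normSq_mul, normSq_mul, Complex.normSq_eq_norm_sq (ex _),
      Complex.normSq_eq_norm_sq (ex _), norm_ex, norm_ex, normSq_ofReal]
    ring
  have hdpos : ∀ k, 0 < d k := by
    intro k
    have := hN.hB_lt (Φ k)
    simp only [hd]; linarith
  obtain ⟨k0, hk0, hmin⟩ := Finset.exists_min_image (range n) d ⟨0, by simpa using hn0⟩
  set δ := d k0 with hδ
  have hδ0 : 0 < δ := hdpos k0
  set c : ℝ := 1 / Real.sqrt δ with hc
  have hsδ : 0 < Real.sqrt δ := Real.sqrt_pos.mpr hδ0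
  have hc0 : 0 < c := by positivity
  have hc2 : c * c = 1 / δ := by
    rw [hc, div_mul_div_comm, Real.mul_self_sqrt hδ0.le, one_mul]
  set ρ' : ZMod n → ℝ := fun x => c * ρ x.val with hρ'
  set b' : ZMod n → ℂ := fun x => c * b x.val with hb'
  have hρper : ∀ k : ℕ, ρ (k % n) = ρ k := by
    intro k
    have h1 := Nat.mod_add_div k n
    have h2 : ∀ q r : ℕ, ρ (r + n * q) = ρ r := by
      intro q r
      induction q with
      | zero => simp
      | succ q ih => rw [mul_add, mul_one, ← add_assoc, h.ρper, ih]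
    conv_rhs => rw [← h1, h2]
  have hbper : ∀ k : ℕ, b (k % n) = b k := by
    intro k
    have h1 := Nat.mod_add_div k n
    have h2 : ∀ q r : ℕ, b (r + n * q) = b r := by
      intro q r
      induction q with
      | zero => simp
      | succ q ih => rw [mul_add, mul_one, ← add_assoc, h.bper, ih]
    conv_rhs => rw [← h1, h2]
  have e1 : ∀ k : ℕ, ρ' (k : ZMod n) = c * ρ k := by
    intro k; simp only [hρ', ZMod.val_natCast, hρper]
  have e2 : ∀ k : ℕ, b' (k : ZMod n) = c * b k := by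
    intro k; simp only [hb', ZMod.val_natCast, hbper]
  have hW : ∀ k : ℕ, W ρ' b' k = (c : ℂ) * P N (Φ k) := by
    intro k
    unfold W
    rw [e1, e2, hN.P_eq, h.a, h.bb]
    unfold E
    push_cast
    have : (-(k : ℝ)) * (Real.pi / (3 * n)) = -(k * (Real.pi / (3 * n))) := by ring
    rw [this]
    ring
  have hcrW : ∀ i j : ℕ, cr (W ρ' b' i) (W ρ' b' j) = 1 / δ * cr (P N (Φ i)) (P N (Φ j)) := by
    intro i j
    rw [hW, hW, cr_smul_left, cr_smul_right, ← mul_assoc, hc2]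
  have hcfg : Cfg n ρ' b' (V / δ) := by
    refine ⟨?_, ?_, ?_, ?_, ?_, ?_⟩
    · intro x
      simp only [hρ']
      exact mul_pos hc0 (h.ρpos _)
    · intro x
      simp only [hρ', hb']
      rw [normSq_mul, normSq_ofReal, mul_pow, pow_two c, hc2, ← mul_sub, ← hd', one_div,
        inv_mul_eq_div, le_div_iff₀ hδ0, one_mul]
      exact hmin _ (by simpa using ZMod.val_lt x)
    · intro i j h1 h2
      rw [hcrW]
      have := h.nonneg hN h1 h2
      positivity
    · intro i j l h1 h2 h3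
      rw [hcrW, hcrW, hcrW, ← mul_add]
      exact mul_le_mul_of_nonneg_left (h.three hN h1 h2 h3) (by positivity)
    · intro s M i0 h1 h2 h3
      simp only [hcrW]
      rw [← Finset.mul_sum, one_div, inv_mul_eq_div]
      exact div_le_div_of_nonneg_right (h.area_step hN hV s M i0 h1 h2 h3) hδ0.le
    · intro i j h1 h2
      simp only [hcrW]
      rw [← mul_add, ← mul_add, ← mul_add, ← mul_add, ← mul_add, one_div, inv_mul_eq_div]
      exact div_le_div_of_nonneg_right (h.area_pair hN hV i j h1 h2) hδ0.le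
  have hfin := hmain c hc0 ρ' b' (V / δ) hcfg e1 e2
  rw [le_div_iff₀ hδ0] at hfin
  refine ⟨P N (Φ k0), P N (tau N (Φ k0)), hN.N_P _, hN.N_P _, ?_, hN.det_pos _, ?_⟩
  · rw [hN.sub_comm]; exact (hN.tau_spec _).2.2
  · rw [hN.det_eq]
    have : normSq (hA N (Φ k0)) - normSq (hB N (Φ k0)) = δ := rfl
    rw [this]
    linarith

section
variable {n : ℕ} [NeZero n] {ρ : ZMod n → ℝ} {b : ZMod n → ℂ} {V : ℝ} (h : Cfg n ρ b V)
include h

lemma Cfg.ρ_ge (x : ZMod n) : 1 ≤ ρ x := by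
  have h1 := h.det x
  have h2 := h.ρpos x
  have h3 := normSq_nonneg (b x)
  nlinarith

lemma Cfg.Sq_le (s M : ℕ) (hs : 0 < s) (hM : 2 ≤ M) (hsM : s * M = 3 * n) :
    3 * n * Sq ρ b s ≤ s * V := by
  rw [← sum0 ρ b 0 s s (by ring)]
  have e : ∀ K : ℕ, ∑ k ∈ range (s * K), cr (W ρ b (k + 0)) (W ρ b (k + s)) =
      ∑ i0 ∈ range s, ∑ i ∈ range K, cr (W ρ b (i0 + s * i)) (W ρ b (i0 + s * (i + 1))) := by
    intro K
    induction K with
    | zero => simp
    | succ K ih =>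
      rw [mul_add, mul_one, Finset.sum_range_add, ih, ← Finset.sum_add_distrib]
      apply Finset.sum_congr rfl
      intro i0 _
      rw [Finset.sum_range_succ]
      congr 3
      · ring
      · ring
  rw [← hsM, e]
  calc ∑ i0 ∈ range s, ∑ i ∈ range M, cr (W ρ b (i0 + s * i)) (W ρ b (i0 + s * (i + 1))) ≤
      ∑ i0 ∈ range s, V := Finset.sum_le_sum (fun i0 _ => h.step s M i0 hs hM hsM)
    _ = s * V := by simp

lemma Cfg.T (m : ℕ) (r : ℤ) (hm : 2 * m ≤ 3 * n) :
    Am ρ 0 * Bm b (-(r : ZMod n)) * Kc n m r 0 ≤ 2 * (2 * Sq ρ b m - Sq ρ b (2 * m)) +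
      ∑ l ∈ univ.erase (0 : ZMod n), Am ρ l * Bm b (-(r : ZMod n) - l) * Kc n m r l.val :=
  T_ineq ρ b m r (fun i => h.three i (i + m) (i + 2 * m) (by omega) (by omega) (by omega))

/-- bound from the twelve-gon of two hexagons -/
lemma Cfg.pair_bound {i j : ℕ} (hij : i < j) (hj : j < i + n)
    (hre : (b (i : ZMod n) * (starRingEnd ℂ) (b (j : ZMod n))).re ≤ 0) :
    3 * (ρ (i : ZMod n) * ρ (j : ZMod n)) ≤ 2 / Real.sqrt 3 * V := by
  have b1 := block0 ρ b i j 0
  have b2 := block0 ρ b j (i + n) 0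
  have hp := h.pair i j hij hj
  have c1 : ((0 + i : ℕ) : ZMod n) = i := by simp
  have c2 : ((0 + j : ℕ) : ZMod n) = j := by simp
  have c3 : ((0 + (i + n) : ℕ) : ZMod n) = i := by simp
  rw [c1, c2] at b1
  rw [c2, c3] at b2
  have d1 : (0 + i) = i := by ring
  have d2 : (0 + j) = j := by ring
  have d3 : 0 + n + i = i + n := by ring
  have d4 : 0 + n + j = j + n := by ring
  have d5 : 0 + 2 * n + i = i + 2 * n := by ring
  have d6 : 0 + 2 * n + j = j + 2 * n := by ring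
  have d7 : 0 + (i + n) = i + n := by ring
  have d8 : 0 + n + (i + n) = i + 2 * n := by ring
  have d9 : 0 + 2 * n + (i + n) = i + 3 * n := by ring
  rw [d1, d2, d3, d4, d5, d6] at b1
  rw [d2, d7, d4, d8, d6, d9] at b2
  set p : ℝ := ρ (i : ZMod n) * ρ (j : ZMod n) with hpdef
  set e : ℂ := E n ((j : ℤ) - i) with he
  set z : ℂ := p - b (i : ZMod n) * (starRingEnd ℂ) (b (j : ZMod n)) with hz
  have he1 : e * (starRingEnd ℂ) e = 1 := by
    rw [he, conj_E, E_mul_neg]
  have he' : E n ((i : ℤ) - j) = (starRingEnd ℂ) e := by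
    rw [he, conj_E]; congr 1; ring
  have hx : ((ρ (i : ZMod n) : ℂ) * ρ (j : ZMod n) * E n ((j : ℤ) - i) +
      (starRingEnd ℂ) (b (i : ZMod n)) * b (j : ZMod n) * E n ((i : ℤ) - j)).im = (z * e).im := by
    rw [he', ← he, hz, sub_mul, Complex.add_im, Complex.sub_im]
    have : ((starRingEnd ℂ) (b (i : ZMod n)) * b (j : ZMod n) * (starRingEnd ℂ) e).im =
        - (b (i : ZMod n) * (starRingEnd ℂ) (b (j : ZMod n)) * e).im := by
      rw [← Complex.conj_im]; simp
    rw [this, hpdef]; push_cast; ring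
  have hy : ((ρ (j : ZMod n) : ℂ) * ρ (i : ZMod n) * E n (((i + n : ℕ) : ℤ) - j) +
      (starRingEnd ℂ) (b (j : ZMod n)) * b (i : ZMod n) * E n ((j : ℤ) - ((i + n : ℕ) : ℤ))).im =
      (om * (starRingEnd ℂ) (z * e)).im := by
    have g1 : E n (((i + n : ℕ) : ℤ) - j) = om * (starRingEnd ℂ) e := by
      rw [he, conj_E, ← E_n (n := n), ← E_add]; congr 1; push_cast; ring
    have g2 : E n ((j : ℤ) - ((i + n : ℕ) : ℤ)) = ob * e := by
      rw [he, ← E_neg_n (n := n), ← E_add]; congr 1; push_cast; ring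
    rw [g1, g2, hz, map_mul, map_sub, Complex.conj_ofReal, map_mul, Complex.conj_conj, sub_mul,
      mul_sub, Complex.add_im, Complex.sub_im]
    have : ((starRingEnd ℂ) (b (j : ZMod n)) * b (i : ZMod n) * (ob * e)).im =
        - (om * ((starRingEnd ℂ) (b (i : ZMod n)) * b (j : ZMod n) * (starRingEnd ℂ) e)).im := by
      rw [← Complex.conj_im]
      congr 1
      simp only [map_mul, Complex.conj_conj, conj_om]
      ring
    rw [this, hpdef]
    have : (om * (((ρ (i : ZMod n) * ρ (j : ZMod n) : ℝ) : ℂ) * (starRingEnd ℂ) e)) =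
      ((ρ (j : ZMod n) : ℂ) * ρ (i : ZMod n) * (om * (starRingEnd ℂ) e)) := by push_cast; ring
    rw [this]; ring
  rw [hx] at b1
  rw [hy] at b2
  set x := (z * e).im with hxdef
  set y := (om * (starRingEnd ℂ) (z * e)).im with hydef
  have hx0 : 0 ≤ x := by
    have h1 := h.nn i j hij.le (by omega)
    have h2 := h.nn (i + n) (j + n) (by omega) (by omega)
    have h3 := h.nn (i + 2 * n) (j + 2 * n) (by omega) (by omega)
    linarith
  have hy0 : 0 ≤ y := by
    have h1 := h.nn j (i + n) hj.le (by omega)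
    have h2 := h.nn (j + n) (i + 2 * n) (by omega) (by omega)
    have h3 := h.nn (j + 2 * n) (i + 3 * n) (by omega) (by omega)
    linarith
  have hxy : 3 * (x + y) ≤ V := by linarith
  have hs3 := s3_pos
  have hsq := sq3
  -- quadratic identity
  have hquad : x * x + y * y + x * y = 3 / 4 * normSq (z * e) := by
    have hy' : y = Real.sqrt 3 / 2 * (z * e).re - 1 / 2 * (z * e).im := by
      rw [hydef]; simp [om]; ring
    rw [hy', ← hxdef, normSq_apply, ← hxdef]
    linear_combination ((z * e).re * (z * e).re / 4) * hsq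
  have hnz : p ^ 2 ≤ normSq (z * e) := by
    have h1 : normSq (z * e) = normSq z := by
      rw [normSq_mul, he, Complex.normSq_eq_norm_sq (E _ _), norm_E]; ring
    rw [h1, normSq_apply]
    have h2 : z.re = p - (b (i : ZMod n) * (starRingEnd ℂ) (b (j : ZMod n))).re := by
      rw [hz]; simp
    have hp0 : 0 ≤ p := by
      rw [hpdef]; exact (mul_pos (h.ρpos _) (h.ρpos _)).le
    have h3 : p ≤ z.re := by linarith
    nlinarith [mul_self_nonneg z.im]
  have hsum : p ≤ 2 / Real.sqrt 3 * (x + y) := by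
    have hxy0 : 0 ≤ x + y := by linarith
    have h1 : 3 / 4 * p ^ 2 ≤ (x + y) ^ 2 := by nlinarith [mul_nonneg hx0 hy0]
    have h2 : (Real.sqrt 3 / 2 * p) ^ 2 ≤ (x + y) ^ 2 := by
      have : (Real.sqrt 3 / 2 * p) ^ 2 = 3 / 4 * p ^ 2 := by
        rw [mul_pow, div_pow, Real.sq_sqrt (by norm_num)]; norm_num
      rw [this]; exact h1
    have h3 := abs_le_of_sq_le_sq' h2 hxy0
    have h4 : Real.sqrt 3 / 2 * p ≤ x + y := h3.2
    rw [div_mul_eq_mul_div, le_div_iff₀ hs3]
    linarith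
  have h5 : 2 / Real.sqrt 3 * (3 * (x + y)) ≤ 2 / Real.sqrt 3 * V :=
    mul_le_mul_of_nonneg_left hxy (by positivity)
  linarith

/-- all radii are bounded if the gauge condition holds -/
lemma Cfg.ρ_le {κ : ℝ} (hV : V < κ * (Real.sqrt 3 / 2))
    (hg : ∀ x : ZMod n, ∃ y, y ≠ x ∧ (b x * (starRingEnd ℂ) (b y)).re ≤ 0) (x : ZMod n) :
    ρ x ≤ κ / 3 := by
  obtain ⟨y, hyx, hre⟩ := hg x
  have hs3 := s3_pos
  have key : ∀ u v : ZMod n, u.val < v.val → (b u * (starRingEnd ℂ) (b v)).re ≤ 0 →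
      ρ u * ρ v ≤ κ / 3 := by
    intro u v huv hr
    have eu : ((u.val : ℕ) : ZMod n) = u := by simp
    have ev : ((v.val : ℕ) : ZMod n) = v := by simp
    have := h.pair_bound (i := u.val) (j := v.val) huv (by have := ZMod.val_lt v; omega)
      (by rw [eu, ev]; exact hr)
    rw [eu, ev] at this
    have h2 : 2 / Real.sqrt 3 * V ≤ κ := by
      have : 2 / Real.sqrt 3 * V ≤ 2 / Real.sqrt 3 * (κ * (Real.sqrt 3 / 2)) :=
        mul_le_mul_of_nonneg_left hV.le (by positivity)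
      have e : 2 / Real.sqrt 3 * (κ * (Real.sqrt 3 / 2)) = κ := by field_simp
      linarith
    linarith
  have hx1 := h.ρ_ge x
  have hy1 := h.ρ_ge y
  have hxpos := h.ρpos x
  have hprod : ρ x * ρ y ≤ κ / 3 := by
    rcases lt_trichotomy x.val y.val with h1 | h1 | h1
    · exact key x y h1 hre
    · exact absurd (ZMod.val_injective n h1).symm hyx
    · rw [mul_comm]
      apply key y x h1
      have : (b y * (starRingEnd ℂ) (b x)).re = (b x * (starRingEnd ℂ) (b y)).re := by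
        simp; ring
      rw [this]; exact hre
  nlinarith

end

end Rein69
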