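import Mathlib

set_option autoImplicit false

namespace Rein69

/-- a separable quadratic form with integer coefficients -/
structure Row where
  k : ℤ
  t1 : ℤ
  t2 : ℤ
  o : List (ℤ × ℤ)

/-- value of the non constant, non t part -/
def valL : List (ℤ × ℤ) → List ℝ → ℝ
  | [], _ => 0
  | _ :: _, [] => 0
  | c :: r, x :: xs => c.1 * x + c.2 * x ^ 2 + valL r xs

/-- value of a row -/
def Row.val (R : Row) (t : ℝ) (x : List ℝ) : ℝ := R.k + R.t1 * t + R.t2 * t ^ 2 + valL R.o x

/-- entrywise addition -/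
def addL : List (ℤ × ℤ) → List (ℤ × ℤ) → List (ℤ × ℤ)
  | [], s => s
  | r, [] => r
  | a :: r, b :: s => (a.1 + b.1, a.2 + b.2) :: addL r s

/-- scalar multiple -/
def smulL (q : ℤ) : List (ℤ × ℤ) → List (ℤ × ℤ)
  | [] => []
  | a :: r => (q * a.1, q * a.2) :: smulL q r

lemma valL_add (r s : List (ℤ × ℤ)) (x : List ℝ) : valL (addL r s) x = valL r x + valL s x := by
  induction r generalizing s x with
  | nil => simp [addL, valL]
  | cons a r ih =>
    cases s with
    | nil => simp [addL, valL]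
    | cons b s =>
      cases x with
      | nil => simp [addL, valL]
      | cons y x =>
        simp only [addL, valL, ih]
        push_cast
        ring

lemma valL_smul (q : ℤ) (r : List (ℤ × ℤ)) (x : List ℝ) : valL (smulL q r) x = q * valL r x := by
  induction r generalizing x with
  | nil => simp [smulL, valL]
  | cons a r ih =>
    cases x with
    | nil => simp [smulL, valL]
    | cons y x =>
      simp only [smulL, valL, ih]
      push_cast
      ring

/-- sum of rows -/
def Row.add (R S : Row) : Row := ⟨R.k + S.k, R.t1 + S.t1, R.t2 + S.t2, addL R.o S.o⟩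
/-- multiple of a row -/
def Row.smul (q : ℤ) (R : Row) : Row := ⟨q * R.k, q * R.t1, q * R.t2, smulL q R.o⟩
/-- zero row -/
def Row.zero : Row := ⟨0, 0, 0, []⟩

lemma Row.val_add (R S : Row) (t : ℝ) (x : List ℝ) : (R.add S).val t x = R.val t x + S.val t x := by
  simp only [Row.add, Row.val, valL_add]; push_cast; ring

lemma Row.val_smul (q : ℤ) (R : Row) (t : ℝ) (x : List ℝ) : (R.smul q).val t x = q * R.val t x := by
  simp only [Row.smul, Row.val, valL_smul]; push_cast; ring

lemma Row.val_zero (t : ℝ) (x : List ℝ) : Row.zero.val t x = 0 := by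
  simp [Row.zero, Row.val, valL]

/-- upper bound of a quadratic on an interval -/
def maxq (Q c1 c2 lo hi : ℤ) : ℤ :=
  if 0 ≤ c2 then max (c1 * Q * lo + c2 * lo * lo) (c1 * Q * hi + c2 * hi * hi)
  else
    max ((c1 * Q + 2 * c2 * max lo (min hi ((c1 * Q) / (-2 * c2)))) * lo)
      ((c1 * Q + 2 * c2 * max lo (min hi ((c1 * Q) / (-2 * c2)))) * hi) -
      c2 * max lo (min hi ((c1 * Q) / (-2 * c2))) * max lo (min hi ((c1 * Q) / (-2 * c2)))

lemma lin_le_max (e lo hi X : ℝ) (h1 : lo ≤ X) (h2 : X ≤ hi) : e * X ≤ max (e * lo) (e * hi) := by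
  rcases le_total 0 e with h | h
  · exact le_max_of_le_right (mul_le_mul_of_nonneg_left h2 h)
  · exact le_max_of_le_left (mul_le_mul_of_nonpos_left h1 h)

lemma maxq_sound (Q c1 c2 lo hi : ℤ) (X : ℝ) (h1 : (lo : ℝ) ≤ X) (h2 : X ≤ hi) :
    (c1 : ℝ) * Q * X + c2 * X ^ 2 ≤ (maxq Q c1 c2 lo hi : ℤ) := by
  unfold maxq
  split_ifs with hc
  · have hc' : (0 : ℝ) ≤ c2 := by exact_mod_cast hc
    have hq : (c2 : ℝ) * X ^ 2 ≤ c2 * ((lo + hi) * X - lo * hi) := by
      apply mul_le_mul_of_nonneg_left _ hc'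
      nlinarith
    have hl := lin_le_max ((c1 : ℝ) * Q + c2 * (lo + hi)) lo hi X h1 h2
    have e1 : ((c1 : ℝ) * Q + c2 * (lo + hi)) * lo = (c1 * Q * lo + c2 * lo * lo) + c2 * lo * hi := by
      ring
    have e2 : ((c1 : ℝ) * Q + c2 * (lo + hi)) * hi = (c1 * Q * hi + c2 * hi * hi) + c2 * lo * hi := by
      ring
    rw [e1, e2, max_add_add_right] at hl
    push_cast
    nlinarith
  · have hc' : (c2 : ℝ) ≤ 0 := by
      push Not at hc
      exact_mod_cast hc.le
    set p : ℤ := max lo (min hi ((c1 * Q) / (-2 * c2))) with hp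
    have hq : (c2 : ℝ) * X ^ 2 ≤ c2 * (2 * p * X - p * p) := by
      apply mul_le_mul_of_nonpos_left _ hc'
      nlinarith [sq_nonneg (X - p)]
    have hl := lin_le_max ((c1 : ℝ) * Q + 2 * c2 * p) lo hi X h1 h2
    push_cast
    nlinarith

/-- upper bound over a box -/
def ubL (Q : ℤ) : List (ℤ × ℤ) → List (ℤ × ℤ) → ℤ
  | [], _ => 0
  | _ :: _, [] => 0
  | c :: r, b :: bs => maxq Q c.1 c.2 b.1 b.2 + ubL Q r bs

/-- membership in a box scaled by `Q` -/
def InB (Q : ℤ) (bs : List (ℤ × ℤ)) (x : List ℝ) : Prop :=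
  List.Forall₂ (fun (p : ℤ × ℤ) (y : ℝ) => (p.1 : ℝ) ≤ Q * y ∧ Q * y ≤ p.2) bs x

lemma ubL_sound (Q : ℤ) (r bs : List (ℤ × ℤ)) (x : List ℝ) (h : InB Q bs x) :
    (Q : ℝ) ^ 2 * valL r x ≤ (ubL Q r bs : ℤ) := by
  induction h generalizing r with
  | nil =>
    cases r with
    | nil => simp [valL, ubL]
    | cons a r => simp [valL, ubL]
  | @cons b y bs x hy hx ih =>
    cases r with
    | nil => simp [valL, ubL]
    | cons a r =>
      simp only [valL, ubL]
      have h1 := maxq_sound Q a.1 a.2 b.1 b.2 (Q * y) hy.1 hy.2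
      have h2 := ih r
      push_cast
      nlinarith

/-- boxes -/
structure Bx where
  tl : ℤ
  th : ℤ
  o : List (ℤ × ℤ)

/-- membership -/
def Bx.mem (Q : ℤ) (B : Bx) (t : ℝ) (x : List ℝ) : Prop :=
  (B.tl : ℝ) ≤ Q * t ∧ Q * t ≤ B.th ∧ InB Q B.o x

/-- upper bound of a row over a box -/
def Row.ub (Q : ℤ) (R : Row) (B : Bx) : ℤ :=
  R.k * Q * Q + maxq Q R.t1 R.t2 B.tl B.th + ubL Q R.o B.o

lemma Row.ub_sound (Q : ℤ) (R : Row) (B : Bx) (t : ℝ) (x : List ℝ) (h : B.mem Q t x) :
    (Q : ℝ) ^ 2 * R.val t x ≤ (R.ub Q B : ℤ) := by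
  obtain ⟨h1, h2, h3⟩ := h
  have e1 := maxq_sound Q R.t1 R.t2 B.tl B.th (Q * t) h1 h2
  have e2 := ubL_sound Q R.o B.o x h3
  unfold Row.ub Row.val
  push_cast
  nlinarith

/-- certificates -/
inductive Cert where
  | leaf (c : List (ℕ × ℕ)) : Cert
  | hi (v : ℕ) (y : ℤ) (c : List (ℕ × ℕ)) (rest : Cert) : Cert
  | lo (v : ℕ) (y : ℤ) (c : List (ℕ × ℕ)) (rest : Cert) : Cert
  | split (v : ℕ) (y : ℤ) (l r : Cert) : Cert

/-- row by index: static rows first, then dynamic ones -/
def rowAt (Q : ℤ) (S : List Row) (L : List (Row × Row)) (th : ℤ) (i : ℕ) : Row :=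
  if i < S.length then S.getD i Row.zero
  else ((L.getD (i - S.length) (Row.zero, Row.zero)).1.smul Q).add
    ((L.getD (i - S.length) (Row.zero, Row.zero)).2.smul th)

/-- combined row -/
def comb (Q : ℤ) (S : List Row) (L : List (Row × Row)) (th : ℤ) : List (ℕ × ℕ) → Row
  | [] => Row.zero
  | p :: c => ((rowAt Q S L th p.1).smul p.2).add (comb Q S L th c)

/-- set the upper bound of a variable -/
def Bx.setHi (B : Bx) (v : ℕ) (y : ℤ) : Bx :=
  match v with
  | 0 => ⟨B.tl, y, B.o⟩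
  | v + 1 => ⟨B.tl, B.th, B.o.modify v (fun p => (p.1, y))⟩

/-- set the lower bound of a variable -/
def Bx.setLo (B : Bx) (v : ℕ) (y : ℤ) : Bx :=
  match v with
  | 0 => ⟨y, B.th, B.o⟩
  | v + 1 => ⟨B.tl, B.th, B.o.modify v (fun p => (y, p.2))⟩

/-- the checker -/
def check (Q : ℤ) (S : List Row) (L : List (Row × Row)) : Bx → Cert → Bool
  | B, .leaf c => decide ((comb Q S L B.th c).ub Q B < 0)
  | B, .hi v y c rest =>
    decide ((comb Q S L B.th c).ub Q (B.setLo v y) < 0) && check Q S L (B.setHi v y) rest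
  | B, .lo v y c rest =>
    decide ((comb Q S L (B.setHi v y).th c).ub Q (B.setHi v y) < 0) && check Q S L (B.setLo v y) rest
  | B, .split v y l r => check Q S L (B.setHi v y) l && check Q S L (B.setLo v y) r

lemma modify_split_aux (Q : ℤ) (bs : List (ℤ × ℤ)) (x : List ℝ) (h : InB Q bs x) (v : ℕ) (y : ℤ) :
    InB Q (bs.modify v (fun p => (p.1, y))) x ∨ InB Q (bs.modify v (fun p => (y, p.2))) x := by
  induction h generalizing v with
  | nil => left; simp [InB]
  | @cons b z bs x hy hx ih =>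
    cases v with
    | zero =>
      simp only [List.modify_zero_cons]
      rcases le_total ((Q : ℝ) * z) y with h1 | h1
      · left; exact List.Forall₂.cons ⟨hy.1, h1⟩ hx
      · right; exact List.Forall₂.cons ⟨h1, hy.2⟩ hx
    | succ v =>
      simp only [List.modify_succ_cons]
      rcases ih v with h1 | h1
      · left; exact List.Forall₂.cons hy h1
      · right; exact List.Forall₂.cons hy h1

lemma Bx.split_mem {Q : ℤ} {B : Bx} {t : ℝ} {x : List ℝ} (h : B.mem Q t x) (v : ℕ) (y : ℤ) :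
    (B.setHi v y).mem Q t x ∨ (B.setLo v y).mem Q t x := by
  obtain ⟨h1, h2, h3⟩ := h
  cases v with
  | zero =>
    rcases le_total ((Q : ℝ) * t) y with h4 | h4
    · left; exact ⟨h1, h4, h3⟩
    · right; exact ⟨h4, h2, h3⟩
  | succ v =>
    rcases modify_split_aux Q B.o x h3 v y with h4 | h4
    · left; exact ⟨h1, h2, h4⟩
    · right; exact ⟨h1, h2, h4⟩

lemma setLo_th (B : Bx) (v : ℕ) (y : ℤ) : (B.setLo v y).th = B.th := by
  cases v <;> rfl

section
variable {Q : ℤ} {S : List Row} {L : List (Row × Row)} {t : ℝ} {x : List ℝ}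
  (hQ : 0 < Q) (hS : ∀ R ∈ S, 0 ≤ R.val t x)
  (hL : ∀ p ∈ L, ∀ s : ℝ, t ≤ s → 0 ≤ p.1.val t x + s * p.2.val t x)
include hQ hS hL

lemma rowAt_nonneg {th : ℤ} (hth : Q * t ≤ th) (i : ℕ) : 0 ≤ (rowAt Q S L th i).val t x := by
  unfold rowAt
  split_ifs with hi
  · apply hS
    rw [List.getD_eq_getElem _ _ hi]
    exact List.getElem_mem hi
  · rw [Row.val_add, Row.val_smul, Row.val_smul]
    by_cases hj : i - S.length < L.length
    · rw [List.getD_eq_getElem _ _ hj]
      have hQ' : (0 : ℝ) < Q := by exact_mod_cast hQ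
      have := hL _ (List.getElem_mem hj) (th / Q) (by rw [le_div_iff₀ hQ']; linarith)
      have h2 : 0 ≤ (Q : ℝ) * ((L[i - S.length].1).val t x + th / Q * (L[i - S.length].2).val t x) :=
        mul_nonneg hQ'.le this
      have e : (Q : ℝ) * ((L[i - S.length].1).val t x + th / Q * (L[i - S.length].2).val t x) =
          Q * (L[i - S.length].1).val t x + th * (L[i - S.length].2).val t x := by
        field_simp
      rw [e] at h2
      exact h2
    · rw [List.getD_eq_default _ _ (by omega)]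
      simp [Row.val_zero]

lemma comb_nonneg {th : ℤ} (hth : Q * t ≤ th) (c : List (ℕ × ℕ)) : 0 ≤ (comb Q S L th c).val t x := by
  induction c with
  | nil => simp [comb, Row.val_zero]
  | cons p c ih =>
    simp only [comb]
    rw [Row.val_add, Row.val_smul]
    have := rowAt_nonneg hQ hS hL hth p.1
    have h2 : (0 : ℝ) ≤ ((p.2 : ℤ) : ℝ) := by exact_mod_cast Nat.zero_le p.2
    have := mul_nonneg h2 this
    linarith

lemma not_mem_of_ub {B : Bx} {c : List (ℕ × ℕ)} {th : ℤ} (hth : B.th ≤ th)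
    (hub : (comb Q S L th c).ub Q B < 0) : ¬ B.mem Q t x := by
  intro hB
  have h1 := Row.ub_sound Q (comb Q S L th c) B t x hB
  have hth' : (B.th : ℝ) ≤ th := by exact_mod_cast hth
  have h2 := comb_nonneg hQ hS hL (th := th) (hB.2.1.trans hth') c
  have h3 : (((comb Q S L th c).ub Q B : ℤ) : ℝ) < 0 := by exact_mod_cast hub
  have h4 : 0 ≤ (Q : ℝ) ^ 2 * (comb Q S L th c).val t x := by positivity
  linarith

theorem check_sound (C : Cert) : ∀ B : Bx, check Q S L B C = true → ¬ B.mem Q t x := by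
  induction C with
  | leaf c =>
    intro B h
    simp only [check, decide_eq_true_eq] at h
    exact not_mem_of_ub hQ hS hL le_rfl h
  | hi v y c rest ih =>
    intro B h hB
    simp only [check, Bool.and_eq_true, decide_eq_true_eq] at h
    obtain ⟨h1, h2⟩ := h
    rcases Bx.split_mem hB v y with h3 | h3
    · exact ih _ h2 h3
    · exact not_mem_of_ub hQ hS hL (le_of_eq (setLo_th B v y)) h1 h3
  | lo v y c rest ih =>
    intro B h hB
    simp only [check, Bool.and_eq_true, decide_eq_true_eq] at h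
    obtain ⟨h1, h2⟩ := h
    rcases Bx.split_mem hB v y with h3 | h3
    · exact not_mem_of_ub hQ hS hL le_rfl h1 h3
    · exact ih _ h2 h3
  | split v y l r ihl ihr =>
    intro B h hB
    simp only [check, Bool.and_eq_true] at h
    rcases Bx.split_mem hB v y with h3 | h3
    · exact ihl _ h.1 h3
    · exact ihr _ h.2 h3

end

end Rein69
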