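import Pool.Agent.Rein69.Valid

set_option autoImplicit false

namespace Rein69

open Complex Finset

instance : DecidableEq Row := fun a b =>
  decidable_of_iff (a.k = b.k ∧ a.t1 = b.t1 ∧ a.t2 = b.t2 ∧ a.o = b.o) (by
    cases a; cases b; simp)

/-- names of the static rows -/
inductive Desc where
  | D : Desc
  | V : Desc
  | G : Desc
  | Z : Desc
  | C (s : ℕ) : Desc
  | N (m r p q : ℕ) : Desc

/-- gauge row for `b_0 + b_H = 0` -/
def rowG (H : ℕ) : Row := mkRow H (2 * H) 0 0 0 (fun _ => (0, 0))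
  (fun l => if l = 0 then (-SC, 0) else if l % 2 = 0 then (SC, 0) else (0, 0))

/-- gauge row for `sum b = 0` -/
def rowZ (H : ℕ) : Row := mkRow H (2 * H) 0 0 0 (fun _ => (0, 0))
  (fun l => if l = 0 then (-SC, 0) else (0, 0))

/-- the row with a given name -/
def Desc.row (H : ℕ) (Lo Hi : List ℤ) (κn κd : ℤ) : Desc → Row
  | .D => rowD H
  | .V => rowV H (cdiv (SC * (κn - 3 * κd)) (3 * κd))
  | .G => rowG H
  | .Z => rowZ H
  | .C s => rowC H Lo Hi κn κd s
  | .N m r p q => rowN H Lo Hi m r p q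

/-- side conditions of a named row; `g` tells which gauge is used -/
def Desc.ok (H : ℕ) (g : Bool) : Desc → Bool
  | .D => true
  | .V => true
  | .G => g
  | .Z => !g
  | .C s => decide (0 < s ∧ 2 * s ≤ 6 * H ∧ 6 * H % s = 0)
  | .N m r p q => decide (2 * m ≤ 6 * H ∧ 0 < r ∧ r < 2 * H ∧ 0 < p ∧ 0 < q)

section
variable {H : ℕ} [NeZero (2 * H)]

lemma rowG_val (t : ℝ) (A B : ℕ → ℝ) : (rowG H).val t (xvec H (2 * H) A B) =
    ∑ l ∈ range (2 * H), (if l = 0 then -(SC : ℝ) else if l % 2 = 0 then (SC : ℝ) else 0) * B l := by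
  unfold rowG
  rw [val_mkRow]
  simp only [Int.cast_zero, zero_mul, add_zero, Finset.sum_const_zero, zero_add]
  apply Finset.sum_congr rfl
  intro l _
  split_ifs <;> simp

lemma rowZ_val (t : ℝ) (A B : ℕ → ℝ) : (rowZ H).val t (xvec H (2 * H) A B) = -SC * B 0 := by
  unfold rowZ
  rw [val_mkRow]
  simp only [Int.cast_zero, zero_mul, add_zero, Finset.sum_const_zero, zero_add]
  rw [Finset.sum_eq_single 0]
  · simp
  · intro l _ hl; simp [hl]
  · intro h0; exact absurd (Finset.mem_range.mpr (NeZero.pos (2 * H))) h0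

lemma E_half (l : ℕ) : E (2 * H) (6 * (l : ℤ) * H) = (-1) ^ l := by
  have h1 : E (2 * H) (6 * (H : ℤ)) = -1 := by
    unfold E
    have hH : (0 : ℝ) < H := by exact_mod_cast Hpos (H := H)
    have : ((6 * (H : ℤ) : ℤ) : ℝ) * (Real.pi / (3 * ((2 * H : ℕ) : ℝ))) = Real.pi := by
      push_cast; field_simp; ring
    rw [this]
    unfold ex
    exact Complex.exp_pi_mul_I
  induction l with
  | zero => simp [E_zero]
  | succ l ih =>
    have : 6 * ((l + 1 : ℕ) : ℤ) * H = 6 * (l : ℤ) * H + 6 * H := by push_cast; ring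
    rw [this, E_add, ih, h1, pow_succ]

lemma norm_one_add (l : ℕ) : ‖1 + E (2 * H) (6 * (l : ℤ) * H)‖ = if l % 2 = 0 then 2 else 0 := by
  rw [E_half]
  split_ifs with h
  · rw [Even.neg_one_pow (Nat.even_iff.mpr h)]; norm_num
  · rw [Odd.neg_one_pow (Nat.odd_iff.mpr (by omega))]; norm_num

lemma validG {b : ZMod (2 * H) → ℂ}
    (hb : b (((0 : ℕ) : ZMod (2 * H))) + b ((H : ZMod (2 * H))) = 0) (t : ℝ) (A : ℕ → ℝ) :
    0 ≤ (rowG H).val t (xvec H (2 * H) A (Br b)) := by
  rw [rowG_val]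
  have h1 := gauge_even b hb
  have e : ∑ l ∈ univ.erase (0 : ZMod (2 * H)), Bm b l * ‖1 + E (2 * H) (6 * l.val * H)‖ =
      ∑ l ∈ range (2 * H), (if l = 0 then 0 else if l % 2 = 0 then (2 : ℝ) else 0) * Br b l := by
    have h2 : ∑ l ∈ univ.erase (0 : ZMod (2 * H)), Bm b l * ‖1 + E (2 * H) (6 * l.val * H)‖ =
        ∑ l : ZMod (2 * H), (if l.val = 0 then 0 else if l.val % 2 = 0 then (2 : ℝ) else 0) * Bm b l := by
      rw [← Finset.add_sum_erase univ _ (Finset.mem_univ (0 : ZMod (2 * H))),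
        if_pos (ZMod.val_zero), zero_mul, zero_add]
      apply Finset.sum_congr rfl
      intro l hl
      have h3 : l.val ≠ 0 := by
        rw [Ne, ZMod.val_eq_zero]; exact Finset.ne_of_mem_erase hl
      rw [if_neg h3, norm_one_add]; ring
    rw [h2, sum_zmod_range]
    apply Finset.sum_congr rfl
    intro k hk
    rw [val_cast' (Finset.mem_range.mp hk)]; rfl
  rw [e] at h1
  have hS := SCpos
  have h0 : 2 * Bm b 0 = ∑ l ∈ range (2 * H), (if l = 0 then (2 : ℝ) else 0) * Br b l := by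
    rw [Finset.sum_eq_single 0]
    · simp [Br]
    · intro l _ hl; simp [hl]
    · intro h0; exact absurd (Finset.mem_range.mpr (NeZero.pos (2 * H))) h0
  rw [h0, ← sub_nonneg, ← Finset.sum_sub_distrib] at h1
  have h4 : ∑ l ∈ range (2 * H), (if l = 0 then -(SC : ℝ) else if l % 2 = 0 then (SC : ℝ) else 0) * Br b l =
      SC / 2 * ∑ l ∈ range (2 * H), ((if l = 0 then 0 else if l % 2 = 0 then (2 : ℝ) else 0) * Br b l -
        (if l = 0 then (2 : ℝ) else 0) * Br b l) := by
    rw [Finset.mul_sum]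
    apply Finset.sum_congr rfl
    intro l _
    split_ifs <;> push_cast <;> ring
  rw [h4]
  positivity

lemma validZ {b : ZMod (2 * H) → ℂ} (hb : ∑ x, b x = 0) (t : ℝ) (A : ℕ → ℝ) :
    0 ≤ (rowZ H).val t (xvec H (2 * H) A (Br b)) := by
  rw [rowZ_val]
  have : Br b 0 = 0 := by
    unfold Br Bm
    rw [Nat.cast_zero, ft_zero, hb, mul_zero, norm_zero]
  rw [this, mul_zero]

/-- the two gauges -/
def GaugeOK (H : ℕ) [NeZero (2 * H)] (g : Bool) (b : ZMod (2 * H) → ℂ) : Prop :=
  if g then b (((0 : ℕ) : ZMod (2 * H))) + b ((H : ZMod (2 * H))) = 0 else ∑ x, b x = 0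

lemma H_ne : ((H : ℕ) : ZMod (2 * H)) ≠ (((0 : ℕ) : ℕ) : ZMod (2 * H)) := by
  intro h
  have h1 := congrArg ZMod.val h
  have hH := Hpos (H := H)
  rw [val_cast' (by omega), val_cast' (by omega)] at h1
  omega

lemma gauge_pair {g : Bool} {b : ZMod (2 * H) → ℂ} (hb : GaugeOK H g b) (x : ZMod (2 * H)) :
    ∃ y, y ≠ x ∧ (b x * (starRingEnd ℂ) (b y)).re ≤ 0 := by
  unfold GaugeOK at hb
  split_ifs at hb with hg
  · have h1 : (b x * (starRingEnd ℂ) (b (((0 : ℕ) : ZMod (2 * H))))).re +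
        (b x * (starRingEnd ℂ) (b ((H : ZMod (2 * H))))).re = 0 := by
      rw [← Complex.add_re, ← mul_add, ← map_add, hb]; simp
    by_cases hx0 : x = ((0 : ℕ) : ZMod (2 * H))
    · refine ⟨(H : ZMod (2 * H)), ?_, ?_⟩
      · rw [hx0]; exact H_ne
      · have h2 : 0 ≤ (b x * (starRingEnd ℂ) (b x)).re := by
          rw [Complex.mul_conj, Complex.ofReal_re]; exact normSq_nonneg _
        rw [← hx0] at h1
        linarith
    · by_cases hxH : x = (H : ZMod (2 * H))
      · refine ⟨((0 : ℕ) : ZMod (2 * H)), fun h => hx0 h.symm, ?_⟩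
        have h2 : 0 ≤ (b x * (starRingEnd ℂ) (b x)).re := by
          rw [Complex.mul_conj, Complex.ofReal_re]; exact normSq_nonneg _
        rw [← hxH] at h1
        linarith
      · rcases le_total (b x * (starRingEnd ℂ) (b (((0 : ℕ) : ZMod (2 * H))))).re 0 with h3 | h3
        · exact ⟨_, fun h => hx0 h.symm, h3⟩
        · exact ⟨(H : ZMod (2 * H)), fun h => hxH h.symm, by linarith⟩
  · by_contra hcon
    push Not at hcon
    have h1 : ∑ y, (b x * (starRingEnd ℂ) (b y)).re = 0 := by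
      have : ∑ y, (b x * (starRingEnd ℂ) (b y)).re = (b x * (starRingEnd ℂ) (∑ y, b y)).re := by
        rw [map_sum, Finset.mul_sum, Complex.re_sum]
      rw [this, hb]; simp
    rw [← Finset.add_sum_erase univ _ (Finset.mem_univ x)] at h1
    have h2 : 0 ≤ (b x * (starRingEnd ℂ) (b x)).re := by
      rw [Complex.mul_conj, Complex.ofReal_re]; exact normSq_nonneg _
    have h3 : 0 < ∑ y ∈ univ.erase x, (b x * (starRingEnd ℂ) (b y)).re := by
      apply Finset.sum_pos
      · intro y hy; exact hcon y (Finset.ne_of_mem_erase hy)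
      · refine ⟨x + 1, ?_⟩
        rw [Finset.mem_erase]
        refine ⟨?_, Finset.mem_univ _⟩
        intro h
        have h4 : (1 : ZMod (2 * H)) = 0 := by
          have := congrArg (fun z => z - x) h
          simpa using this
        have h5 := congrArg ZMod.val h4
        have hH := Hpos (H := H)
        have h6 : ((1 : ℕ) : ZMod (2 * H)).val = 1 := val_cast' (by omega)
        rw [Nat.cast_one] at h6
        rw [h6, ZMod.val_zero] at h5
        omega
    linarith

variable {Lo Hi : List ℤ} (htab : TabOK (2 * H) Lo Hi)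
  {ρ : ZMod (2 * H) → ℝ} {b : ZMod (2 * H) → ℂ} {V : ℝ} (h : Cfg (2 * H) ρ b V)
include htab h

lemma Desc.valid {g : Bool} (hb : GaugeOK H g b) {κn κd : ℤ} (hκd : 0 < κd) (hκn : 0 ≤ κn)
    (hV : V ≤ κn / κd * (Real.sqrt 3 / 2)) (hρ : ∀ x, ρ x ≤ (κn / κd : ℝ) / 3)
    (hLo : ∀ u, 0 ≤ Lo.getD u 0) (d : Desc) (hd : d.ok H g = true) :
    0 ≤ (d.row H Lo Hi κn κd).val (Am ρ 0 - 1) (xvec H (2 * H) (Ar ρ) (Br b)) := by
  cases d with
  | D => exact validD h
  | V =>
    have hκd' : (0 : ℝ) < κd := by exact_mod_cast hκd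
    apply validV (τ := (κn / κd : ℝ) / 3 - 1) h
    · refine le_trans (le_of_eq ?_) (cdiv_ge (by linarith))
      push_cast
      field_simp
    · intro x; have := hρ x; linarith
  | G =>
    simp only [Desc.ok] at hd
    subst hd
    exact validG (by simpa [GaugeOK] using hb) _ _
  | Z =>
    simp only [Desc.ok, Bool.not_eq_true'] at hd
    subst hd
    exact validZ (by simpa [GaugeOK] using hb) _ _
  | C s =>
    simp only [Desc.ok, decide_eq_true_eq] at hd
    exact validC htab h hκd hκn hV hd.1 hd.2.1 (Nat.dvd_of_mod_eq_zero hd.2.2)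
  | N m r p q =>
    simp only [Desc.ok, decide_eq_true_eq] at hd
    exact validN htab h hLo m r p q hd.1 hd.2.1 hd.2.2.1 hd.2.2.2.1 hd.2.2.2.2

end

end Rein69
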