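import Pool.Agent.Rein69.Area

set_option autoImplicit false

namespace Rein69

open Complex Finset MeasureTheory Topology

/-- coordinates -/
def xy (z : ℂ) : ℝ × ℝ := (z.re, z.im)

lemma xy_add (z w : ℂ) : xy (z + w) = xy z + xy w := by simp [xy]
lemma xy_smul (r : ℝ) (z : ℂ) : xy (r * z) = r • xy z := by simp [xy]
lemma xy_neg (z : ℂ) : xy (-z) = - xy z := by simp [xy]
lemma xy_cont : Continuous xy := by unfold xy; fun_prop
lemma xy_eq_zero {z : ℂ} (h : xy z = 0) : z = 0 := by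
  apply Complex.ext
  · exact congrArg Prod.fst h
  · exact congrArg Prod.snd h

/-- strict triangle inequality for the euclidean norm -/
lemma norm_add_lt {z w : ℂ} (h : cr z w ≠ 0) : ‖z + w‖ < ‖z‖ + ‖w‖ := by
  have h0 : 0 ≤ ‖z‖ + ‖w‖ := by positivity
  apply lt_of_pow_lt_pow_left₀ 2 h0
  have e1 : ‖z + w‖ ^ 2 = (z.re + w.re) ^ 2 + (z.im + w.im) ^ 2 := by
    rw [← Complex.normSq_eq_norm_sq, normSq_apply]; simp; ring
  have e2 : ‖z‖ ^ 2 = z.re ^ 2 + z.im ^ 2 := by
    rw [← Complex.normSq_eq_norm_sq, normSq_apply]; ring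
  have e3 : ‖w‖ ^ 2 = w.re ^ 2 + w.im ^ 2 := by
    rw [← Complex.normSq_eq_norm_sq, normSq_apply]; ring
  have h1 : z.re * w.re + z.im * w.im < ‖z‖ * ‖w‖ := by
    have h2 : (z.re * w.re + z.im * w.im) ^ 2 < (‖z‖ * ‖w‖) ^ 2 := by
      rw [mul_pow, e2, e3]
      have : 0 < (cr z w) ^ 2 := by positivity
      unfold cr at this
      nlinarith
    exact lt_of_pow_lt_pow_left₀ 2 (by positivity) h2
  rw [e1]
  nlinarith

section
variable {K : Set (ℝ × ℝ)} (hK : IsCompact K) (hconv : Convex ℝ K) (hint : (interior K).Nonempty)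
  (hsym : ∀ x ∈ K, -x ∈ K)
include hK hconv hint hsym

omit hK in
lemma zero_mem_interior : (0 : ℝ × ℝ) ∈ interior K := by
  obtain ⟨x, hx⟩ := hint
  have hneg : -x ∈ interior K := by
    obtain ⟨t, ht, hto, hxt⟩ := mem_interior.mp hx
    refine mem_interior.mpr ⟨(fun y => -y) ⁻¹' t, ?_, hto.preimage continuous_neg, by simpa using hxt⟩
    intro y hy
    have := hsym _ (ht hy)
    simpa using this
  have := hconv.interior hx hneg (show (0 : ℝ) ≤ 1 / 2 by norm_num)
    (show (0 : ℝ) ≤ 1 / 2 by norm_num) (by norm_num)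
  simpa using this

/-- regularised norm -/
noncomputable def Ne (K : Set (ℝ × ℝ)) (ε : ℝ) (z : ℂ) : ℝ :=
  ‖(⟨gauge K (xy z), ε * ‖z‖⟩ : ℂ)‖

omit hK hconv hint hsym in
lemma norm_mk_mono {a b c d : ℝ} (ha : 0 ≤ a) (hb : 0 ≤ b) (hac : a ≤ c) (hbd : b ≤ d) :
    ‖(⟨a, b⟩ : ℂ)‖ ≤ ‖(⟨c, d⟩ : ℂ)‖ := by
  have hc : 0 ≤ c := ha.trans hac
  apply le_of_sq_le_sq _ (norm_nonneg _)
  rw [← Complex.normSq_eq_norm_sq, ← Complex.normSq_eq_norm_sq, normSq_apply, normSq_apply]
  simp only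
  nlinarith

omit hK hconv hint hsym in
lemma norm_mk_mono_lt {a b c d : ℝ} (ha : 0 ≤ a) (hb : 0 ≤ b) (hac : a ≤ c) (hbd : b < d) :
    ‖(⟨a, b⟩ : ℂ)‖ < ‖(⟨c, d⟩ : ℂ)‖ := by
  have hc : 0 ≤ c := ha.trans hac
  apply lt_of_pow_lt_pow_left₀ 2 (norm_nonneg _)
  rw [← Complex.normSq_eq_norm_sq, ← Complex.normSq_eq_norm_sq, normSq_apply, normSq_apply]
  simp only
  nlinarith

omit hK in
lemma isSN_Ne {ε : ℝ} (hε : 0 < ε) : IsSN (Ne K ε) := by
  have h0 := zero_mem_interior hconv hint hsym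
  have hnhds : K ∈ 𝓝 (0 : ℝ × ℝ) := mem_interior_iff_mem_nhds.mp h0
  have habs : Absorbent ℝ K := absorbent_nhds_zero hnhds
  have hgc : Continuous (gauge K) := continuous_gauge hconv hnhds
  have hadd : ∀ z w : ℂ, gauge K (xy (z + w)) ≤ gauge K (xy z) + gauge K (xy w) := by
    intro z w
    rw [xy_add]
    exact gauge_add_le hconv habs _ _
  have hsplit : ∀ z w : ℂ, ‖(⟨gauge K (xy z) + gauge K (xy w), ε * (‖z‖ + ‖w‖)⟩ : ℂ)‖ ≤
      Ne K ε z + Ne K ε w := by
    intro z w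
    have e : (⟨gauge K (xy z) + gauge K (xy w), ε * (‖z‖ + ‖w‖)⟩ : ℂ) =
        ⟨gauge K (xy z), ε * ‖z‖⟩ + ⟨gauge K (xy w), ε * ‖w‖⟩ := by
      apply Complex.ext
      · simp
      · simp; ring
    rw [e]
    exact norm_add_le _ _
  refine ⟨?_, ?_, ?_, ?_, ?_⟩
  · unfold Ne
    apply Continuous.norm
    have h1 : Continuous fun z : ℂ => gauge K (xy z) := hgc.comp xy_cont
    have e : (fun z : ℂ => (⟨gauge K (xy z), ε * ‖z‖⟩ : ℂ)) =
        fun z : ℂ => ((gauge K (xy z) : ℝ) : ℂ) + ((ε * ‖z‖ : ℝ) : ℂ) * I := by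
      funext z
      apply Complex.ext <;> simp
    rw [e]
    fun_prop
  · intro z hz
    unfold Ne
    rw [norm_pos_iff]
    intro h
    have := congrArg Complex.im h
    simp only [Complex.zero_im] at this
    have h2 : 0 < ε * ‖z‖ := mul_pos hε (norm_pos_iff.mpr hz)
    linarith
  · intro r z
    unfold Ne
    have e1 : gauge K (xy (r * z)) = |r| * gauge K (xy z) := by
      rw [xy_smul]
      rcases le_total 0 r with hr | hr
      · rw [gauge_smul_of_nonneg hr, abs_of_nonneg hr, smul_eq_mul]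
      · have : r • xy z = -((-r) • xy z) := by simp
        rw [this, gauge_neg hsym, gauge_smul_of_nonneg (by linarith), abs_of_nonpos hr, smul_eq_mul]
    have e2 : (⟨gauge K (xy (r * z)), ε * ‖(r : ℂ) * z‖⟩ : ℂ) =
        ((|r| : ℝ) : ℂ) * ⟨gauge K (xy z), ε * ‖z‖⟩ := by
      rw [e1, norm_mul, Complex.norm_real, Real.norm_eq_abs]
      apply Complex.ext
      · simp
      · simp; ring
    rw [e2, norm_mul, Complex.norm_real, Real.norm_eq_abs, abs_abs]
  · intro z w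
    refine le_trans ?_ (hsplit z w)
    unfold Ne
    exact norm_mk_mono (gauge_nonneg _) (by positivity) (hadd z w)
      (mul_le_mul_of_nonneg_left (norm_add_le _ _) hε.le)
  · intro z w hzw
    refine lt_of_lt_of_le ?_ (hsplit z w)
    unfold Ne
    exact norm_mk_mono_lt (gauge_nonneg _) (by positivity) (hadd z w)
      (mul_lt_mul_of_pos_left (norm_add_lt hzw) hε)

/-- Final reduction. -/
theorem bound_of_good {κ : ℝ} (hκ : 0 < κ)
    (hgood : ∀ (N : ℂ → ℝ) (V : ℝ), IsSN N → AreaBd N V → Good κ N V) :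
    κ * sInf {d : ℝ | ∃ a b : ℝ × ℝ, d = abs (a.1 * b.2 - a.2 * b.1) ∧ d ≠ 0 ∧
      ∀ m n : ℤ, (m ≠ 0 ∨ n ≠ 0) → (m : ℝ) • a + (n : ℝ) • b ∉ interior K} ≤
    (volume K).toReal := by
  have h0 := zero_mem_interior hconv hint hsym
  have hnhds : K ∈ 𝓝 (0 : ℝ × ℝ) := mem_interior_iff_mem_nhds.mp h0
  set V := (volume K).toReal with hV
  set D := sInf {d : ℝ | ∃ a b : ℝ × ℝ, d = abs (a.1 * b.2 - a.2 * b.1) ∧ d ≠ 0 ∧
      ∀ m n : ℤ, (m ≠ 0 ∨ n ≠ 0) → (m : ℝ) • a + (n : ℝ) • b ∉ interior K} with hD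
  have hfin : volume K ≠ ⊤ := hK.measure_lt_top.ne
  -- bound of K
  obtain ⟨R, hR⟩ := hK.exists_bound_of_continuousOn (f := fun x : ℝ × ℝ => (⟨x.1, x.2⟩ : ℂ)) (by
    have : Continuous fun x : ℝ × ℝ => (⟨x.1, x.2⟩ : ℂ) := by
      have e : (fun x : ℝ × ℝ => (⟨x.1, x.2⟩ : ℂ)) = fun x => (x.1 : ℂ) + (x.2 : ℂ) * I := by
        funext x; apply Complex.ext <;> simp
      rw [e]; fun_prop
    exact this.continuousOn)
  have hR' : ∀ z : ℂ, xy z ∈ K → ‖z‖ ≤ R := by
    intro z hz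
    have := hR (xy z) hz
    simpa [xy] using this
  -- key estimate
  have key : ∀ δ : ℝ, 0 < δ → κ * D ≤ (1 + δ) ^ 2 * V := by
    intro δ hδ
    set η : ℝ := 1 - 1 / (1 + δ) ^ 2 with hη
    have hη0 : 0 < η := by
      rw [hη, sub_pos, div_lt_one (by positivity)]
      nlinarith
    obtain ⟨ε, hε, hεR⟩ : ∃ ε : ℝ, 0 < ε ∧ ε ^ 2 * R ^ 2 ≤ η := by
      refine ⟨Real.sqrt (η / (R ^ 2 + 1)), Real.sqrt_pos.mpr (by positivity), ?_⟩
      rw [Real.sq_sqrt (by positivity), div_mul_eq_mul_div, div_le_iff₀ (by positivity)]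
      nlinarith
    have hN := isSN_Ne hconv hint hsym hε
    have hNV : AreaBd (Ne K ε) V := by
      have h1 := Complex.volume_preserving_equiv_real_prod
      have h2 : volume (Complex.measurableEquivRealProd ⁻¹' K) = volume K :=
        h1.measure_preimage_equiv K
      rw [hV, ← h2]
      apply areaBd_of_measure hN
      · intro z hz
        have hg : gauge K (xy z) < 1 := by
          have : gauge K (xy z) ≤ Ne K ε z := by
            unfold Ne
            have := Complex.re_le_norm (⟨gauge K (xy z), ε * ‖z‖⟩ : ℂ)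
            exact this
          linarith
        have h5 := (gauge_lt_one_iff_mem_interior hconv hnhds).mp hg
        have h6 : xy z ∈ K := interior_subset h5
        exact h6
      · rw [h2]; exact hfin
    obtain ⟨p, q, hp, hq, hpq, hcr, hle⟩ := hgood _ _ hN hNV
    have hδ1 : (0 : ℝ) < 1 + δ := by linarith
    have hmem : (1 + δ) ^ 2 * cr p q ∈ {d : ℝ | ∃ a b : ℝ × ℝ,
        d = abs (a.1 * b.2 - a.2 * b.1) ∧ d ≠ 0 ∧
        ∀ m n : ℤ, (m ≠ 0 ∨ n ≠ 0) → (m : ℝ) • a + (n : ℝ) • b ∉ interior K} := by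
      refine ⟨(1 + δ) • xy p, (1 + δ) • xy q, ?_, by positivity, ?_⟩
      · have : ((1 + δ) • xy p).1 * ((1 + δ) • xy q).2 - ((1 + δ) • xy p).2 * ((1 + δ) • xy q).1 =
            (1 + δ) ^ 2 * cr p q := by
          simp [xy, cr]; ring
        rw [this, abs_of_pos (by positivity)]
      · intro m n hmn hin
        have h1 := hN.hex_int hp hq hpq m n hmn
        set v : ℂ := m * p + n * q with hv
        have e1 : (m : ℝ) • ((1 + δ) • xy p) + (n : ℝ) • ((1 + δ) • xy q) = (1 + δ) • xy v := by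
          rw [hv, xy_add]
          have e2 : xy ((m : ℂ) * p) = (m : ℝ) • xy p := by
            rw [← xy_smul]; push_cast; rfl
          have e3 : xy ((n : ℂ) * q) = (n : ℝ) • xy q := by
            rw [← xy_smul]; push_cast; rfl
          rw [e2, e3, smul_add, smul_comm (1 + δ) (m : ℝ), smul_comm (1 + δ) (n : ℝ)]
        rw [e1] at hin
        have hg := (gauge_lt_one_iff_mem_interior hconv hnhds).mpr hin
        rw [gauge_smul_of_nonneg hδ1.le, smul_eq_mul] at hg
        have hin2 : xy (((1 + δ : ℝ) : ℂ) * v) ∈ K := by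
          rw [xy_smul]; exact interior_subset hin
        have hn := hR' _ hin2
        rw [norm_mul, Complex.norm_real, Real.norm_of_nonneg hδ1.le] at hn
        have hv1 : ‖v‖ ≤ R := by
          have := norm_nonneg v
          nlinarith
        have hg0 : 0 ≤ gauge K (xy v) := gauge_nonneg _
        have hg2 : gauge K (xy v) ^ 2 < 1 / (1 + δ) ^ 2 := by
          rw [lt_div_iff₀ (by positivity)]
          have : 0 ≤ (1 + δ) * gauge K (xy v) := by positivity
          nlinarith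
        have hNe : Ne K ε v ^ 2 = gauge K (xy v) ^ 2 + ε ^ 2 * ‖v‖ ^ 2 := by
          unfold Ne
          rw [← Complex.normSq_eq_norm_sq, normSq_apply]; simp only; ring
        have hv2 : ε ^ 2 * ‖v‖ ^ 2 ≤ ε ^ 2 * R ^ 2 := by
          apply mul_le_mul_of_nonneg_left _ (by positivity)
          exact pow_le_pow_left₀ (norm_nonneg _) hv1 2
        have : Ne K ε v ^ 2 < 1 := by
          rw [hNe]; linarith
        nlinarith
    have hDle : D ≤ (1 + δ) ^ 2 * cr p q := by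
      apply csInf_le _ hmem
      refine ⟨0, ?_⟩
      rintro d ⟨a, b, rfl, _⟩
      exact abs_nonneg _
    calc κ * D ≤ κ * ((1 + δ) ^ 2 * cr p q) := mul_le_mul_of_nonneg_left hDle hκ.le
      _ = (1 + δ) ^ 2 * (κ * cr p q) := by ring
      _ ≤ (1 + δ) ^ 2 * V := mul_le_mul_of_nonneg_left hle (by positivity)
  have hlim : Filter.Tendsto (fun δ : ℝ => (1 + δ) ^ 2 * V) (𝓝[>] 0) (𝓝 V) := by
    have h1 : Continuous fun δ : ℝ => (1 + δ) ^ 2 * V := by fun_prop
    have h2 := (h1.tendsto 0).mono_left (nhdsWithin_le_nhds (s := Set.Ioi 0))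
    simpa using h2
  apply ge_of_tendsto hlim
  filter_upwards [self_mem_nhdsWithin] with δ hδ
  exact key δ hδ

end

end Rein69
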