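import Pool.Agent.Rein69.Seq

set_option autoImplicit false

namespace Rein69

open Complex Finset

section
variable (n : ℕ)

/-- `E n j = exp(i j π/(3n))` -/
noncomputable def E (j : ℤ) : ℂ := ex (j * (Real.pi / (3 * n)))

lemma E_add (i j : ℤ) : E n (i + j) = E n i * E n j := by
  unfold E; rw [← ex_add]; congr 1; push_cast; ring

lemma E_zero : E n 0 = 1 := by unfold E; simp [ex_zero]

lemma conj_E (j : ℤ) : (starRingEnd ℂ) (E n j) = E n (-j) := by
  unfold E; rw [conj_ex]; congr 1; push_cast; ring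

lemma E_mul_neg (j : ℤ) : E n j * E n (-j) = 1 := by
  rw [← E_add]; simp [E_zero]

lemma norm_E (j : ℤ) : ‖E n j‖ = 1 := norm_ex _

lemma E_im (j : ℤ) : (E n j).im = Real.sin (j * (Real.pi / (3 * n))) := ex_im _
lemma E_re (j : ℤ) : (E n j).re = Real.cos (j * (Real.pi / (3 * n))) := ex_re _

end

section
variable {n : ℕ} [NeZero n]

lemma n_ne : (n : ℝ) ≠ 0 := by exact_mod_cast (NeZero.ne n)
lemma nC_ne : (n : ℂ) ≠ 0 := by exact_mod_cast (NeZero.ne n)
lemma n_posR : (0 : ℝ) < n := by exact_mod_cast (NeZero.pos n)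

lemma E_n : E n (n : ℤ) = om := by
  unfold E; rw [om_eq_exp]; unfold ex; congr 2
  have := nC_ne (n := n)
  push_cast; field_simp

lemma E_2n : E n (2 * (n : ℤ)) = om * om := by
  have : (2 * (n : ℤ)) = n + n := by ring
  rw [this, E_add, E_n]

/-- the character -/
noncomputable def chi (x : ZMod n) : ℂ := ZMod.stdAddChar x

lemma chi_add (x y : ZMod n) : chi (x + y) = chi x * chi y := AddChar.map_add_eq_mul _ _ _

lemma chi_zero : chi (0 : ZMod n) = 1 := AddChar.map_zero_eq_one _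

lemma chi_int (j : ℤ) : chi ((j : ZMod n)) = E n (6 * j) := by
  unfold chi E ex
  rw [ZMod.stdAddChar_coe]
  congr 1
  have := nC_ne (n := n)
  push_cast
  field_simp
  ring

lemma chi_nat (j : ℕ) : chi ((j : ZMod n)) = E n (6 * j) := by
  have := chi_int (n := n) (j : ℤ)
  simpa using this

lemma norm_chi (x : ZMod n) : ‖chi x‖ = 1 := by
  have : x = ((x.val : ℤ) : ZMod n) := by simp
  rw [this, chi_int, norm_E]

lemma conj_chi (x : ZMod n) : (starRingEnd ℂ) (chi x) = chi (-x) := by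
  have h : x = ((x.val : ℤ) : ZMod n) := by simp
  have h2 : -x = ((-(x.val : ℤ) : ℤ) : ZMod n) := by simp
  rw [h2, chi_int]
  conv_lhs => rw [h, chi_int, conj_E]
  congr 1; ring

lemma chi_mul_neg (x : ZMod n) : chi x * chi (-x) = 1 := by
  rw [← chi_add]; simp [chi_zero]

lemma sum_chi (b : ZMod n) : ∑ x : ZMod n, chi (x * b) = if b = 0 then (n : ℂ) else 0 := by
  have := AddChar.sum_mulShift (R := ZMod n) (R' := ℂ) (ψ := ZMod.stdAddChar) b
    (ZMod.isPrimitive_stdAddChar n)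
  rw [ZMod.card] at this
  unfold chi
  rw [this]
  split_ifs <;> simp

/-- finite Fourier transform (normalised) -/
noncomputable def ft (F : ZMod n → ℂ) (l : ZMod n) : ℂ := (1 / (n : ℂ)) * ∑ k, F k * chi (-(k * l))

lemma ft_inv (F : ZMod n → ℂ) (k : ZMod n) : F k = ∑ l, ft F l * chi (k * l) := by
  unfold ft
  have e1 : ∀ l : ZMod n, (1 / (n : ℂ) * ∑ j, F j * chi (-(j * l))) * chi (k * l) =
      1 / (n : ℂ) * ∑ j, F j * chi (l * (k - j)) := by
    intro l
    rw [mul_assoc, Finset.sum_mul]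
    congr 1
    apply Finset.sum_congr rfl
    intro j _
    rw [mul_assoc, ← chi_add]
    congr 2; ring
  rw [Finset.sum_congr rfl (fun l _ => e1 l), ← Finset.mul_sum, Finset.sum_comm]
  have e2 : ∀ j : ZMod n, ∑ l, F j * chi (l * (k - j)) = if k = j then F j * n else 0 := by
    intro j
    rw [← Finset.mul_sum, sum_chi]
    by_cases h : k = j
    · simp [h]
    · simp [h, sub_eq_zero]
  rw [Finset.sum_congr rfl (fun j _ => e2 j)]
  simp
  have := nC_ne (n := n)
  field_simp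

/-- bilinear Parseval -/
lemma ft_bilin (F G : ZMod n → ℂ) (α γ r : ZMod n) :
    ∑ k, F (k + α) * G (k + γ) * chi (r * k) =
      n * ∑ l, ft G l * ft F (-r - l) * chi ((-r - l) * α + l * γ) := by
  have hn := nC_ne (n := n)
  have e1 : ∀ k : ZMod n, F (k + α) * G (k + γ) * chi (r * k) =
      ∑ l, ft G l * (F (k + α) * chi ((k + γ) * l) * chi (r * k)) := by
    intro k
    rw [ft_inv G (k + γ), Finset.mul_sum, Finset.sum_mul]
    apply Finset.sum_congr rfl
    intro l _; ring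
  rw [Finset.sum_congr rfl (fun k _ => e1 k), Finset.sum_comm, Finset.mul_sum]
  apply Finset.sum_congr rfl
  intro l _
  rw [← Finset.mul_sum]
  have e2 : ∑ k, F (k + α) * chi ((k + γ) * l) * chi (r * k) =
      n * (ft F (-r - l) * chi ((-r - l) * α + l * γ)) := by
    unfold ft
    rw [← Equiv.sum_comp (Equiv.addRight (-α))]
    simp only [Equiv.coe_addRight]
    rw [mul_assoc (1 / (n : ℂ)), Finset.sum_mul, ← mul_assoc, mul_one_div_cancel hn, one_mul]
    apply Finset.sum_congr rfl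
    intro k _
    rw [mul_assoc, mul_assoc, ← chi_add, ← chi_add]
    congr 2
    · ring
    · ring
  rw [e2]; ring

/-- Parseval with shift -/
lemma ft_parseval (F : ZMod n → ℂ) (α γ : ZMod n) :
    ∑ k, (starRingEnd ℂ) (F (k + α)) * F (k + γ) =
      n * ∑ l, ((normSq (ft F l) : ℝ) : ℂ) * chi (l * (γ - α)) := by
  have h := ft_bilin (fun k => (starRingEnd ℂ) (F k)) F α γ 0
  simp only [zero_mul, chi_zero, mul_one, neg_zero, zero_sub] at h
  rw [h]
  congr 1
  apply Finset.sum_congr rfl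
  intro l _
  have e : ft (fun k => (starRingEnd ℂ) (F k)) (-l) = (starRingEnd ℂ) (ft F l) := by
    unfold ft
    simp only [map_mul, map_sum, conj_chi, map_div₀, map_one, Complex.conj_natCast]
    congr 1
    apply Finset.sum_congr rfl
    intro k _
    congr 2; ring
  rw [e, Complex.mul_conj]
  congr 2; ring

lemma sum_range_zmod (g : ZMod n → ℂ) : ∑ k ∈ range n, g (k : ZMod n) = ∑ x, g x := by
  apply Finset.sum_nbij' (fun k : ℕ => (k : ZMod n)) (fun x : ZMod n => x.val)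
  · intro k _; exact Finset.mem_univ _
  · intro x _; simp [ZMod.val_lt]
  · intro k hk; simp only [Finset.mem_range] at hk; exact ZMod.val_cast_of_lt hk
  · intro x _; simp
  · intro k _; rfl

omit [NeZero n] in
lemma sum_three (f : ℕ → ℂ) :
    ∑ k ∈ range (3 * n), f k = ∑ k ∈ range n, (f k + f (k + n) + f (k + 2 * n)) := by
  have e : 3 * n = n + n + n := by ring
  rw [e, Finset.sum_range_add, Finset.sum_range_add, Finset.sum_add_distrib,
    Finset.sum_add_distrib]
  congr 1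
  · congr 1
    apply Finset.sum_congr rfl
    intro k _; rw [add_comm]
  · apply Finset.sum_congr rfl
    intro k _; congr 1; ring

/-- points of the configuration -/
noncomputable def W (ρ : ZMod n → ℝ) (b : ZMod n → ℂ) (k : ℕ) : ℂ :=
  (ρ k : ℂ) * E n k + b k * E n (-k)

lemma cr_complex (u v : ℂ) : ((cr u v : ℝ) : ℂ) * (2 * I) =
    (starRingEnd ℂ) u * v - u * (starRingEnd ℂ) v := by
  apply Complex.ext
  · simp [cr]
  · simp [cr]; ring

lemma om_pow3 : om ^ 3 = -1 := by linear_combination (om + 1) * om_sq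
lemma om_pow2 : om ^ 2 = om - 1 := by linear_combination om_sq
lemma om_pow4 : om ^ 4 = -om := by linear_combination om * om_pow3
lemma om_pow5 : om ^ 5 = 1 - om := by linear_combination om ^ 2 * om_pow3 - om_pow2
lemma om_pow6 : om ^ 6 = 1 := by linear_combination (om ^ 3 - 1) * om_pow3

omit [NeZero n] in
lemma hex_twist (p q p' q' : ℂ) :
    (((cr (p + q) (p' + q') : ℝ) : ℂ) +
    ((cr (om * p + ob * q) (om * p' + ob * q') : ℝ) : ℂ) * (om * om) +
    ((cr (om * (om * p) + ob * (ob * q)) (om * (om * p') + ob * (ob * q')) : ℝ) : ℂ) *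
      (om * om * (om * om))) * (2 * I) =
    3 * ((starRingEnd ℂ) p * q' - q * (starRingEnd ℂ) p') := by
  have e1 := cr_complex (p + q) (p' + q')
  have e2 := cr_complex (om * p + ob * q) (om * p' + ob * q')
  have e3 := cr_complex (om * (om * p) + ob * (ob * q)) (om * (om * p') + ob * (ob * q'))
  rw [add_mul, add_mul, mul_right_comm _ (om * om) (2 * I),
    mul_right_comm _ (om * om * (om * om)) (2 * I), e1, e2, e3]
  simp only [map_add, map_mul, conj_om, conj_ob]
  rw [ob_eq]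
  ring_nf
  rw [show om ^ 8 = om ^ 6 * om ^ 2 by ring, show om ^ 7 = om ^ 6 * om by ring, om_pow6, om_pow5,
    om_pow4, om_pow3, om_pow2]
  ring

omit [NeZero n] in
lemma hex_plain (p q p' q' : ℂ) :
    cr (p + q) (p' + q') + cr (om * p + ob * q) (om * p' + ob * q') +
    cr (om * (om * p) + ob * (ob * q)) (om * (om * p') + ob * (ob * q')) =
    3 * ((starRingEnd ℂ) p * p' + (starRingEnd ℂ) q * q').im := by
  have e1 := cr_complex (p + q) (p' + q')
  have e2 := cr_complex (om * p + ob * q) (om * p' + ob * q')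
  have e3 := cr_complex (om * (om * p) + ob * (ob * q)) (om * (om * p') + ob * (ob * q'))
  have e4 : (((starRingEnd ℂ) p * p' + (starRingEnd ℂ) q * q').im : ℂ) * (2 * I) =
      ((starRingEnd ℂ) p * p' + (starRingEnd ℂ) q * q') -
      (starRingEnd ℂ) ((starRingEnd ℂ) p * p' + (starRingEnd ℂ) q * q') := by
    apply Complex.ext <;> simp <;> ring
  have hI : (2 * I : ℂ) ≠ 0 := by simp
  have : ((cr (p + q) (p' + q') + cr (om * p + ob * q) (om * p' + ob * q') +
    cr (om * (om * p) + ob * (ob * q)) (om * (om * p') + ob * (ob * q')) : ℝ) : ℂ) =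
    ((3 * ((starRingEnd ℂ) p * p' + (starRingEnd ℂ) q * q').im : ℝ) : ℂ) := by
    apply mul_right_cancel₀ hI
    push_cast
    rw [add_mul, add_mul, e1, e2, e3, mul_assoc, e4]
    simp only [map_add, map_mul, conj_om, conj_ob, Complex.conj_conj]
    rw [ob_eq]
    ring_nf
    rw [om_pow4, om_pow3, om_pow2]
    ring
  exact_mod_cast this

lemma E_six_n (j : ℤ) : E n (6 * n * j) = 1 := by
  have := chi_int (n := n) (n * j)
  rw [← mul_assoc] at this
  rw [← this]
  simp [chi_zero]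

lemma E_neg_n : E n (-(n : ℤ)) = ob := by
  rw [← conj_E, E_n, conj_om]

lemma W_next (ρ : ZMod n → ℝ) (b : ZMod n → ℂ) (k : ℕ) :
    W ρ b (k + n) = om * (ρ k * E n k) + ob * (b k * E n (-k)) := by
  unfold W
  have e1 : ((k + n : ℕ) : ZMod n) = k := by simp
  have e2 : ((k + n : ℕ) : ℤ) = k + n := by push_cast; ring
  have e3 : -((k + n : ℕ) : ℤ) = -k + -n := by push_cast; ring
  rw [e1, e3, e2, E_add, E_add, E_n, E_neg_n]
  ring

lemma W_next2 (ρ : ZMod n → ℝ) (b : ZMod n → ℂ) (k : ℕ) :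
    W ρ b (k + 2 * n) = om * (om * (ρ k * E n k)) + ob * (ob * (b k * E n (-k))) := by
  have e0 : k + 2 * n = (k + n) + n := by ring
  rw [e0, W_next]
  have e1 : ((k + n : ℕ) : ZMod n) = k := by simp
  have e2 : ((k + n : ℕ) : ℤ) = k + n := by push_cast; ring
  have e3 : -((k + n : ℕ) : ℤ) = -k + -n := by push_cast; ring
  rw [e1, e3, e2, E_add, E_add, E_n, E_neg_n]
  ring

/-- The block identity for the twisted sum. -/
lemma block1 (ρ : ZMod n → ℝ) (b : ZMod n → ℂ) (α γ k : ℕ) (r : ℤ) :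
    ((cr (W ρ b (k + α)) (W ρ b (k + γ)) : ℝ) : ℂ) * E n ((6 * r + 2) * (k : ℕ)) +
    ((cr (W ρ b (k + n + α)) (W ρ b (k + n + γ)) : ℝ) : ℂ) * E n ((6 * r + 2) * (k + n : ℕ)) +
    ((cr (W ρ b (k + 2 * n + α)) (W ρ b (k + 2 * n + γ)) : ℝ) : ℂ) *
      E n ((6 * r + 2) * (k + 2 * n : ℕ)) =
    3 / (2 * I) * (E n (-α - γ) * (chi ((r : ZMod n) * (k : ZMod n)) *
      ((ρ ((k + α : ℕ) : ZMod n) : ℂ) * b ((k + γ : ℕ) : ZMod n) -
        b ((k + α : ℕ) : ZMod n) * ρ ((k + γ : ℕ) : ZMod n)))) := by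
  have hI : (2 * I : ℂ) ≠ 0 := by simp
  have key : ∀ x y : ℂ, x * (2 * I) = 3 * y → x = 3 / (2 * I) * y := by
    intro x y h
    rw [div_mul_eq_mul_div, eq_div_iff hI, h]
  apply key
  have a1 : k + n + α = (k + α) + n := by ring
  have a2 : k + n + γ = (k + γ) + n := by ring
  have a3 : k + 2 * n + α = (k + α) + 2 * n := by ring
  have a4 : k + 2 * n + γ = (k + γ) + 2 * n := by ring
  rw [a1, a2, a3, a4, W_next, W_next, W_next2, W_next2]
  have f1 : E n ((6 * r + 2) * (k + n : ℕ)) = E n ((6 * r + 2) * (k : ℕ)) * (om * om) := by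
    have : (6 * r + 2) * ((k + n : ℕ) : ℤ) = (6 * r + 2) * (k : ℕ) + 6 * n * r + 2 * n := by
      push_cast; ring
    rw [this, E_add, E_add, E_six_n, E_2n]; ring
  have f2 : E n ((6 * r + 2) * (k + 2 * n : ℕ)) =
      E n ((6 * r + 2) * (k : ℕ)) * (om * om * (om * om)) := by
    have : (6 * r + 2) * ((k + 2 * n : ℕ) : ℤ) = (6 * r + 2) * (k : ℕ) + 6 * n * (2 * r) +
        2 * n + 2 * n := by
      push_cast; ring
    rw [this, E_add, E_add, E_add, E_six_n, E_2n]; ring
  have h := hex_twist (ρ ((k + α : ℕ) : ZMod n) * E n ((k + α : ℕ) : ℤ))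
    (b ((k + α : ℕ) : ZMod n) * E n (-((k + α : ℕ) : ℤ)))
    (ρ ((k + γ : ℕ) : ZMod n) * E n ((k + γ : ℕ) : ℤ))
    (b ((k + γ : ℕ) : ZMod n) * E n (-((k + γ : ℕ) : ℤ)))
  have g1 : E n ((6 * r + 2) * (k : ℕ)) * E n (-((k + α : ℕ) : ℤ)) * E n (-((k + γ : ℕ) : ℤ)) =
      E n (-α - γ) * chi ((r : ZMod n) * (k : ZMod n)) := by
    have e : (r : ZMod n) * k = ((r * k : ℤ) : ZMod n) := by push_cast; ring
    rw [e, chi_int, ← E_add, ← E_add, ← E_add]
    congr 1; push_cast; ring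
  rw [f1, f2]
  have hW : ∀ j : ℕ, W ρ b j = (ρ j : ℂ) * E n j + b j * E n (-j) := fun j => rfl
  rw [hW, hW]
  simp only [map_mul, Complex.conj_ofReal, conj_E] at h
  linear_combination E n ((6 * r + 2) * (k : ℕ)) * h + 3 *
    ((ρ ((k + α : ℕ) : ZMod n) : ℂ) * b ((k + γ : ℕ) : ZMod n) -
        b ((k + α : ℕ) : ZMod n) * ρ ((k + γ : ℕ) : ZMod n)) * g1

lemma block0 (ρ : ZMod n → ℝ) (b : ZMod n → ℂ) (α γ k : ℕ) :
    cr (W ρ b (k + α)) (W ρ b (k + γ)) +
    cr (W ρ b (k + n + α)) (W ρ b (k + n + γ)) +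
    cr (W ρ b (k + 2 * n + α)) (W ρ b (k + 2 * n + γ)) =
    3 * ((ρ ((k + α : ℕ) : ZMod n) : ℂ) * ρ ((k + γ : ℕ) : ZMod n) * E n (γ - α) +
      (starRingEnd ℂ) (b ((k + α : ℕ) : ZMod n)) * b ((k + γ : ℕ) : ZMod n) * E n (α - γ)).im := by
  have a1 : k + n + α = (k + α) + n := by ring
  have a2 : k + n + γ = (k + γ) + n := by ring
  have a3 : k + 2 * n + α = (k + α) + 2 * n := by ring
  have a4 : k + 2 * n + γ = (k + γ) + 2 * n := by ring
  rw [a1, a2, a3, a4, W_next, W_next, W_next2, W_next2]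
  have hW : ∀ j : ℕ, W ρ b j = (ρ j : ℂ) * E n j + b j * E n (-j) := fun j => rfl
  rw [hW, hW, hex_plain]
  simp only [map_mul, Complex.conj_ofReal, conj_E, neg_neg]
  have g1 : E n (-((k + α : ℕ) : ℤ)) * E n (((k + γ : ℕ) : ℤ)) = E n (γ - α) := by
    rw [← E_add]; congr 1; push_cast; ring
  have g2 : E n (((k + α : ℕ) : ℤ)) * E n (-((k + γ : ℕ) : ℤ)) = E n (α - γ) := by
    rw [← E_add]; congr 1; push_cast; ring
  congr 2
  linear_combination ((ρ ((k + α : ℕ) : ZMod n) : ℂ) * ρ ((k + γ : ℕ) : ZMod n)) * g1 +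
    ((starRingEnd ℂ) (b ((k + α : ℕ) : ZMod n)) * b ((k + γ : ℕ) : ZMod n)) * g2

end

end Rein69
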