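import Pool.Agent.Rein69.Rot

set_option autoImplicit false

namespace Rein69

open Complex Finset

/-- a real linear map of the plane -/
noncomputable def lin (c d z : ℂ) : ℂ := c * z + d * (starRingEnd ℂ) z

lemma cr_lin (c d u v : ℂ) :
    cr (lin c d u) (lin c d v) = (normSq c - normSq d) * cr u v := by
  simp [cr, lin, normSq_apply]; ring

lemma lin_add (c d u v : ℂ) : lin c d (u + v) = lin c d u + lin c d v := by
  simp [lin]; ring

lemma lin_sub (c d u v : ℂ) : lin c d (u - v) = lin c d u - lin c d v := by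
  simp [lin]; ring

lemma lin_neg (c d u : ℂ) : lin c d (-u) = - lin c d u := by
  simp [lin]; ring

lemma lin_smul (c d : ℂ) (r : ℝ) (u : ℂ) : lin c d (r * u) = r * lin c d u := by
  simp [lin]; ring

lemma IsSN.comp_lin {N : ℂ → ℝ} (hN : IsSN N) {c d : ℂ} (h : 0 < normSq c - normSq d) :
    IsSN (fun z => N (lin c d z)) where
  cont := by
    apply hN.cont.comp
    unfold lin
    exact (continuous_const.mul continuous_id).add (continuous_const.mul Complex.continuous_conj)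
  pos := by
    intro z hz
    apply hN.pos
    intro h0
    have h1 := cr_lin c d z (I * z)
    rw [h0, cr_zero_left] at h1
    have h2 : cr z (I * z) = normSq z := by simp [cr, normSq_apply]
    rw [h2] at h1
    have h3 : 0 < normSq z := normSq_pos.mpr hz
    have : 0 < (normSq c - normSq d) * normSq z := mul_pos h h3
    linarith
  smul := by
    intro r z
    simp only [lin_smul]
    exact hN.smul r _
  tri := by
    intro z w
    simp only [lin_add]
    exact hN.tri _ _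
  strict := by
    intro z w hzw
    simp only [lin_add]
    apply hN.strict
    rw [cr_lin]
    exact mul_ne_zero h.ne' hzw

/-- `V` bounds all inscribed symmetric polygons -/
def AreaBd (N : ℂ → ℝ) (V : ℝ) : Prop :=
  ∀ (M : ℕ) (v : ℕ → ℂ), 2 ≤ M → (∀ i, N (v i) = 1) → v M = - v 0 →
    (∀ i j, i < j → j ≤ M → (0 < i ∨ j < M) → 0 < cr (v i) (v j)) →
    ∑ i ∈ range M, cr (v i) (v (i + 1)) ≤ V

/-- there is an inscribed hexagon with determinant at most `V / κ` -/
def Good (κ : ℝ) (N : ℂ → ℝ) (V : ℝ) : Prop :=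
  ∃ p q, N p = 1 ∧ N q = 1 ∧ N (p - q) = 1 ∧ 0 < cr p q ∧ κ * cr p q ≤ V

lemma AreaBd.comp_lin {N : ℂ → ℝ} {V : ℝ} (h : AreaBd N V) {c d : ℂ}
    (hcd : 0 < normSq c - normSq d) :
    AreaBd (fun z => N (lin c d z)) (V / (normSq c - normSq d)) := by
  intro M v hM hv hv0 hpos
  have := h M (fun i => lin c d (v i)) hM hv (by simp only [hv0, lin_neg])
    (fun i j h1 h2 h3 => by
      simp only [cr_lin]
      exact mul_pos hcd (hpos i j h1 h2 h3))
  simp only [cr_lin] at this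
  rw [← Finset.mul_sum] at this
  rw [le_div_iff₀ hcd]
  linarith

lemma Good.of_comp_lin {κ : ℝ} {N : ℂ → ℝ} {V : ℝ} {c d : ℂ}
    (hcd : 0 < normSq c - normSq d)
    (h : Good κ (fun z => N (lin c d z)) (V / (normSq c - normSq d))) : Good κ N V := by
  obtain ⟨p, q, h1, h2, h3, h4, h5⟩ := h
  refine ⟨lin c d p, lin c d q, h1, h2, ?_, ?_, ?_⟩
  · simp only [lin_sub] at h3
    exact h3
  · rw [cr_lin]; exact mul_pos hcd h4
  · rw [cr_lin]
    rw [le_div_iff₀ hcd] at h5
    linarith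

section
variable {N : ℂ → ℝ} (hN : IsSN N)
include hN

lemma IsSN.hex_at {φ : ℝ} {q : ℂ} (hq : N q = 1) (hpq : N (q - P N φ) = 1)
    (hc : 0 < cr (P N φ) q) : P N (tau N φ) = q := by
  obtain ⟨ψ, h1, h2, h3⟩ := hN.exists_angle hq hc
  rw [← h3] at hpq
  rw [← hN.tau_unique h1 h2 hpq, h3]

lemma IsSN.exists_P {u : ℂ} (hu : N u = 1) : ∃ φ, P N φ = u := by
  refine ⟨u.arg, ?_⟩
  have h1 : ((‖u‖ : ℝ) : ℂ) * exp (u.arg * I) = u := Complex.norm_mul_exp_arg_mul_I u
  have h2 : ‖u‖ * N (exp (u.arg * I)) = 1 := by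
    rw [← hN.smul_nonneg (norm_nonneg u), h1, hu]
  have hpos := hN.Nexp_pos u.arg
  unfold P
  have : (1 / N (exp ((u.arg : ℂ) * I)) : ℝ) = ‖u‖ := by
    field_simp; linarith
  rw [this, h1]

omit hN in
lemma exp_im_aux (x θ t : ℝ) : ((x : ℂ) * exp ((θ : ℂ) * I) * exp ((t : ℂ) * I)).im
    = x * Real.sin (θ + t) := by
  rw [mul_assoc, ← Complex.exp_add, ← add_mul]
  have : (θ : ℂ) + t = ((θ + t : ℝ) : ℂ) := by push_cast; ring
  rw [this, Complex.im_ofReal_mul, Complex.exp_ofReal_mul_I_im]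

/-- existence of a hexagon with prescribed rotation angle -/
lemma IsSN.exists_rot {φ0 ρ0 θ : ℝ} (hρ : 0 < ρ0) (h0 : hA N φ0 = ρ0) (hθ : 0 < θ)
    (hθ2 : θ < Real.pi / 3) :
    ∃ φ, φ0 < φ ∧ φ < tau N φ0 ∧ ∃ ρ : ℝ, 0 < ρ ∧ hA N φ = ρ * exp (θ * I) := by
  have hpi := Real.pi_pos
  have hom : om = exp ((Real.pi / 3 : ℝ) * I) := by
    apply Complex.ext
    · rw [Complex.exp_ofReal_mul_I_re, Real.cos_pi_div_three]; simp [om]
    · rw [Complex.exp_ofReal_mul_I_im, Real.sin_pi_div_three]; simp [om]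
  set f : ℝ → ℝ := fun φ => (hA N φ * exp (((-θ : ℝ) : ℂ) * I)).im with hf
  have hfc : Continuous f := by
    have := hN.cont_hA
    rw [hf]; fun_prop
  have f0 : f φ0 < 0 := by
    rw [hf]; simp only
    rw [h0]
    have := exp_im_aux ρ0 0 (-θ)
    rw [ofReal_zero, zero_mul, Complex.exp_zero, mul_one, zero_add, Real.sin_neg] at this
    rw [this]
    have := Real.sin_pos_of_pos_of_lt_pi hθ (by linarith)
    nlinarith
  have f1 : 0 < f (tau N φ0) := by
    rw [hf]; simp only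
    rw [hN.hA_tau, h0, hom, mul_comm (exp _) (ρ0 : ℂ), exp_im_aux]
    have := Real.sin_pos_of_pos_of_lt_pi (x := Real.pi / 3 + -θ) (by linarith) (by linarith)
    positivity
  have hle : φ0 ≤ tau N φ0 := (hN.tau_spec φ0).1.le
  obtain ⟨φ, ⟨h1, h2⟩, h3⟩ := intermediate_value_Icc hle hfc.continuousOn
    (show (0 : ℝ) ∈ Set.Icc (f φ0) (f (tau N φ0)) from ⟨f0.le, f1.le⟩)
  refine ⟨φ, lt_of_le_of_ne h1 ?_, lt_of_le_of_ne h2 ?_, ?_⟩
  · rintro rfl; rw [h3] at f0; exact lt_irrefl _ f0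
  · rintro rfl; rw [h3] at f1; exact lt_irrefl _ f1
  · set z := hA N φ * exp (((-θ : ℝ) : ℂ) * I) with hz
    have hzim : z.im = 0 := h3
    have hzre : z = (z.re : ℂ) := by
      apply Complex.ext
      · simp
      · simp [hzim]
    have hAz : hA N φ = (z.re : ℂ) * exp (θ * I) := by
      rw [← hzre, hz, mul_assoc, ← Complex.exp_add, ← add_mul]
      simp
    refine ⟨z.re, ?_, hAz⟩
    have hne : z.re ≠ 0 := by
      intro h
      rw [h] at hAz
      simp at hAz
      exact hN.hA_ne φ hAz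
    have hr := hN.rot h1 h2
    rw [h0, hAz, Complex.conj_ofReal] at hr
    have e : ((ρ0 : ℂ) * ((z.re : ℂ) * exp (θ * I))).im = ρ0 * (z.re * Real.sin θ) := by
      rw [Complex.im_ofReal_mul, Complex.im_ofReal_mul, Complex.exp_ofReal_mul_I_im]
    rw [e] at hr
    have hs := Real.sin_pos_of_pos_of_lt_pi hθ (by linarith)
    by_contra hcon
    push Not at hcon
    have : z.re < 0 := lt_of_le_of_ne hcon hne
    have h5 : z.re * Real.sin θ < 0 := mul_neg_of_neg_of_pos this hs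
    have h6 : ρ0 * (z.re * Real.sin θ) < 0 := mul_neg_of_pos_of_neg hρ h5
    linarith

end

/-- the balanced situation -/
structure Balanced (N : ℂ → ℝ) (φ0 ψ ρ0 ρ4 : ℝ) (β : ℂ) : Prop where
  lt1 : φ0 < ψ
  lt2 : ψ < tau N φ0
  pos0 : 0 < ρ0
  pos4 : 0 < ρ4
  a0 : hA N φ0 = ρ0
  b0 : hB N φ0 = β
  a4 : hA N ψ = ρ4 * exp ((Real.pi / 6 : ℝ) * I)
  b4 : hB N ψ = -β * exp ((-(Real.pi / 6) : ℝ) * I)

lemma om_eq_exp : om = exp ((Real.pi / 3 : ℝ) * I) := by
  apply Complex.ext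
  · rw [Complex.exp_ofReal_mul_I_re, Real.cos_pi_div_three]; simp [om]
  · rw [Complex.exp_ofReal_mul_I_im, Real.sin_pi_div_three]; simp [om]

/-- If one hexagon is regular, then after a linear change we are balanced. -/
lemma balanced_of_regular {N : ℂ → ℝ} (hN : IsSN N) (h1 : N 1 = 1) (h2 : N om = 1)
    (h3 : N (om - 1) = 1) :
    ∃ c d : ℂ, 0 < normSq c - normSq d ∧ ∃ φ0 ψ ρ0 ρ4 β,
      Balanced (fun z => N (lin c d z)) φ0 ψ ρ0 ρ4 β := by
  have hpi := Real.pi_pos
  have hP0 : P N 0 = 1 := by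
    unfold P
    simp [h1]
  have hcr1 : 0 < cr 1 om := by
    have := s3_pos
    simp [cr, om]
  have hPt0 : P N (tau N 0) = om := by
    apply hN.hex_at h2
    · rw [hP0, h3]
    · rw [hP0]; exact hcr1
  have hA0 : hA N 0 = ((1 : ℝ) : ℂ) := by
    unfold hA
    rw [hP0, hPt0]
    have := hexA_of 1 0
    simpa using this
  obtain ⟨φ1, k1, k2, ρ, hρ, hA1⟩ := hN.exists_rot (θ := Real.pi / 6) one_pos hA0 (by positivity)
    (by linarith)
  set b := hB N φ1 with hb
  have hbρ : normSq b < ρ ^ 2 := by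
    have := hN.hB_lt φ1
    rw [hA1, ← hb, normSq_mul, normSq_ofReal, Complex.normSq_eq_norm_sq (exp _),
      Complex.norm_exp_ofReal_mul_I] at this
    nlinarith
  have hbn : ‖b‖ < ρ := by
    rw [Complex.normSq_eq_norm_sq] at hbρ
    exact lt_of_pow_lt_pow_left₀ 2 hρ.le hbρ
  set β : ℂ := exp ((Real.pi / 6 : ℝ) * I) * b / ((1 + ρ : ℝ) : ℂ) with hβ
  have h1ρ : ((1 + ρ : ℝ) : ℂ) ≠ 0 := by
    have : (1 + ρ) ≠ 0 := by positivity
    exact_mod_cast this
  have hβn : ‖β‖ < 1 := by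
    rw [hβ, norm_div, norm_mul, Complex.norm_exp_ofReal_mul_I, one_mul, Complex.norm_real,
      Real.norm_of_nonneg (by positivity), div_lt_one (by positivity)]
    linarith
  have hβ1 : normSq β < 1 := by
    rw [Complex.normSq_eq_norm_sq]
    have := norm_nonneg β
    nlinarith
  set D : ℝ := 1 - normSq β with hD
  have hDpos : 0 < D := by linarith
  have hDc : (D : ℂ) ≠ 0 := by exact_mod_cast hDpos.ne'
  set c : ℂ := ((1 / D : ℝ) : ℂ) with hc
  set d : ℂ := ((1 / D : ℝ) : ℂ) * β with hd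
  have hcd : normSq c - normSq d = 1 / D := by
    rw [hc, hd, normSq_mul, normSq_ofReal]
    have e : normSq β = 1 - D := by rw [hD]; ring
    rw [e]
    field_simp
    ring
  have hcdpos : 0 < normSq c - normSq d := by rw [hcd]; positivity
  have hinv : ∀ z, lin c d (lin 1 (-β) z) = z := by
    intro z
    have e : (starRingEnd ℂ) β * β = ((1 - D : ℝ) : ℂ) := by
      rw [← Complex.normSq_eq_conj_mul_self, hD]; push_cast; ring
    simp only [lin, hc, hd, map_add, map_mul, map_neg, map_one, Complex.conj_conj]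
    push_cast
    field_simp
    push_cast at e
    linear_combination (-z) * e
  refine ⟨c, d, hcdpos, ?_⟩
  set N2 : ℂ → ℝ := fun z => N (lin c d z) with hN2def
  have hN2 : IsSN N2 := hN.comp_lin hcdpos
  have hN2L : ∀ z, N2 (lin 1 (-β) z) = N z := by
    intro z
    rw [hN2def]; simp only
    rw [hinv]
  have hcrL : ∀ u v, cr (lin 1 (-β) u) (lin 1 (-β) v) = D * cr u v := by
    intro u v
    rw [cr_lin, normSq_neg, normSq_one, hD]
  have hLab : ∀ a b : ℂ, lin 1 (-β) (a + b) = (a - β * (starRingEnd ℂ) b) +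
      (b - β * (starRingEnd ℂ) a) := by
    intro a b; simp [lin]; ring
  have hLab2 : ∀ a b : ℂ, lin 1 (-β) (om * a + ob * b) = om * (a - β * (starRingEnd ℂ) b) +
      ob * (b - β * (starRingEnd ℂ) a) := by
    intro a b; simp [lin, conj_om, conj_ob]; ring
  -- base hexagon
  obtain ⟨φ0, hφ0⟩ := hN2.exists_P (u := lin 1 (-β) 1) (by rw [hN2L, h1])
  have hPt : P N2 (tau N2 φ0) = lin 1 (-β) om := by
    apply hN2.hex_at
    · rw [hN2L, h2]
    · rw [hφ0, ← lin_sub, hN2L, h3]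
    · rw [hφ0, hcrL]; positivity
  have hA20 : hA N2 φ0 = ((1 : ℝ) : ℂ) := by
    unfold hA
    rw [hφ0, hPt]
    have e1 := hLab 1 0
    have e2 := hLab2 1 0
    have := hexA_of (1 - β * (starRingEnd ℂ) 0) (0 - β * (starRingEnd ℂ) 1)
    rw [← e1, ← e2] at this
    simpa using this
  have hB20 : hB N2 φ0 = -β := by
    unfold hB
    rw [hφ0, hPt]
    have e1 := hLab 1 0
    have e2 := hLab2 1 0
    have := hexB_of (1 - β * (starRingEnd ℂ) 0) (0 - β * (starRingEnd ℂ) 1)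
    rw [← e1, ← e2] at this
    simpa using this
  -- second hexagon
  have hτ0 : tau N 0 < Real.pi := by
    have := (hN.tau_spec 0).2.1
    linarith
  obtain ⟨ψ, m1, m2, m3⟩ := hN2.exists_angle (φ := φ0) (u := lin 1 (-β) (P N φ1))
    (by rw [hN2L, hN.N_P]) (by
      rw [hφ0, hcrL, ← hP0]
      exact mul_pos hDpos (hN.cr_P_pos k1 (by linarith)))
  have hψt : P N2 (tau N2 ψ) = lin 1 (-β) (P N (tau N φ1)) := by
    apply hN2.hex_at
    · rw [hN2L, hN.N_P]
    · rw [m3, ← lin_sub, hN2L]; exact (hN.tau_spec φ1).2.2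
    · rw [m3, hcrL]
      exact mul_pos hDpos (hN.det_pos φ1)
  have hψlt : ψ < tau N2 φ0 := by
    by_contra hcon
    push Not at hcon
    have e1 := hN2.cr_P_nonneg hcon (by linarith [(hN2.tau_spec φ0).1])
    rw [hPt, m3, hcrL, ← hPt0] at e1
    have e2 := hN.cr_P_pos k2 (by linarith)
    rw [cr_swap] at e2
    have : D * cr (P N (tau N 0)) (P N φ1) < 0 := mul_neg_of_pos_of_neg hDpos (by linarith)
    linarith
  have hA2 : hA N2 ψ = hA N φ1 - β * (starRingEnd ℂ) b := by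
    show hexA (P N2 ψ) (P N2 (tau N2 ψ)) = _
    rw [m3, hψt, hN.P_eq φ1, hN.P_tau_eq φ1, hLab, hLab2, hexA_of]
  have hB2 : hB N2 ψ = b - β * (starRingEnd ℂ) (hA N φ1) := by
    show hexB (P N2 ψ) (P N2 (tau N2 ψ)) = _
    rw [m3, hψt, hN.P_eq φ1, hN.P_tau_eq φ1, hLab, hLab2, hexB_of]
  have hee : exp ((Real.pi / 6 : ℝ) * I) * exp ((-(Real.pi / 6) : ℝ) * I) = 1 := by
    rw [← Complex.exp_add, ← add_mul]; simp
  have hconj : (starRingEnd ℂ) (exp ((Real.pi / 6 : ℝ) * I)) = exp ((-(Real.pi / 6) : ℝ) * I) := by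
    rw [← Complex.exp_conj, map_mul, Complex.conj_ofReal, Complex.conj_I]
    congr 1; push_cast; ring
  set E := exp ((Real.pi / 6 : ℝ) * I) with hE
  set E' := exp ((-(Real.pi / 6) : ℝ) * I) with hE'
  refine ⟨φ0, ψ, 1, ρ - normSq b / (1 + ρ), -β, m1, hψlt, one_pos, ?_, hA20, hB20, ?_, ?_⟩
  · rw [sub_pos, div_lt_iff₀ (by positivity)]
    nlinarith
  · rw [hA2, hA1, hβ]
    have e : b * (starRingEnd ℂ) b = ((normSq b : ℝ) : ℂ) := Complex.mul_conj b
    rw [← hE]
    push_cast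
    push_cast at h1ρ
    field_simp
    linear_combination (-E) * e
  · rw [hB2, hA1, map_mul, hconj, Complex.conj_ofReal, hβ]
    rw [← hE']
    push_cast
    push_cast at h1ρ
    field_simp
    linear_combination (-b * (1 + (ρ : ℂ))) * hee

end Rein69
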