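import Pool.Agent.Rein69.Tau

set_option autoImplicit false

namespace Rein69

open Complex

/-- primitive sixth root of unity -/
noncomputable def om : ℂ := ⟨1 / 2, Real.sqrt 3 / 2⟩
/-- its conjugate -/
noncomputable def ob : ℂ := ⟨1 / 2, -(Real.sqrt 3 / 2)⟩
/-- i times root three -/
noncomputable def is3 : ℂ := ⟨0, Real.sqrt 3⟩

lemma sq3 : Real.sqrt 3 * Real.sqrt 3 = 3 := Real.mul_self_sqrt (by norm_num)
lemma s3_pos : 0 < Real.sqrt 3 := Real.sqrt_pos.mpr (by norm_num)

lemma is3_ne : is3 ≠ 0 := by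
  intro h
  have := congrArg Complex.im h
  simp [is3] at this

lemma om_sub_ob : om - ob = is3 := by
  apply Complex.ext <;> simp [om, ob, is3]

lemma om_mul_ob : om * ob = 1 := by
  apply Complex.ext
  · simp [om, ob]; nlinarith [sq3]
  · simp [om, ob]; ring

lemma om_sq : om * om = om - 1 := by
  apply Complex.ext
  · simp [om]; nlinarith [sq3]
  · simp [om]; ring

lemma om_add_ob : om + ob = 1 := by
  apply Complex.ext
  · simp [om, ob]; norm_num
  · simp [om, ob]

lemma conj_om : (starRingEnd ℂ) om = ob := by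
  apply Complex.ext <;> simp [om, ob]

lemma conj_ob : (starRingEnd ℂ) ob = om := by
  apply Complex.ext <;> simp [om, ob]

lemma ob_eq : ob = 1 - om := by rw [← om_add_ob]; ring

lemma is3_eq : is3 = 2 * om - 1 := by rw [← om_sub_ob, ob_eq]; ring

/-- first hexagon coordinate -/
noncomputable def hexA (p q : ℂ) : ℂ := (q - ob * p) / is3
/-- second hexagon coordinate -/
noncomputable def hexB (p q : ℂ) : ℂ := (om * p - q) / is3

lemma hex_p (p q : ℂ) : p = hexA p q + hexB p q := by
  unfold hexA hexB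
  have := is3_ne
  field_simp
  rw [← om_sub_ob]; ring

lemma hex_q (p q : ℂ) : q = om * hexA p q + ob * hexB p q := by
  unfold hexA hexB
  have := is3_ne
  field_simp
  have h := om_mul_ob
  linear_combination (-q) * om_sub_ob

lemma hexA_of (a b : ℂ) : hexA (a + b) (om * a + ob * b) = a := by
  unfold hexA
  have := is3_ne
  field_simp
  linear_combination a * om_sub_ob

lemma hexB_of (a b : ℂ) : hexB (a + b) (om * a + ob * b) = b := by
  unfold hexB
  have := is3_ne
  field_simp
  linear_combination b * om_sub_ob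

lemma hexA_next (p q : ℂ) : hexA q (q - p) = om * hexA p q := by
  unfold hexA
  have := is3_ne
  field_simp
  linear_combination q * om_add_ob.symm - p * om_mul_ob.symm

lemma hexB_next (p q : ℂ) : hexB q (q - p) = ob * hexB p q := by
  unfold hexB
  have := is3_ne
  field_simp
  linear_combination q * om_add_ob - p * om_mul_ob

lemma cr_hex (a b : ℂ) :
    cr (a + b) (om * a + ob * b) = Real.sqrt 3 / 2 * (normSq a - normSq b) := by
  simp [cr, om, ob, normSq_apply]; ring

lemma cr_hex' (p q : ℂ) :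
    cr p q = Real.sqrt 3 / 2 * (normSq (hexA p q) - normSq (hexB p q)) := by
  rw [← cr_hex, ← hex_p, ← hex_q]

lemma relIneq {x y z w : ℝ} (hx : x ≤ 1) (hz : z ≤ 1) (hs : z + w - y ≤ 1) (h1 : 1 ≤ x + y)
    (h2 : 1 ≤ z + w) (h3 : 1 ≤ x + w) :
    (x - z) ^ 2 + (y - w) ^ 2 + (x - z) * (y - w) ≤ ((w + x + 2 * y - z) / 2) ^ 2 := by
  have e0 : 0 ≤ z + w - x := by linarith
  have e1 : z + w - x ≤ 2 * w := by linarith
  have e2 : z + w - x ≤ 2 * y := by linarith
  have e3 : (z + w - x) * (z + w - x) ≤ (2 * w) * (2 * y) :=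
    mul_le_mul e1 e2 e0 (by linarith)
  nlinarith

lemma div_is3_im (z : ℂ) : (z / is3).im = - z.re / Real.sqrt 3 := by
  have h : z = (z / is3) * is3 := by field_simp [is3_ne]
  have h2 : z.re = - (z / is3).im * Real.sqrt 3 := by
    conv_lhs => rw [h]
    simp [is3]
  have := s3_pos
  rw [h2]
  field_simp

lemma conj_mul_re (a b : ℂ) : ((starRingEnd ℂ) a * b).re ≤ ‖a‖ * ‖b‖ := by
  calc ((starRingEnd ℂ) a * b).re ≤ ‖(starRingEnd ℂ) a * b‖ := Complex.re_le_norm _
    _ = ‖a‖ * ‖b‖ := by rw [norm_mul, Complex.norm_conj]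

/-- rotation lemma in algebraic form -/
lemma rot_alg {a b : ℂ} (hab : normSq b ≤ normSq a) {x y z w : ℝ} (hx : x ≤ 1) (hz : z ≤ 1)
    (hs : z + w - y ≤ 1) (h1 : 1 ≤ x + y)
    (h2 : 1 ≤ z + w) (h3 : 1 ≤ x + w) {p q p' q' : ℂ}
    (hp : p = a + b) (hq : q = om * a + ob * b) (hp' : p' = x * p + y * q)
    (hq' : q' = z * q + w * (q - p)) :
    0 ≤ ((starRingEnd ℂ) a * hexA p' q').im := by
  set α : ℂ := z * om + w * om * om - ob * x - y with hα
  set κ : ℂ := (z - x) * ob + (w - y) * ob * ob with hκ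
  have hA : hexA p' q' = (α * a + κ * b) / is3 := by
    unfold hexA
    rw [hα, hκ, hq', hp', hq, hp]
    have := is3_ne
    field_simp
    rw [ob_eq]
    linear_combination ((y - w) * a - w * b) * om_sq
  have hs3 := s3_pos
  have hs3' := sq3
  have hα' : α = z * om + w * (om - 1) - (1 - om) * x - y := by
    rw [hα, ob_eq]; linear_combination w * om_sq
  have hκ' : κ = (z - x) * ob + (w - y) * (-om) := by
    rw [hκ]
    have : ob * ob = - om := by rw [ob_eq]; linear_combination om_sq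
    linear_combination (w - y) * this
  have hαre : α.re = -((w + x + 2 * y - z) / 2) := by
    rw [hα']; simp [om]; ring
  have hκn : normSq κ = (x - z) ^ 2 + (y - w) ^ 2 + (x - z) * (y - w) := by
    rw [hκ']; simp [om, ob, normSq_apply]
    linear_combination (1 / 4) * (w - y + z - x) ^ 2 * sq3
  have hrel := relIneq hx hz hs h1 h2 h3
  have hκnorm : ‖κ‖ ≤ (w + x + 2 * y - z) / 2 := by
    apply abs_le_of_sq_le_sq' _ (by linarith) |>.2
    rw [← Complex.normSq_eq_norm_sq, hκn]; exact hrel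
  have habn : ‖b‖ ≤ ‖a‖ := by
    apply abs_le_of_sq_le_sq' _ (norm_nonneg _) |>.2
    rw [← Complex.normSq_eq_norm_sq, ← Complex.normSq_eq_norm_sq]; exact hab
  rw [hA, mul_div_assoc', div_is3_im]
  apply div_nonneg _ hs3.le
  have e1 : (starRingEnd ℂ) a * (α * a + κ * b) = α * (normSq a : ℂ) +
      (starRingEnd ℂ) a * (κ * b) := by
    rw [Complex.normSq_eq_conj_mul_self]; ring
  have e2 : ((starRingEnd ℂ) a * (α * a + κ * b)).re = α.re * normSq a +
      ((starRingEnd ℂ) a * (κ * b)).re := by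
    rw [e1, Complex.add_re, Complex.re_mul_ofReal]
  rw [e2, hαre]
  have e3 := conj_mul_re a (κ * b)
  rw [norm_mul] at e3
  have e4 : ‖a‖ * (‖κ‖ * ‖b‖) ≤ ‖a‖ * ((w + x + 2 * y - z) / 2 * ‖a‖) := by
    apply mul_le_mul_of_nonneg_left _ (norm_nonneg _)
    exact mul_le_mul hκnorm habn (norm_nonneg _) (le_trans (norm_nonneg _) hκnorm)
  rw [Complex.normSq_eq_norm_sq]
  nlinarith

end Rein69
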