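import Pool.Agent.Rein69.Four

set_option autoImplicit false

namespace Rein69

open Complex Finset

section
variable {n : ℕ} [NeZero n]

/-- amplitude of the rho modes -/
noncomputable def Am (ρ : ZMod n → ℝ) (l : ZMod n) : ℝ := ‖ft (fun x => (ρ x : ℂ)) l‖
/-- amplitude of the b modes -/
noncomputable def Bm (b : ZMod n → ℂ) (l : ZMod n) : ℝ := ‖ft b l‖

/-- sine table -/
noncomputable def sn (n : ℕ) (j : ℤ) : ℝ := Real.sin (j * (Real.pi / (3 * n)))

/-- half angle sine table -/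
noncomputable def hs (n : ℕ) (j : ℤ) : ℝ := |Real.sin (j * (Real.pi / (6 * n)))|

/-- the quadratic form of the shift sums -/
noncomputable def Sq (ρ : ZMod n → ℝ) (b : ZMod n → ℂ) (d : ℕ) : ℝ :=
  ∑ l : ZMod n, (Am ρ l ^ 2 * sn n ((6 * (l.val : ℤ) + 1) * d) +
    Bm b l ^ 2 * sn n ((6 * (l.val : ℤ) - 1) * d))

lemma chi_val (l : ZMod n) (d : ℕ) : chi (l * (d : ZMod n)) = E n (6 * l.val * d) := by
  have : l * (d : ZMod n) = ((l.val * d : ℤ) : ZMod n) := by push_cast; simp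
  rw [this, chi_int]; congr 1; ring

lemma sum0 (ρ : ZMod n → ℝ) (b : ZMod n → ℂ) (α γ d : ℕ) (h : γ = α + d) :
    ∑ k ∈ range (3 * n), cr (W ρ b (k + α)) (W ρ b (k + γ)) = 3 * n * Sq ρ b d := by
  have e0 : ((∑ k ∈ range (3 * n), cr (W ρ b (k + α)) (W ρ b (k + γ)) : ℝ) : ℂ) =
      ∑ k ∈ range (3 * n), ((cr (W ρ b (k + α)) (W ρ b (k + γ)) : ℝ) : ℂ) := by push_cast; rfl
  have e1 : ∑ k ∈ range (3 * n), cr (W ρ b (k + α)) (W ρ b (k + γ)) =
      ∑ k ∈ range n, 3 * ((ρ ((k + α : ℕ) : ZMod n) : ℂ) * ρ ((k + γ : ℕ) : ZMod n) * E n (γ - α) +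
      (starRingEnd ℂ) (b ((k + α : ℕ) : ZMod n)) * b ((k + γ : ℕ) : ZMod n) * E n (α - γ)).im := by
    have : ((∑ k ∈ range (3 * n), cr (W ρ b (k + α)) (W ρ b (k + γ)) : ℝ) : ℂ) =
      ((∑ k ∈ range n, 3 * ((ρ ((k + α : ℕ) : ZMod n) : ℂ) * ρ ((k + γ : ℕ) : ZMod n) * E n (γ - α) +
      (starRingEnd ℂ) (b ((k + α : ℕ) : ZMod n)) * b ((k + γ : ℕ) : ZMod n) * E n (α - γ)).im : ℝ) : ℂ) := by
      rw [e0, sum_three]
      push_cast
      apply Finset.sum_congr rfl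
      intro k _
      have := block0 ρ b α γ k
      rw [← Complex.ofReal_add, ← Complex.ofReal_add, this]
      push_cast
      rfl
    exact_mod_cast this
  rw [e1, ← Finset.mul_sum, ← Complex.im_sum, mul_assoc]
  congr 1
  have e2 : ∑ k ∈ range n, ((ρ ((k + α : ℕ) : ZMod n) : ℂ) * ρ ((k + γ : ℕ) : ZMod n) * E n (γ - α) +
      (starRingEnd ℂ) (b ((k + α : ℕ) : ZMod n)) * b ((k + γ : ℕ) : ZMod n) * E n (α - γ)) =
      n * ∑ l : ZMod n, (((Am ρ l ^ 2 : ℝ) : ℂ) * E n ((6 * (l.val : ℤ) + 1) * d) +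
        ((Bm b l ^ 2 : ℝ) : ℂ) * E n ((6 * (l.val : ℤ) - 1) * d)) := by
    set g : ZMod n → ℂ := fun x : ZMod n => (starRingEnd ℂ) (ρ (x + α) : ℂ) * ρ (x + γ) * E n (γ - α) +
      (starRingEnd ℂ) (b (x + α)) * b (x + γ) * E n (α - γ) with hg
    have e3 : ∀ k : ℕ, ((ρ ((k + α : ℕ) : ZMod n) : ℂ) * ρ ((k + γ : ℕ) : ZMod n) * E n (γ - α) +
      (starRingEnd ℂ) (b ((k + α : ℕ) : ZMod n)) * b ((k + γ : ℕ) : ZMod n) * E n (α - γ)) =
      g (k : ZMod n) := by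
      intro k; simp [hg]
    rw [Finset.sum_congr rfl (fun k _ => e3 k), sum_range_zmod g, hg]
    rw [Finset.sum_add_distrib, ← Finset.sum_mul, ← Finset.sum_mul]
    have p1 := ft_parseval (fun x => (ρ x : ℂ)) (α : ZMod n) (γ : ZMod n)
    have p2 := ft_parseval b (α : ZMod n) (γ : ZMod n)
    rw [p1, p2]
    have hd : ((γ : ZMod n) - (α : ZMod n)) = (d : ZMod n) := by rw [h]; push_cast; ring
    rw [hd, Finset.sum_add_distrib, mul_add, mul_assoc, mul_assoc, Finset.sum_mul, Finset.sum_mul]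
    congr 1
    · congr 1
      apply Finset.sum_congr rfl
      intro l _
      rw [chi_val, Am, ← Complex.normSq_eq_norm_sq, mul_assoc, ← E_add]
      congr 2
      rw [h]; push_cast; ring
    · congr 1
      apply Finset.sum_congr rfl
      intro l _
      rw [chi_val, Bm, ← Complex.normSq_eq_norm_sq, mul_assoc, ← E_add]
      congr 2
      rw [h]; push_cast; ring
  rw [e2]
  have e4 : ((n : ℂ) * ∑ l : ZMod n, (((Am ρ l ^ 2 : ℝ) : ℂ) * E n ((6 * (l.val : ℤ) + 1) * d) +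
        ((Bm b l ^ 2 : ℝ) : ℂ) * E n ((6 * (l.val : ℤ) - 1) * d))).im =
      n * (∑ l : ZMod n, (((Am ρ l ^ 2 : ℝ) : ℂ) * E n ((6 * (l.val : ℤ) + 1) * d) +
        ((Bm b l ^ 2 : ℝ) : ℂ) * E n ((6 * (l.val : ℤ) - 1) * d))).im := by
    have := Complex.im_ofReal_mul (n : ℝ) (∑ l : ZMod n, (((Am ρ l ^ 2 : ℝ) : ℂ) * E n ((6 * (l.val : ℤ) + 1) * d) +
        ((Bm b l ^ 2 : ℝ) : ℂ) * E n ((6 * (l.val : ℤ) - 1) * d)))
    simp
  rw [e4]
  congr 1
  rw [Complex.im_sum]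
  unfold Sq
  apply Finset.sum_congr rfl
  intro l _
  rw [Complex.add_im, Complex.im_ofReal_mul, Complex.im_ofReal_mul, E_im, E_im]
  rfl

/-- coefficient in the twisted sum -/
noncomputable def J (α γ : ℕ) (r l : ZMod n) : ℂ :=
  E n (-α - γ) * (chi (l * (α : ZMod n) + (-r - l) * (γ : ZMod n)) -
    chi ((-r - l) * (α : ZMod n) + l * (γ : ZMod n)))

lemma sum1 (ρ : ZMod n → ℝ) (b : ZMod n → ℂ) (α γ : ℕ) (r : ℤ) :
    ∑ k ∈ range (3 * n), ((cr (W ρ b (k + α)) (W ρ b (k + γ)) : ℝ) : ℂ) * E n ((6 * r + 2) * (k : ℕ)) =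
      3 * n / (2 * I) * ∑ l : ZMod n, ft (fun x => (ρ x : ℂ)) l * ft b (-(r : ZMod n) - l) *
        J α γ (r : ZMod n) l := by
  rw [sum_three]
  rw [Finset.sum_congr rfl (fun k _ => block1 ρ b α γ k r), ← Finset.mul_sum, ← Finset.mul_sum]
  set g : ZMod n → ℂ := fun x : ZMod n => b (x + γ) * (ρ (x + α) : ℂ) * chi ((r : ZMod n) * x) -
        b (x + α) * (ρ (x + γ) : ℂ) * chi ((r : ZMod n) * x) with hg
  have e3 : ∀ k : ℕ, chi ((r : ZMod n) * (k : ZMod n)) *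
      ((ρ ((k + α : ℕ) : ZMod n) : ℂ) * b ((k + γ : ℕ) : ZMod n) -
        b ((k + α : ℕ) : ZMod n) * ρ ((k + γ : ℕ) : ZMod n)) = g (k : ZMod n) := by
    intro k; rw [hg]; push_cast; ring
  rw [Finset.sum_congr rfl (fun k _ => e3 k), sum_range_zmod g, hg, Finset.sum_sub_distrib,
    ft_bilin b (fun x => (ρ x : ℂ)) (γ : ZMod n) (α : ZMod n) (r : ZMod n),
    ft_bilin b (fun x => (ρ x : ℂ)) (α : ZMod n) (γ : ZMod n) (r : ZMod n), ← mul_sub,
    ← Finset.sum_sub_distrib]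
  unfold J
  rw [Finset.mul_sum, Finset.mul_sum, Finset.mul_sum, Finset.mul_sum]
  apply Finset.sum_congr rfl
  intro l _
  rw [add_comm (l * (α : ZMod n))]
  ring

omit [NeZero n] in
lemma norm_one_sub_E (j : ℤ) : ‖1 - E n j‖ = 2 * hs n j := by
  have h : ‖1 - E n j‖ ^ 2 = (2 * hs n j) ^ 2 := by
    rw [← Complex.normSq_eq_norm_sq, normSq_apply]
    unfold hs
    simp only [sub_re, one_re, sub_im, one_im, E_re, E_im]
    rw [mul_pow, sq_abs]
    have e : (j : ℝ) * (Real.pi / (3 * n)) = 2 * (j * (Real.pi / (6 * n))) := by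
      by_cases hn : (n : ℝ) = 0
      · rw [hn]; simp
      · field_simp; ring
    rw [e, Real.cos_two_mul, Real.sin_two_mul]
    have := Real.sin_sq_add_cos_sq ((j : ℝ) * (Real.pi / (6 * n)))
    set s := Real.sin ((j : ℝ) * (Real.pi / (6 * n)))
    set c := Real.cos ((j : ℝ) * (Real.pi / (6 * n)))
    have hc : c ^ 2 = 1 - s ^ 2 := by linarith
    ring_nf
    rw [show c ^ 4 = (c ^ 2) ^ 2 by ring, hc]
    ring
  have h1 : 0 ≤ 2 * hs n j := by unfold hs; positivity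
  exact (pow_left_inj₀ (norm_nonneg _) h1 two_ne_zero).mp h

/-- coefficient of the mixed terms -/
noncomputable def Kc (n : ℕ) (m r l : ℤ) : ℝ :=
  8 * (hs n ((12 * l + 6 * r) * m) * hs n ((6 * l - 1) * m) * hs n ((6 * (r + l) + 1) * m))

/-- combined coefficient -/
noncomputable def kap (m : ℕ) (r l : ZMod n) : ℂ := J 0 m r l + J m (2 * m) r l - J 0 (2 * m) r l

lemma kappa_norm (m : ℕ) (r : ℤ) (l : ZMod n) :
    ‖kap m (r : ZMod n) l‖ = Kc n m r l.val := by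
  unfold kap J
  set R : ZMod n := (r : ZMod n) with hR
  set a := chi (l * (m : ZMod n)) with ha
  set c := chi ((-R - l) * (m : ZMod n)) with hc
  set ε := E n (-(m : ℤ)) with hε
  have ea : a = E n (6 * l.val * m) := chi_val l m
  have ec : c = E n (6 * (-r - l.val) * m) := by
    have : (-R - l) * (m : ZMod n) = (((-r - l.val) * m : ℤ) : ZMod n) := by
      push_cast; simp [hR]
    rw [hc, this, chi_int]; congr 1; ring
  have e1 : E n (-((0:ℕ):ℤ) - m) = ε := by rw [hε]; congr 1; push_cast; ring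
  have e2 : E n (-(m:ℤ) - (2 * m : ℕ)) = ε * ε * ε := by
    rw [hε, ← E_add, ← E_add]; congr 1; push_cast; ring
  have e3 : E n (-((0:ℕ):ℤ) - (2 * m : ℕ)) = ε * ε := by
    rw [hε, ← E_add]; congr 1; push_cast; ring
  have f1 : chi (l * ((0:ℕ) : ZMod n) + (-R - l) * (m : ZMod n)) = c := by
    rw [hc]; congr 1; push_cast; ring
  have f2 : chi ((-R - l) * ((0:ℕ): ZMod n) + l * (m : ZMod n)) = a := by
    rw [ha]; congr 1; push_cast; ring
  have f3 : chi (l * (m : ZMod n) + (-R - l) * ((2 * m : ℕ) : ZMod n)) = a * c * c := by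
    rw [ha, hc, ← chi_add, ← chi_add]; congr 1; push_cast; ring
  have f4 : chi ((-R - l) * (m : ZMod n) + l * ((2 * m : ℕ) : ZMod n)) = a * a * c := by
    rw [ha, hc, ← chi_add, ← chi_add]; congr 1; push_cast; ring
  have f5 : chi (l * ((0:ℕ) : ZMod n) + (-R - l) * ((2 * m : ℕ) : ZMod n)) = c * c := by
    rw [hc, ← chi_add]; congr 1; push_cast; ring
  have f6 : chi ((-R - l) * ((0:ℕ) : ZMod n) + l * ((2 * m : ℕ) : ZMod n)) = a * a := by
    rw [ha, ← chi_add]; congr 1; push_cast; ring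
  rw [e1, e2, e3, f1, f2, f3, f4, f5, f6]
  have g : ε * (c - a) + ε * ε * ε * (a * c * c - a * a * c) - ε * ε * (c * c - a * a) =
      ε * (c * (1 - E n ((12 * l.val + 6 * r) * m))) * (1 - E n ((6 * l.val - 1) * m)) *
        (1 - E n (-((6 * (r + l.val) + 1) * m))) := by
    have h1 : c * E n ((12 * l.val + 6 * r) * m) = a := by
      rw [ec, ea, ← E_add]; congr 1; ring
    have h2 : E n ((6 * l.val - 1) * m) = ε * a := by
      rw [hε, ea, ← E_add]; congr 1; ring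
    have h3 : E n (-((6 * (r + l.val) + 1) * m)) = ε * c := by
      rw [hε, ec, ← E_add]; congr 1; ring
    rw [h2, h3]
    linear_combination ε * (1 - ε * a) * (1 - ε * c) * h1
  rw [g, norm_mul, norm_mul, norm_mul, norm_mul, norm_one_sub_E, norm_one_sub_E, norm_one_sub_E]
  have hcn : ‖c‖ = 1 := norm_chi _
  have hεn : ‖ε‖ = 1 := norm_E _ _
  rw [hcn, hεn]
  have hneg : hs n (-((6 * (r + l.val) + 1) * m)) = hs n ((6 * (r + l.val) + 1) * m) := by
    unfold hs; push_cast; rw [neg_mul, Real.sin_neg, abs_neg]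
  rw [hneg]
  unfold Kc
  ring

/-- the three point inequalities, twisted -/
theorem T_ineq (ρ : ZMod n → ℝ) (b : ZMod n → ℂ) (m : ℕ) (r : ℤ)
    (h3 : ∀ i : ℕ, cr (W ρ b i) (W ρ b (i + 2 * m)) ≤
      cr (W ρ b i) (W ρ b (i + m)) + cr (W ρ b (i + m)) (W ρ b (i + 2 * m))) :
    Am ρ 0 * Bm b (-(r : ZMod n)) * Kc n m r 0 ≤ 2 * (2 * Sq ρ b m - Sq ρ b (2 * m)) +
      ∑ l ∈ univ.erase (0 : ZMod n), Am ρ l * Bm b (-(r : ZMod n) - l) * Kc n m r l.val := by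
  set R : ZMod n := (r : ZMod n) with hR
  have hn := n_posR (n := n)
  set X : ℕ → ℝ := fun k => cr (W ρ b (k + 0)) (W ρ b (k + m)) +
    cr (W ρ b (k + m)) (W ρ b (k + 2 * m)) - cr (W ρ b (k + 0)) (W ρ b (k + 2 * m)) with hX
  have hX0 : ∀ k, 0 ≤ X k := by
    intro k
    have := h3 k
    simp only [hX, add_zero]
    linarith
  have hsum : ∑ k ∈ range (3 * n), X k = 3 * n * (2 * Sq ρ b m - Sq ρ b (2 * m)) := by
    simp only [hX, Finset.sum_sub_distrib, Finset.sum_add_distrib]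
    rw [sum0 ρ b 0 m m (by ring), sum0 ρ b m (2 * m) m (by ring), sum0 ρ b 0 (2 * m) (2 * m) (by ring)]
    ring
  have htw : ∑ k ∈ range (3 * n), (X k : ℂ) * E n ((6 * r + 2) * (k : ℕ)) =
      3 * n / (2 * I) * ∑ l : ZMod n, ft (fun x => (ρ x : ℂ)) l * ft b (-R - l) *
      kap m R l := by
    have e1 : ∀ k : ℕ, (X k : ℂ) * E n ((6 * r + 2) * (k : ℕ)) =
        ((cr (W ρ b (k + 0)) (W ρ b (k + m)) : ℝ) : ℂ) * E n ((6 * r + 2) * (k : ℕ)) +
        ((cr (W ρ b (k + m)) (W ρ b (k + 2 * m)) : ℝ) : ℂ) * E n ((6 * r + 2) * (k : ℕ)) -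
        ((cr (W ρ b (k + 0)) (W ρ b (k + 2 * m)) : ℝ) : ℂ) * E n ((6 * r + 2) * (k : ℕ)) := by
      intro k
      simp only [hX]
      push_cast; ring
    rw [Finset.sum_congr rfl (fun k _ => e1 k), Finset.sum_sub_distrib, Finset.sum_add_distrib,
      sum1, sum1, sum1, ← mul_add, ← mul_sub, ← Finset.sum_add_distrib, ← Finset.sum_sub_distrib]
    congr 1
    apply Finset.sum_congr rfl
    intro l _
    unfold kap
    ring
  have hle : ‖∑ k ∈ range (3 * n), (X k : ℂ) * E n ((6 * r + 2) * (k : ℕ))‖ ≤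
      ∑ k ∈ range (3 * n), X k := by
    refine (norm_sum_le _ _).trans (le_of_eq ?_)
    apply Finset.sum_congr rfl
    intro k _
    rw [norm_mul, norm_E, mul_one, Complex.norm_real, Real.norm_of_nonneg (hX0 k)]
  set κ : ZMod n → ℂ := fun l => kap m R l with hκ
  have hκn : ∀ l, ‖κ l‖ = Kc n m r l.val := fun l => kappa_norm m r l
  have hnorm3 : ‖(3 * n / (2 * I) : ℂ)‖ = 3 * n / 2 := by
    rw [norm_div, norm_mul, norm_mul, Complex.norm_I]
    simp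
  have hsplit : ∑ l : ZMod n, ft (fun x => (ρ x : ℂ)) l * ft b (-R - l) * κ l =
      ft (fun x => (ρ x : ℂ)) 0 * ft b (-R - 0) * κ 0 +
      ∑ l ∈ univ.erase (0 : ZMod n), ft (fun x => (ρ x : ℂ)) l * ft b (-R - l) * κ l :=
    (Finset.add_sum_erase univ _ (Finset.mem_univ 0)).symm
  rw [htw, norm_mul, hnorm3, hsum] at hle
  have h1 : ‖∑ l : ZMod n, ft (fun x => (ρ x : ℂ)) l * ft b (-R - l) * κ l‖ ≤
      2 * (2 * Sq ρ b m - Sq ρ b (2 * m)) := by
    have h2 : (3 * (n : ℝ) / 2) * ‖∑ l : ZMod n, ft (fun x => (ρ x : ℂ)) l * ft b (-R - l) * κ l‖ ≤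
        (3 * (n : ℝ) / 2) * (2 * (2 * Sq ρ b m - Sq ρ b (2 * m))) := by linarith
    exact le_of_mul_le_mul_left h2 (by positivity)
  have h2 : ‖ft (fun x => (ρ x : ℂ)) 0 * ft b (-R - 0) * κ 0‖ ≤
      ‖∑ l : ZMod n, ft (fun x => (ρ x : ℂ)) l * ft b (-R - l) * κ l‖ +
      ‖∑ l ∈ univ.erase (0 : ZMod n), ft (fun x => (ρ x : ℂ)) l * ft b (-R - l) * κ l‖ := by
    have : ft (fun x => (ρ x : ℂ)) 0 * ft b (-R - 0) * κ 0 =
      (∑ l : ZMod n, ft (fun x => (ρ x : ℂ)) l * ft b (-R - l) * κ l) -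
      ∑ l ∈ univ.erase (0 : ZMod n), ft (fun x => (ρ x : ℂ)) l * ft b (-R - l) * κ l := by
      rw [hsplit]; ring
    rw [this]
    exact norm_sub_le _ _
  have h3' : ‖∑ l ∈ univ.erase (0 : ZMod n), ft (fun x => (ρ x : ℂ)) l * ft b (-R - l) * κ l‖ ≤
      ∑ l ∈ univ.erase (0 : ZMod n), Am ρ l * Bm b (-R - l) * Kc n m r l.val := by
    refine (norm_sum_le _ _).trans (le_of_eq ?_)
    apply Finset.sum_congr rfl
    intro l _
    rw [norm_mul, norm_mul, hκn]; rfl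
  have h4 : ‖ft (fun x => (ρ x : ℂ)) 0 * ft b (-R - 0) * κ 0‖ = Am ρ 0 * Bm b (-R) * Kc n m r 0 := by
    rw [norm_mul, norm_mul, hκn, sub_zero]
    simp [Am, Bm]
  linarith

end

end Rein69
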