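import Pool.Agent.Rein69.Desc

set_option autoImplicit false

namespace Rein69

open Complex Finset

lemma inB_append {Q : ℤ} {a c : List (ℤ × ℤ)} {x y : List ℝ} (h1 : InB Q a x) (h2 : InB Q c y) :
    InB Q (a ++ c) (x ++ y) := by
  induction h1 with
  | nil => exact h2
  | cons h _ ih => exact List.Forall₂.cons h ih

lemma inB_rep {Q : ℤ} {p : ℤ × ℤ} (n : ℕ) (f : ℕ → ℝ)
    (h : ∀ i, i < n → (p.1 : ℝ) ≤ Q * f i ∧ Q * f i ≤ p.2) :
    InB Q (List.replicate n p) ((List.range n).map f) := by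
  induction n with
  | zero => exact List.Forall₂.nil
  | succ n ih =>
    rw [List.replicate_succ', List.range_succ, List.map_append]
    apply inB_append (ih (fun i hi => h i (by omega)))
    exact List.Forall₂.cons (h n (by omega)) List.Forall₂.nil

section
variable {H : ℕ} [NeZero (2 * H)]

/-- the certificate implies the volume bound -/
theorem Cfg.bound {Lo Hi : List ℤ} (htab : TabOK (2 * H) Lo Hi) (hLo : ∀ u, 0 ≤ Lo.getD u 0)
    {ρ : ZMod (2 * H) → ℝ} {b : ZMod (2 * H) → ℂ} {V : ℝ} (h : Cfg (2 * H) ρ b V)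
    {g : Bool} (hb : GaugeOK H g b) {κn κd : ℤ} (hκd : 0 < κd) (hκn : 3 * κd ≤ κn)
    {ds : List Desc} (hds : ds.all (Desc.ok H g) = true) {S : List Row}
    (hS : ds.map (Desc.row H Lo Hi κn κd) = S)
    {dl : List (ℕ × ℕ)} (hdl : dl.all (fun p => decide (2 * p.1 ≤ 6 * H ∧ 0 < p.2 ∧ p.2 < 2 * H)) = true)
    {L : List (Row × Row)} (hL : dl.map (fun p => (rowT H Lo Hi p.1 p.2, rowX H Hi p.1 p.2)) = L)
    {Q tI bI : ℤ} (hQ : 0 < Q) (htI : Q * (κn - 3 * κd) ≤ tI * (3 * κd)) (hbI0 : 0 ≤ bI)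
    (hbI : Q * Q * ((κn - 3 * κd) * (κn + 3 * κd)) ≤ bI * bI * (9 * κd * κd)) {C : Cert}
    (hcheck : check Q S L ⟨0, tI, List.replicate H (0, tI) ++ List.replicate (2 * H) (0, bI)⟩ C = true) :
    (κn / κd : ℝ) * (Real.sqrt 3 / 2) ≤ V := by
  by_contra hcon
  push Not at hcon
  have hκd' : (0 : ℝ) < κd := by exact_mod_cast hκd
  have hQ' : (0 : ℝ) < Q := by exact_mod_cast hQ
  have hκn' : 3 * (κd : ℝ) ≤ κn := by exact_mod_cast hκn
  have hρ : ∀ x, ρ x ≤ (κn / κd : ℝ) / 3 := fun x => h.ρ_le hcon (gauge_pair hb) x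
  set τ : ℝ := (κn / κd : ℝ) / 3 - 1 with hτdef
  have hτ : τ = (κn - 3 * κd) / (3 * κd) := by rw [hτdef]; field_simp
  have hτ0 : 0 ≤ τ := by rw [hτ]; apply div_nonneg <;> linarith
  have hVA := h.VA (τ := τ) (fun x => by have := hρ x; linarith)
  have ht0 := h.t_nonneg
  set t := Am ρ 0 - 1 with ht
  have hsumA : 0 ≤ ∑ l ∈ univ.erase (0 : ZMod (2 * H)), Am ρ l ^ 2 :=
    Finset.sum_nonneg (fun l _ => sq_nonneg _)
  have ht1 : t ≤ τ := by
    rcases ht0.eq_or_lt with h0 | h0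
    · rw [← h0]; exact hτ0
    · by_contra hc
      push Not at hc
      have : t * (τ - t) < 0 := mul_neg_of_pos_of_neg h0 (by linarith)
      linarith
  have hQt : Q * τ ≤ tI := by
    rw [hτ, mul_div_assoc', div_le_iff₀ (by positivity)]
    have : ((Q * (κn - 3 * κd) : ℤ) : ℝ) ≤ ((tI * (3 * κd) : ℤ) : ℝ) := by exact_mod_cast htI
    push_cast at this
    linarith
  have hB : ∀ l, Bm b l ^ 2 ≤ τ * (2 + τ) := by
    intro l
    have h1 : Bm b l ^ 2 ≤ ∑ l, Bm b l ^ 2 :=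
      Finset.single_le_sum (f := fun l => Bm b l ^ 2) (fun l _ => sq_nonneg _) (Finset.mem_univ l)
    have h2 := h.D_ineq
    have h3 : Am ρ 0 ^ 2 + ∑ l ∈ univ.erase (0 : ZMod (2 * H)), Am ρ l ^ 2 = ∑ l, Am ρ l ^ 2 :=
      Finset.add_sum_erase univ (fun l => Am ρ l ^ 2) (Finset.mem_univ 0)
    have h4 : Am ρ 0 = 1 + t := by rw [ht]; ring
    rw [h4] at h3
    have h5 : t * (2 + τ) ≤ τ * (2 + τ) := mul_le_mul_of_nonneg_right ht1 (by linarith)
    nlinarith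
  have hQB : ∀ l, Q * Bm b l ≤ bI := by
    intro l
    have hb0 := Bm_nonneg b l
    have hbI0' : (0 : ℝ) ≤ bI := by exact_mod_cast hbI0
    apply le_of_sq_le_sq _ hbI0'
    have h1 : (Q * Bm b l) ^ 2 ≤ Q ^ 2 * (τ * (2 + τ)) := by
      rw [mul_pow]; exact mul_le_mul_of_nonneg_left (hB l) (by positivity)
    refine h1.trans ?_
    have h2 : (2 + τ) = (κn + 3 * κd) / (3 * κd) := by rw [hτ]; field_simp; ring
    rw [h2, hτ, div_mul_div_comm, mul_div_assoc', div_le_iff₀ (by positivity)]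
    have : ((Q * Q * ((κn - 3 * κd) * (κn + 3 * κd)) : ℤ) : ℝ) ≤
      ((bI * bI * (9 * κd * κd) : ℤ) : ℝ) := by exact_mod_cast hbI
    push_cast at this
    nlinarith
  have hAQ : ∀ i, i < H → Q * Ar ρ (i + 1) ≤ tI := by
    intro i hi
    have h1 : Ar ρ (i + 1) ≤ t := by
      apply h.A_le
      intro h0
      have h2 := congrArg ZMod.val h0
      rw [val_cast' (by omega), ZMod.val_zero] at h2
      omega
    calc Q * Ar ρ (i + 1) ≤ Q * τ := mul_le_mul_of_nonneg_left (h1.trans ht1) hQ'.le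
      _ ≤ tI := hQt
  -- box membership
  have hmem : Bx.mem Q ⟨0, tI, List.replicate H (0, tI) ++ List.replicate (2 * H) (0, bI)⟩ t
      (xvec H (2 * H) (Ar ρ) (Br b)) := by
    refine ⟨?_, ?_, ?_⟩
    · push_cast; positivity
    · exact (mul_le_mul_of_nonneg_left ht1 hQ'.le).trans hQt
    · unfold xvec
      apply inB_append
      · apply inB_rep
        intro i hi
        refine ⟨?_, hAQ i hi⟩
        have := Ar_nonneg ρ (i + 1)
        push_cast; positivity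
      · apply inB_rep
        intro i _
        refine ⟨?_, hQB _⟩
        have := Br_nonneg b i
        push_cast; positivity
  refine check_sound hQ ?_ ?_ C _ hcheck hmem
  · intro R hR
    rw [← hS, List.mem_map] at hR
    obtain ⟨d, hd, rfl⟩ := hR
    rw [List.all_eq_true] at hds
    exact Desc.valid htab h hb hκd (by linarith) hcon.le hρ hLo d (hds d hd)
  · intro p hp s hs
    rw [← hL, List.mem_map] at hp
    obtain ⟨q, hq, rfl⟩ := hp
    rw [List.all_eq_true] at hdl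
    have := hdl q hq
    simp only [decide_eq_true_eq] at this
    exact validL htab h hLo q.1 q.2 this.1 this.2.1 this.2.2 s hs

end

/-- half angle enclosures for the cosine -/
lemma cos_half {x : ℝ} {c1 c2 d1 d2 : ℤ} (hx : |x| ≤ Real.pi) (h1 : (c1 : ℝ) ≤ DD * Real.cos x)
    (h2 : DD * Real.cos x ≤ c2) (hd1 : 0 ≤ d1) (hd2 : 0 ≤ d2) (e1 : d1 * d1 * 2 ≤ DD * (DD + c1))
    (e2 : DD * (DD + c2) ≤ d2 * d2 * 2) :
    (d1 : ℝ) ≤ DD * Real.cos (x / 2) ∧ DD * Real.cos (x / 2) ≤ d2 := by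
  have hD := DDpos
  have hc0 : 0 ≤ Real.cos (x / 2) := by
    apply Real.cos_nonneg_of_neg_pi_div_two_le_of_le
    · have := neg_abs_le x; linarith
    · have := le_abs_self x; linarith
  have hsq : 2 * (DD * Real.cos (x / 2)) ^ 2 = DD * (DD + DD * Real.cos x) := by
    have := Real.cos_sq (x / 2)
    have e : 2 * (x / 2) = x := by ring
    rw [e] at this
    rw [mul_pow, this]; ring
  have hd1' : (0 : ℝ) ≤ d1 := by exact_mod_cast hd1
  have hd2' : (0 : ℝ) ≤ d2 := by exact_mod_cast hd2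
  have e1' : (d1 : ℝ) * d1 * 2 ≤ DD * (DD + c1) := by exact_mod_cast e1
  have e2' : (DD : ℝ) * (DD + c2) ≤ d2 * d2 * 2 := by exact_mod_cast e2
  constructor
  · apply le_of_sq_le_sq _ (by positivity)
    nlinarith
  · apply le_of_sq_le_sq _ hd2'
    nlinarith

/-- half angle enclosures for the sine -/
lemma sin_half {x : ℝ} {c1 c2 d1 d2 : ℤ} (hx0 : 0 ≤ x) (hx : x ≤ Real.pi) (h1 : (c1 : ℝ) ≤ DD * Real.cos x)
    (h2 : DD * Real.cos x ≤ c2) (hd1 : 0 ≤ d1) (hd2 : 0 ≤ d2) (e1 : d1 * d1 * 2 ≤ DD * (DD - c2))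
    (e2 : DD * (DD - c1) ≤ d2 * d2 * 2) :
    (d1 : ℝ) ≤ DD * Real.sin (x / 2) ∧ DD * Real.sin (x / 2) ≤ d2 := by
  have hD := DDpos
  have hc0 : 0 ≤ Real.sin (x / 2) := by
    apply Real.sin_nonneg_of_nonneg_of_le_pi <;> linarith
  have hsq : 2 * (DD * Real.sin (x / 2)) ^ 2 = DD * (DD - DD * Real.cos x) := by
    have := Real.sin_sq_eq_half_sub (x / 2)
    have e : 2 * (x / 2) = x := by ring
    rw [e] at this
    rw [mul_pow, this]; ring
  have hd1' : (0 : ℝ) ≤ d1 := by exact_mod_cast hd1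
  have hd2' : (0 : ℝ) ≤ d2 := by exact_mod_cast hd2
  have e1' : (d1 : ℝ) * d1 * 2 ≤ DD * (DD - c2) := by exact_mod_cast e1
  have e2' : (DD : ℝ) * (DD - c1) ≤ d2 * d2 * 2 := by exact_mod_cast e2
  constructor
  · apply le_of_sq_le_sq _ (by positivity)
    nlinarith
  · apply le_of_sq_le_sq _ hd2'
    nlinarith

lemma cos_pi6 {d1 d2 : ℤ} (hd1 : 0 ≤ d1) (hd2 : 0 ≤ d2) (e1 : d1 * d1 * 4 ≤ DD * DD * 3)
    (e2 : DD * DD * 3 ≤ d2 * d2 * 4) :
    (d1 : ℝ) ≤ DD * Real.cos (Real.pi / 6) ∧ DD * Real.cos (Real.pi / 6) ≤ d2 := by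
  have hD := DDpos
  rw [Real.cos_pi_div_six]
  have hsq : 4 * (DD * (Real.sqrt 3 / 2)) ^ 2 = (DD : ℝ) * DD * 3 := by
    rw [mul_pow, div_pow, Real.sq_sqrt (by norm_num)]; ring
  have hd1' : (0 : ℝ) ≤ d1 := by exact_mod_cast hd1
  have hd2' : (0 : ℝ) ≤ d2 := by exact_mod_cast hd2
  have e1' : (d1 : ℝ) * d1 * 4 ≤ DD * DD * 3 := by exact_mod_cast e1
  have e2' : (DD : ℝ) * DD * 3 ≤ d2 * d2 * 4 := by exact_mod_cast e2
  constructor
  · apply le_of_sq_le_sq _ (by positivity)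
    nlinarith
  · apply le_of_sq_le_sq _ hd2'
    nlinarith

end Rein69
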