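import Mathlib

set_option autoImplicit false

namespace Rein69

open Complex

/-- cross product of two plane vectors -/
def cr (u v : ℂ) : ℝ := u.re * v.im - u.im * v.re

/-- a strictly convex norm on the plane -/
structure IsSN (N : ℂ → ℝ) : Prop where
  cont : Continuous N
  pos : ∀ z, z ≠ 0 → 0 < N z
  smul : ∀ (r : ℝ) (z : ℂ), N (r * z) = |r| * N z
  tri : ∀ z w, N (z + w) ≤ N z + N w
  strict : ∀ z w, cr z w ≠ 0 → N (z + w) < N z + N w

lemma cr_self (u : ℂ) : cr u u = 0 := by unfold cr; ring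
lemma cr_swap (u v : ℂ) : cr u v = - cr v u := by unfold cr; ring
lemma cr_add_left (u v w : ℂ) : cr (u + v) w = cr u w + cr v w := by
  unfold cr; simp; ring
lemma cr_add_right (u v w : ℂ) : cr u (v + w) = cr u v + cr u w := by
  unfold cr; simp; ring
lemma cr_sub_left (u v w : ℂ) : cr (u - v) w = cr u w - cr v w := by
  unfold cr; simp; ring
lemma cr_sub_right (u v w : ℂ) : cr u (v - w) = cr u v - cr u w := by
  unfold cr; simp; ring
lemma cr_smul_left (r : ℝ) (u v : ℂ) : cr (r * u) v = r * cr u v := by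
  unfold cr; simp; ring
lemma cr_smul_right (r : ℝ) (u v : ℂ) : cr u (r * v) = r * cr u v := by
  unfold cr; simp; ring
lemma cr_neg_left (u v : ℂ) : cr (-u) v = - cr u v := by
  unfold cr; simp; ring
lemma cr_neg_right (u v : ℂ) : cr u (-v) = - cr u v := by
  unfold cr; simp; ring
lemma cr_zero_left (v : ℂ) : cr 0 v = 0 := by simp [cr]
lemma cr_zero_right (v : ℂ) : cr v 0 = 0 := by simp [cr]

lemma cr_eq_im (u v : ℂ) : cr u v = ((starRingEnd ℂ) u * v).im := by
  simp [cr]; ring

/-- the basic three vector identity -/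
lemma cr_three (u v w : ℂ) :
    (cr u w : ℂ) * v = (cr v w : ℂ) * u + (cr u v : ℂ) * w := by
  apply Complex.ext
  · simp [cr]; ring
  · simp [cr]; ring

/-- expansion in a basis -/
lemma cr_expand (u w v : ℂ) (h : cr u w ≠ 0) :
    v = ((cr v w / cr u w : ℝ) : ℂ) * u + ((cr u v / cr u w : ℝ) : ℂ) * w := by
  have h' : (cr u w : ℂ) ≠ 0 := by exact_mod_cast h
  have := cr_three u v w
  push_cast
  field_simp
  rw [mul_comm]
  rw [this]

section
variable {N : ℂ → ℝ} (hN : IsSN N)
include hN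

lemma IsSN.zero : N 0 = 0 := by
  have := hN.smul 0 0
  simpa using this

lemma IsSN.nonneg (z : ℂ) : 0 ≤ N z := by
  by_cases h : z = 0
  · rw [h, hN.zero]
  · exact (hN.pos z h).le

lemma IsSN.neg (z : ℂ) : N (-z) = N z := by
  have := hN.smul (-1) z
  simpa using this

lemma IsSN.sub_comm (z w : ℂ) : N (z - w) = N (w - z) := by
  rw [← neg_sub, hN.neg]

lemma IsSN.smul_nonneg {r : ℝ} (hr : 0 ≤ r) (z : ℂ) : N (r * z) = r * N z := by
  rw [hN.smul, abs_of_nonneg hr]

lemma IsSN.ne_zero_of_one {z : ℂ} (h : N z = 1) : z ≠ 0 := by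
  rintro rfl
  rw [hN.zero] at h
  norm_num at h

/-- The three point inequality. -/
lemma IsSN.three {u v w : ℂ} (hu : N u = 1) (hv : N v = 1) (hw : N w = 1)
    (h1 : 0 ≤ cr u v) (h2 : 0 ≤ cr v w) (h3 : 0 ≤ cr u w) :
    cr u w ≤ cr u v + cr v w := by
  have h := congrArg N (cr_three u v w)
  rw [hN.smul_nonneg h3, hv] at h
  have h4 := hN.tri ((cr v w : ℂ) * u) ((cr u v : ℂ) * w)
  rw [hN.smul_nonneg h2, hN.smul_nonneg h1, hu, hw] at h4
  linarith

/-- monotonicity along the boundary -/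
lemma IsSN.mono {u v w : ℂ} (hu : N u = 1) (hv : N v = 1) (hw : N w = 1)
    (h1 : 0 < cr u v) (h2 : 0 < cr v w) (h3 : 0 < cr u w) :
    N (v - u) < N (w - u) ∧ N (w - v) < N (w - u) := by
  set α := cr v w / cr u w with hα
  set γ := cr u v / cr u w with hγ
  have hα0 : 0 < α := div_pos h2 h3
  have hγ0 : 0 < γ := div_pos h1 h3
  have hv' : v = (α : ℂ) * u + (γ : ℂ) * w := cr_expand u w v h3.ne'
  set s := α + γ with hs
  have hs0 : 0 < s := by positivity
  have hs1 : 1 < s := by
    have h4 := hN.strict ((α : ℂ) * u) ((γ : ℂ) * w) (by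
      rw [cr_smul_left, cr_smul_right]; positivity)
    rw [← hv', hv, hN.smul_nonneg hα0.le, hN.smul_nonneg hγ0.le, hu, hw] at h4
    linarith
  have hsc : (s : ℂ) ≠ 0 := by exact_mod_cast hs0.ne'
  set d : ℂ := ((1 / s : ℝ) : ℂ) * v with hd
  have hNd : N d = 1 / s := by rw [hd, hN.smul_nonneg (by positivity), hv, mul_one]
  have e1 : v - d = ((1 - 1 / s : ℝ) : ℂ) * v := by rw [hd]; push_cast; ring
  have hs2 : 0 < 1 - 1 / s := by
    have : 1 / s < 1 := by rw [div_lt_one hs0]; exact hs1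
    linarith
  have hN1 : N (v - d) = 1 - 1 / s := by rw [e1, hN.smul_nonneg hs2.le, hv, mul_one]
  have hsc2 : (s : ℂ) = (α : ℂ) + (γ : ℂ) := by rw [hs]; push_cast; ring
  have e2 : d - u = ((γ / s : ℝ) : ℂ) * (w - u) := by
    rw [hd, hv']; push_cast; field_simp; rw [hsc2]; ring
  have e3 : w - d = ((α / s : ℝ) : ℂ) * (w - u) := by
    rw [hd, hv']; push_cast; field_simp; rw [hsc2]; ring
  have hN2 : N (d - u) = γ / s * N (w - u) := by rw [e2, hN.smul_nonneg (by positivity)]
  have hN3 : N (w - d) = α / s * N (w - u) := by rw [e3, hN.smul_nonneg (by positivity)]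
  have hcru : cr (v - d) (d - u) ≠ 0 := by
    rw [e1, cr_smul_left, hd, cr_sub_right, cr_smul_right, cr_self, cr_swap v u]
    have : 0 < (1 - 1 / s) * cr u v := mul_pos hs2 h1
    intro h
    nlinarith
  have hcrw : cr (w - d) (d - v) ≠ 0 := by
    have e4 : d - v = ((-(1 - 1 / s) : ℝ) : ℂ) * v := by
      rw [← neg_sub, e1]; push_cast; ring
    rw [e4, cr_smul_right, hd, cr_sub_left, cr_smul_left, cr_self, cr_swap w v]
    have : 0 < (1 - 1 / s) * cr v w := mul_pos hs2 h2
    intro h
    nlinarith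
  have i1 := hN.strict (v - d) (d - u) hcru
  have i2 := hN.strict (w - d) (d - v) hcrw
  have j1 := hN.tri (w - d) d
  have j2 := hN.tri (u - d) d
  rw [sub_add_sub_cancel] at i1 i2
  rw [sub_add_cancel] at j1 j2
  rw [hN.sub_comm u d] at j2
  rw [hN.sub_comm d v] at i2
  rw [hN1, hN2] at i1
  rw [hN1, hN3] at i2
  rw [hw, hNd, hN3] at j1
  rw [hu, hNd, hN2] at j2
  have k1 : γ / s + α / s = 1 := by rw [← add_div, add_comm, ← hs, div_self hs0.ne']
  have k2 : N (w - u) = γ / s * N (w - u) + α / s * N (w - u) := by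
    rw [← add_mul, k1, one_mul]
  constructor <;> linarith

/-- admissible hexagon lemma -/
lemma IsSN.hex {u v : ℂ} (hu : N u = 1) (hv : N v = 1) (huv : N (u - v) = 1)
    {s t : ℝ} (hs : 0 ≤ s) (ht : 0 ≤ t) :
    s ≤ N (s * u + t * v) ∧ t ≤ N (s * u + t * v) := by
  constructor
  · have h := hN.tri (s * u + t * v) (t * (u - v))
    have e : (s : ℂ) * u + t * v + t * (u - v) = ((s + t : ℝ) : ℂ) * u := by push_cast; ring
    rw [e, hN.smul_nonneg (by positivity), hN.smul_nonneg ht, hu, huv] at h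
    linarith
  · have h := hN.tri (s * u + t * v) (s * (v - u))
    have e : (s : ℂ) * u + t * v + s * (v - u) = ((s + t : ℝ) : ℂ) * v := by push_cast; ring
    rw [e, hN.smul_nonneg (by positivity), hN.smul_nonneg hs, hv, hN.sub_comm, huv] at h
    linarith

lemma IsSN.hex_int_aux {u v : ℂ} (hu : N u = 1) (hv : N v = 1) (huv : N (u - v) = 1)
    (m n : ℤ) (hm : 0 ≤ m) (hn : 0 ≤ n) (h : m ≠ 0 ∨ n ≠ 0) :
    1 ≤ N (m * u + n * v) := by
  have h1 := hN.hex hu hv huv (s := (m : ℝ)) (t := (n : ℝ)) (by exact_mod_cast hm)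
    (by exact_mod_cast hn)
  push_cast at h1
  rcases h with h | h
  · have : (1 : ℝ) ≤ m := by
      have : (1 : ℤ) ≤ m := by omega
      exact_mod_cast this
    linarith [h1.1]
  · have : (1 : ℝ) ≤ n := by
      have : (1 : ℤ) ≤ n := by omega
      exact_mod_cast this
    linarith [h1.2]

/-- The lattice of an inscribed affine regular hexagon is admissible. -/
lemma IsSN.hex_int {u v : ℂ} (hu : N u = 1) (hv : N v = 1) (huv : N (u - v) = 1)
    (m n : ℤ) (h : m ≠ 0 ∨ n ≠ 0) : 1 ≤ N (m * u + n * v) := by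
  have hvu : N (v - u) = 1 := by rw [hN.sub_comm, huv]
  rcases le_total 0 m with hm | hm <;> rcases le_total 0 n with hn | hn
  · exact hN.hex_int_aux hu hv huv m n hm hn h
  · -- m ≥ 0, n ≤ 0
    rcases le_total (-n) m with hk | hk
    · -- (m+n) u + (-n) (u - v)
      have := hN.hex_int_aux hu huv (by rw [sub_sub_cancel]; exact hv) (m + n) (-n)
        (by omega) (by omega) (by omega)
      have e : ((m + n : ℤ) : ℂ) * u + ((-n : ℤ) : ℂ) * (u - v) = m * u + n * v := by
        push_cast; ring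
      rwa [e] at this
    · -- -( (-n-m) v + m (v - u))
      have := hN.hex_int_aux hv hvu (by rw [sub_sub_cancel]; exact hu) (-n - m) m
        (by omega) (by omega) (by omega)
      have e : ((-n - m : ℤ) : ℂ) * v + ((m : ℤ) : ℂ) * (v - u) = -(m * u + n * v) := by
        push_cast; ring
      rw [e, hN.neg] at this
      exact this
  · -- m ≤ 0, n ≥ 0
    rcases le_total (-m) n with hk | hk
    · have := hN.hex_int_aux hv hvu (by rw [sub_sub_cancel]; exact hu) (n + m) (-m)
        (by omega) (by omega) (by omega)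
      have e : ((n + m : ℤ) : ℂ) * v + ((-m : ℤ) : ℂ) * (v - u) = m * u + n * v := by
        push_cast; ring
      rwa [e] at this
    · have := hN.hex_int_aux hu huv (by rw [sub_sub_cancel]; exact hv) (-m - n) n
        (by omega) (by omega) (by omega)
      have e : ((-m - n : ℤ) : ℂ) * u + ((n : ℤ) : ℂ) * (u - v) = -(m * u + n * v) := by
        push_cast; ring
      rw [e, hN.neg] at this
      exact this
  · have := hN.hex_int_aux hu hv huv (-m) (-n) (by omega) (by omega) (by omega)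
    have e : ((-m : ℤ) : ℂ) * u + ((-n : ℤ) : ℂ) * v = -(m * u + n * v) := by
      push_cast; ring
    rw [e, hN.neg] at this
    exact this

end

end Rein69
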