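import Pool.Agent.Rein69.Final

set_option autoImplicit false

namespace Rein69

open MeasureTheory Set

section
variable {K : Set (ℝ × ℝ)} (hK : IsCompact K) (hconv : Convex ℝ K) (hint : (interior K).Nonempty)
  (hsym : ∀ x ∈ K, -x ∈ K)
include hK hconv hsym

/-- Minkowski's theorem for admissible lattices. -/
lemma vol_le_four_det {a b : ℝ × ℝ} (hd : a.1 * b.2 - a.2 * b.1 ≠ 0)
    (hadm : ∀ m n : ℤ, (m ≠ 0 ∨ n ≠ 0) → (m : ℝ) • a + (n : ℝ) • b ∉ interior K) :
    (volume K).toReal ≤ 4 * |a.1 * b.2 - a.2 * b.1| := by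
  by_contra hcon
  push Not at hcon
  set A : Matrix (Fin 2) (Fin 2) ℝ := !![a.1, a.2; b.1, b.2] with hA
  have hdet : A.det = a.1 * b.2 - a.2 * b.1 := by rw [hA, Matrix.det_fin_two_of]
  have hunit : IsUnit A := by
    rw [Matrix.isUnit_iff_isUnit_det, hdet]; exact hd.isUnit
  have hli : LinearIndependent ℝ A.row := Matrix.linearIndependent_rows_iff_isUnit.mpr hunit
  set bas := basisOfLinearIndependentOfCardEqFinrank hli (by simp) with hbas
  have hcoe : (bas : Fin 2 → Fin 2 → ℝ) = A.row := by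
    rw [hbas]; exact coe_basisOfLinearIndependentOfCardEqFinrank _ _
  have hvol : volume (ZSpan.fundamentalDomain bas) = ENNReal.ofReal |a.1 * b.2 - a.2 * b.1| := by
    rw [ZSpan.volume_fundamentalDomain, hcoe, ← hdet]; rfl
  set s : Set (Fin 2 → ℝ) := (MeasurableEquiv.finTwoArrow : (Fin 2 → ℝ) ≃ᵐ ℝ × ℝ) ⁻¹' interior K with hs
  have hvs : volume s = volume K := by
    have h1 : volume s = volume (interior K) := by
      rw [hs]
      exact (volume_preserving_finTwoArrow ℝ).measure_preimage_equiv _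
    rw [h1]
    have h2 := hconv.addHaar_frontier (volume : Measure (ℝ × ℝ))
    have h3 : volume K ≤ volume (interior K) := by
      calc volume K ≤ volume (interior K ∪ frontier K) := by
            apply measure_mono
            intro x hx
            by_cases h : x ∈ interior K
            · exact Or.inl h
            · exact Or.inr ⟨subset_closure hx, h⟩
        _ ≤ volume (interior K) + volume (frontier K) := measure_union_le _ _
        _ = volume (interior K) := by rw [h2, add_zero]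
    exact le_antisymm (measure_mono interior_subset) h3
  have hfin : volume K ≠ ⊤ := hK.measure_lt_top.ne
  have hmem : ∀ v : Fin 2 → ℝ, v ∈ s ↔ (v 0, v 1) ∈ interior K := by
    intro v; rfl
  have hsymint : ∀ x ∈ interior K, -x ∈ interior K := by
    intro x hx
    rw [mem_interior] at hx ⊢
    obtain ⟨U, hU, hUo, hxU⟩ := hx
    refine ⟨(fun y => -y) ⁻¹' U, ?_, hUo.preimage continuous_neg, by simpa using hxU⟩
    intro y hy
    have := hsym _ (hU hy)
    simpa using this
  have hconvint : Convex ℝ (interior K) := hconv.interior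
  have hlt : volume (ZSpan.fundamentalDomain bas) * 2 ^ Module.finrank ℝ (Fin 2 → ℝ) < volume s := by
    rw [hvol, hvs]
    have e : Module.finrank ℝ (Fin 2 → ℝ) = 2 := by simp
    rw [e, ← ENNReal.ofReal_toReal hfin]
    have e2 : (2 : ENNReal) ^ 2 = ENNReal.ofReal 4 := by
      rw [show (4 : ℝ) = 2 ^ 2 by norm_num, ENNReal.ofReal_pow (by norm_num)]; norm_num
    rw [e2, ← ENNReal.ofReal_mul (abs_nonneg _)]
    apply (ENNReal.ofReal_lt_ofReal_iff_of_nonneg (by positivity)).mpr
    linarith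
  have : Countable (Submodule.span ℤ (Set.range bas)).toAddSubgroup :=
    inferInstanceAs (Countable (Submodule.span ℤ (Set.range bas)))
  obtain ⟨x, hx0, hx⟩ := exists_ne_zero_mem_lattice_of_measure_mul_two_pow_lt_measure
    (L := (Submodule.span ℤ (Set.range bas)).toAddSubgroup)
    (ZSpan.isAddFundamentalDomain' bas volume) (s := s) (by
      intro v hv
      rw [hmem] at hv ⊢
      have := hsymint _ hv
      simpa using this) (by
      intro v hv w hw p q hp hq hpq
      rw [hmem] at hv hw ⊢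
      have := hconvint hv hw hp hq hpq
      simpa using this) hlt
  have hxs : (x : Fin 2 → ℝ) ∈ Submodule.span ℤ (Set.range bas) := x.2
  rw [Submodule.mem_span_range_iff_exists_fun] at hxs
  obtain ⟨c, hc⟩ := hxs
  rw [Fin.sum_univ_two] at hc
  have hc0 : (bas 0 : Fin 2 → ℝ) = ![a.1, a.2] := by
    rw [hcoe]; rfl
  have hc1 : (bas 1 : Fin 2 → ℝ) = ![b.1, b.2] := by
    rw [hcoe]; rfl
  rw [hc0, hc1] at hc
  rw [hmem] at hx
  have e0 : (x : Fin 2 → ℝ) 0 = c 0 * a.1 + c 1 * b.1 := by
    rw [← hc]; simp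
  have e1 : (x : Fin 2 → ℝ) 1 = c 0 * a.2 + c 1 * b.2 := by
    rw [← hc]; simp
  refine hadm (c 0) (c 1) ?_ ?_
  · by_contra h0
    push Not at h0
    apply hx0
    apply Subtype.ext
    rw [← hc, h0.1, h0.2]
    simp
  · have : ((c 0 : ℤ) : ℝ) • a + ((c 1 : ℤ) : ℝ) • b = ((x : Fin 2 → ℝ) 0, (x : Fin 2 → ℝ) 1) := by
      rw [e0, e1]
      ext <;> simp
    rw [this]; exact hx

end

/-- lower bound for the infimum of the ratios -/
theorem rho_ge {κ : ℝ} (hκ : 0 < κ)
    (hgood : ∀ (N : ℂ → ℝ) (V : ℝ), IsSN N → AreaBd N V → Good κ N V) :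
    κ ≤ sInf {r : ℝ | ∃ K : Set (ℝ × ℝ), IsCompact K ∧ Convex ℝ K ∧ (interior K).Nonempty ∧
      (∀ x ∈ K, -x ∈ K) ∧
      r = (MeasureTheory.volume K).toReal /
        sInf {d : ℝ | ∃ a b : ℝ × ℝ, d = abs (a.1 * b.2 - a.2 * b.1) ∧ d ≠ 0 ∧
          ∀ m n : ℤ, (m ≠ 0 ∨ n ≠ 0) → (m : ℝ) • a + (n : ℝ) • b ∉ interior K}} := by
  apply le_csInf
  · refine ⟨_, Metric.closedBall 0 1, isCompact_closedBall _ _, convex_closedBall _ _, ?_, ?_, rfl⟩
    · exact ⟨0, Metric.ball_subset_interior_closedBall (Metric.mem_ball_self one_pos)⟩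
    · intro x hx; simpa using hx
  · rintro r ⟨K, hK, hconv, hint, hsym, rfl⟩
    have hmain := bound_of_good hK hconv hint hsym hκ hgood
    set D := sInf {d : ℝ | ∃ a b : ℝ × ℝ, d = abs (a.1 * b.2 - a.2 * b.1) ∧ d ≠ 0 ∧
          ∀ m n : ℤ, (m ≠ 0 ∨ n ≠ 0) → (m : ℝ) • a + (n : ℝ) • b ∉ interior K} with hD
    have hVpos : 0 < (volume K).toReal := by
      apply ENNReal.toReal_pos
      · exact (lt_of_lt_of_le (isOpen_interior.measure_pos volume hint)
          (measure_mono interior_subset)).ne'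
      · exact hK.measure_lt_top.ne
    have hne : {d : ℝ | ∃ a b : ℝ × ℝ, d = abs (a.1 * b.2 - a.2 * b.1) ∧ d ≠ 0 ∧
          ∀ m n : ℤ, (m ≠ 0 ∨ n ≠ 0) → (m : ℝ) • a + (n : ℝ) • b ∉ interior K}.Nonempty := by
      obtain ⟨R, hR⟩ := hK.isBounded.subset_closedBall (0 : ℝ × ℝ)
      set T := max R 1 with hT
      have hT1 : 1 ≤ T := le_max_right _ _
      have hTR : R ≤ T := le_max_left _ _
      refine ⟨_, (T + 1, 0), (0, T + 1), rfl, ?_, ?_⟩
      · simp only [mul_zero, sub_zero]
        positivity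
      · intro m n hmn hin
        have h1 := hR (interior_subset hin)
        rw [mem_closedBall_zero_iff, Prod.norm_def] at h1
        simp only [Prod.smul_mk, smul_eq_mul, mul_zero, Prod.mk_add_mk, add_zero, zero_add,
          Real.norm_eq_abs, abs_mul] at h1
        have h2 := (le_max_left _ _).trans h1
        have h3 := (le_max_right _ _).trans h1
        have hTabs : |T + 1| = T + 1 := abs_of_pos (by linarith)
        rw [hTabs] at h2 h3
        rcases hmn with hm | hn
        · have h4 : (1 : ℝ) ≤ |(m : ℝ)| := by exact_mod_cast Int.one_le_abs hm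
          nlinarith
        · have h4 : (1 : ℝ) ≤ |(n : ℝ)| := by exact_mod_cast Int.one_le_abs hn
          nlinarith
    have hDpos : (volume K).toReal / 4 ≤ D := by
      apply le_csInf hne
      rintro d ⟨a, b, hd, hd0, hadm⟩
      have h0 : a.1 * b.2 - a.2 * b.1 ≠ 0 := by
        intro h; apply hd0; rw [hd, h, abs_zero]
      have := vol_le_four_det hK hconv hsym h0 hadm
      rw [hd]; linarith
    have hD0 : 0 < D := by linarith
    rw [le_div_iff₀ hD0]
    exact hmain

end Rein69
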