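import Pool.Agent.Rein69.Hex

set_option autoImplicit false

namespace Rein69

open Complex

/-- hexagon coordinate a of the inscribed hexagon starting in direction φ -/
noncomputable def hA (N : ℂ → ℝ) (φ : ℝ) : ℂ := hexA (P N φ) (P N (tau N φ))
/-- hexagon coordinate b -/
noncomputable def hB (N : ℂ → ℝ) (φ : ℝ) : ℂ := hexB (P N φ) (P N (tau N φ))

section
variable {N : ℂ → ℝ} (hN : IsSN N)
include hN

lemma IsSN.hA_tau (φ : ℝ) : hA N (tau N φ) = om * hA N φ := by
  unfold hA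
  rw [hN.P_tau_tau, hexA_next]

lemma IsSN.hB_tau (φ : ℝ) : hB N (tau N φ) = ob * hB N φ := by
  unfold hB
  rw [hN.P_tau_tau, hexB_next]

lemma IsSN.P_eq (φ : ℝ) : P N φ = hA N φ + hB N φ := hex_p _ _

lemma IsSN.P_tau_eq (φ : ℝ) : P N (tau N φ) = om * hA N φ + ob * hB N φ := hex_q _ _

lemma IsSN.det_pos (φ : ℝ) : 0 < cr (P N φ) (P N (tau N φ)) := by
  obtain ⟨k1, k2, k3⟩ := hN.tau_spec φ
  exact hN.cr_P_pos k1 k2

lemma IsSN.det_eq (φ : ℝ) : cr (P N φ) (P N (tau N φ)) =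
    Real.sqrt 3 / 2 * (normSq (hA N φ) - normSq (hB N φ)) := cr_hex' _ _

lemma IsSN.hB_lt (φ : ℝ) : normSq (hB N φ) < normSq (hA N φ) := by
  have h := hN.det_pos φ
  rw [hN.det_eq] at h
  have := s3_pos
  have h2 : 0 < normSq (hA N φ) - normSq (hB N φ) := by
    rcases (mul_pos_iff.mp h) with h | h
    · exact h.2
    · linarith [h.1]
  linarith

lemma IsSN.hA_ne (φ : ℝ) : hA N φ ≠ 0 := by
  intro h
  have h1 := hN.hB_lt φ
  rw [h, normSq_zero] at h1
  linarith [normSq_nonneg (hB N φ)]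

lemma IsSN.cont_hA : Continuous (hA N) := by
  unfold hA hexA
  have h1 := hN.cont_P
  have h2 : Continuous (fun φ => P N (tau N φ)) := h1.comp hN.tau_cont
  fun_prop

lemma IsSN.cone_aux {φ φ' : ℝ} (h1 : φ ≤ φ') (h2 : φ' ≤ tau N φ) :
    ∃ x y : ℝ, 0 ≤ x ∧ 0 ≤ y ∧ x ≤ 1 ∧ 1 ≤ x + y ∧
      x = cr (P N φ') (P N (tau N φ)) / cr (P N φ) (P N (tau N φ)) ∧
      y = cr (P N φ) (P N φ') / cr (P N φ) (P N (tau N φ)) ∧
      P N φ' = x * P N φ + y * P N (tau N φ) := by
  obtain ⟨k1, k2, k3⟩ := hN.tau_spec φ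
  have hc := hN.det_pos φ
  have hx : 0 ≤ cr (P N φ') (P N (tau N φ)) := hN.cr_P_nonneg h2 (by linarith)
  have hy : 0 ≤ cr (P N φ) (P N φ') := hN.cr_P_nonneg h1 (by linarith)
  have hexp := cr_expand (P N φ) (P N (tau N φ)) (P N φ') hc.ne'
  refine ⟨_, _, div_nonneg hx hc.le, div_nonneg hy hc.le, ?_, ?_, rfl, rfl, hexp⟩
  · have := (hN.hex (hN.N_P φ) (hN.N_P (tau N φ)) (by rw [hN.sub_comm]; exact k3)
      (div_nonneg hx hc.le) (div_nonneg hy hc.le)).1
    rw [← hexp, hN.N_P] at this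
    exact this
  · have := hN.tri (((cr (P N φ') (P N (tau N φ)) / cr (P N φ) (P N (tau N φ)) : ℝ) : ℂ) * P N φ)
      (((cr (P N φ) (P N φ') / cr (P N φ) (P N (tau N φ)) : ℝ) : ℂ) * P N (tau N φ))
    rw [← hexp, hN.N_P, hN.smul_nonneg (div_nonneg hx hc.le),
      hN.smul_nonneg (div_nonneg hy hc.le), hN.N_P, hN.N_P] at this
    linarith

/-- the hexagon rotates monotonically -/
lemma IsSN.rot {φ φ' : ℝ} (h1 : φ ≤ φ') (h2 : φ' ≤ tau N φ) :
    0 ≤ ((starRingEnd ℂ) (hA N φ) * hA N φ').im := by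
  have m := hN.tau_strictMono.monotone
  obtain ⟨x, y, hx0, hy0, hx1, hxy, hxe, hye, hp'⟩ := hN.cone_aux h1 h2
  obtain ⟨z, w, hz0, hw0, hz1, hzw, hze, hwe, hq'⟩ := hN.cone_aux (m h1) (m h2)
  obtain ⟨s, v, hs0, hv0, hs1, hsv, hse, hve, hr'⟩ := hN.cone_aux (m (m h1)) (m (m h2))
  set p := P N φ with hp
  set q := P N (tau N φ) with hq
  set p' := P N φ' with hp'd
  set q' := P N (tau N φ') with hq'd
  have hr : P N (tau N (tau N φ)) = q - p := hN.P_tau_tau φ
  have hrr : P N (tau N (tau N φ')) = q' - p' := hN.P_tau_tau φ'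
  have hmp : P N (tau N (tau N (tau N φ))) = -p := by rw [hN.P_tau_tau, hr]; ring
  rw [hr] at hze hwe hq'
  rw [hr, hrr, hmp] at hse hve hr'
  have hc : 0 < cr p q := hN.det_pos φ
  have hcqp : cr q p = - cr p q := cr_swap q p
  have hqr : cr q (q - p) = cr p q := by rw [cr_sub_right, cr_self, hcqp]; ring
  have hrmp : cr (q - p) (-p) = cr p q := by
    rw [cr_neg_right, cr_sub_left, cr_self, hcqp]; ring
  rw [hqr] at hze hwe
  rw [hrmp] at hse hve
  have c1 : cr p' q = x * cr p q := by rw [hxe]; field_simp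
  have c2 : cr p p' = y * cr p q := by rw [hye]; field_simp
  have c3 : cr q' (q - p) = z * cr p q := by rw [hze]; field_simp
  have c4 : cr q q' = w * cr p q := by rw [hwe]; field_simp
  have hs : s = z + w - y := by
    have e : cr (q' - p') (-p) = (z + w - y) * cr p q := by
      rw [cr_neg_right, cr_sub_left]
      have e1 : cr p' p = - (y * cr p q) := by rw [cr_swap, c2]
      have e2 : cr q' p = - ((z + w) * cr p q) := by
        rw [cr_sub_right] at c3
        have : cr q' q = - (w * cr p q) := by rw [cr_swap, c4]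
        linarith
      rw [e1, e2]; ring
    rw [hse, e]; field_simp
  have hv : v = x + y - z := by
    have e : cr (q - p) (q' - p') = (x + y - z) * cr p q := by
      rw [cr_sub_right, cr_sub_left q p p', c2, cr_swap q p', c1, cr_swap (q - p) q', c3]; ring
    rw [hve, e]; field_simp
  refine rot_alg (hN.hB_lt φ).le hx1 hz1 (by linarith) hxy hzw (by linarith)
    (hN.P_eq φ) (hN.P_tau_eq φ) hp' hq'

end

end Rein69
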