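import Pool.Agent.Rein69.Table

set_option autoImplicit false

namespace Rein69

open Complex Finset

/-- row scale -/
def SC : ℤ := 1000000000

/-- rows from functions -/
def mkRow (H n : ℕ) (k t1 t2 : ℤ) (fa fb : ℕ → ℤ × ℤ) : Row :=
  ⟨k, t1, t2, (List.range H).map fa ++ (List.range n).map fb⟩

/-- variable vector -/
def xvec (H n : ℕ) (A B : ℕ → ℝ) : List ℝ :=
  (List.range H).map (fun i => A (i + 1)) ++ (List.range n).map B

lemma valL_append (r1 r2 : List (ℤ × ℤ)) (x1 x2 : List ℝ) (h : r1.length = x1.length) :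
    valL (r1 ++ r2) (x1 ++ x2) = valL r1 x1 + valL r2 x2 := by
  induction r1 generalizing x1 with
  | nil =>
    cases x1 with
    | nil => simp [valL]
    | cons a x1 => simp at h
  | cons a r1 ih =>
    cases x1 with
    | nil => simp at h
    | cons y x1 =>
      simp only [List.length_cons, Nat.add_right_cancel_iff] at h
      simp only [List.cons_append, valL, ih x1 h]
      ring

lemma valL_map_range (n : ℕ) (f : ℕ → ℤ × ℤ) (g : ℕ → ℝ) :
    valL ((List.range n).map f) ((List.range n).map g) =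
      ∑ i ∈ range n, (((f i).1 : ℝ) * g i + ((f i).2 : ℝ) * g i ^ 2) := by
  induction n with
  | zero => simp [valL]
  | succ n ih =>
    rw [List.range_succ, List.map_append, List.map_append, valL_append _ _ _ _ (by simp), ih,
      Finset.sum_range_succ]
    simp [valL]

lemma val_mkRow (H n : ℕ) (k t1 t2 : ℤ) (fa fb : ℕ → ℤ × ℤ) (t : ℝ) (A B : ℕ → ℝ) :
    (mkRow H n k t1 t2 fa fb).val t (xvec H n A B) = k + t1 * t + t2 * t ^ 2 +
      ∑ i ∈ range H, (((fa i).1 : ℝ) * A (i + 1) + ((fa i).2 : ℝ) * A (i + 1) ^ 2) +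
      ∑ i ∈ range n, (((fb i).1 : ℝ) * B i + ((fb i).2 : ℝ) * B i ^ 2) := by
  unfold mkRow Row.val xvec
  simp only
  rw [valL_append _ _ _ _ (by simp), valL_map_range, valL_map_range n fb B]
  ring

/-- comparison of a real expression with an integer row -/
lemma val_ge {H n : ℕ} {k t1 t2 : ℤ} {fa fb : ℕ → ℤ × ℤ} {t : ℝ} {A B : ℕ → ℝ}
    (ht : 0 ≤ t) (hA : ∀ i, 0 ≤ A i) (hB : ∀ i, 0 ≤ B i) {k' t1' t2' : ℝ} {a1 a2 b1 b2 : ℕ → ℝ}
    (hk : SC * k' ≤ k) (h1 : SC * t1' ≤ t1) (h2 : SC * t2' ≤ t2)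
    (ha1 : ∀ i, i < H → SC * a1 i ≤ (fa i).1) (ha2 : ∀ i, i < H → SC * a2 i ≤ (fa i).2)
    (hb1 : ∀ i, i < n → SC * b1 i ≤ (fb i).1) (hb2 : ∀ i, i < n → SC * b2 i ≤ (fb i).2) :
    SC * (k' + t1' * t + t2' * t ^ 2 + ∑ i ∈ range H, (a1 i * A (i + 1) + a2 i * A (i + 1) ^ 2) +
      ∑ i ∈ range n, (b1 i * B i + b2 i * B i ^ 2)) ≤
    (mkRow H n k t1 t2 fa fb).val t (xvec H n A B) := by
  rw [val_mkRow]
  have e1 : (SC : ℝ) * ∑ i ∈ range H, (a1 i * A (i + 1) + a2 i * A (i + 1) ^ 2) ≤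
      ∑ i ∈ range H, (((fa i).1 : ℝ) * A (i + 1) + ((fa i).2 : ℝ) * A (i + 1) ^ 2) := by
    rw [Finset.mul_sum]
    apply Finset.sum_le_sum
    intro i hi
    have hi' := Finset.mem_range.mp hi
    have q1 := mul_le_mul_of_nonneg_right (ha1 i hi') (hA (i + 1))
    have q2 := mul_le_mul_of_nonneg_right (ha2 i hi') (sq_nonneg (A (i + 1)))
    linarith
  have e2 : (SC : ℝ) * ∑ i ∈ range n, (b1 i * B i + b2 i * B i ^ 2) ≤
      ∑ i ∈ range n, (((fb i).1 : ℝ) * B i + ((fb i).2 : ℝ) * B i ^ 2) := by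
    rw [Finset.mul_sum]
    apply Finset.sum_le_sum
    intro i hi
    have hi' := Finset.mem_range.mp hi
    have q1 := mul_le_mul_of_nonneg_right (hb1 i hi') (hB i)
    have q2 := mul_le_mul_of_nonneg_right (hb2 i hi') (sq_nonneg (B i))
    linarith
  have e3 := mul_le_mul_of_nonneg_right h1 ht
  have e4 := mul_le_mul_of_nonneg_right h2 (sq_nonneg t)
  rw [mul_add, mul_add, mul_add, mul_add]
  linarith

/-- folding of a symmetric sum -/
lemma fold_sum (H : ℕ) (g : ℕ → ℝ) (hH : 0 < H) :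
    ∑ k ∈ range (2 * H), g k = g 0 +
      ∑ i ∈ range H, (g (i + 1) + if i + 1 < H then g (2 * H - (i + 1)) else 0) := by
  obtain ⟨K, rfl⟩ : ∃ K, H = K + 1 := ⟨H - 1, by omega⟩
  have e : 2 * (K + 1) = (K + 1 + 1) + K := by ring
  rw [Finset.sum_add_distrib]
  have e1 : ∑ k ∈ range (2 * (K + 1)), g k =
      ∑ k ∈ range (K + 1 + 1), g k + ∑ k ∈ range K, g (K + 1 + 1 + k) := by
    rw [e, Finset.sum_range_add]
  have e2 : ∑ i ∈ range (K + 1), (if i + 1 < K + 1 then g (2 * (K + 1) - (i + 1)) else 0) =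
      ∑ k ∈ range K, g (K + 1 + 1 + k) := by
    rw [Finset.sum_range_succ, if_neg (by omega), add_zero,
      ← Finset.sum_range_reflect (fun k => g (K + 1 + 1 + k)) K]
    apply Finset.sum_congr rfl
    intro i hi
    have hi' := Finset.mem_range.mp hi
    rw [if_pos (by omega)]
    congr 1; omega
  rw [e1, e2, Finset.sum_range_succ' g (K + 1)]
  ring

section
variable {H : ℕ} [NeZero (2 * H)]

/-- rho amplitudes indexed by naturals -/
noncomputable def Ar (ρ : ZMod (2 * H) → ℝ) (i : ℕ) : ℝ := Am ρ (i : ZMod (2 * H))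
/-- b amplitudes indexed by naturals -/
noncomputable def Br (b : ZMod (2 * H) → ℂ) (i : ℕ) : ℝ := Bm b (i : ZMod (2 * H))

lemma Hpos : 0 < H := by
  have := NeZero.pos (2 * H)
  omega

lemma Ar_reflect (ρ : ZMod (2 * H) → ℝ) {i : ℕ} (h : i ≤ 2 * H) : Ar ρ (2 * H - i) = Ar ρ i := by
  unfold Ar
  rw [← Am_neg ρ (i : ZMod (2 * H))]
  congr 1
  rw [Nat.cast_sub h]
  simp

lemma sum_zmod_range (f : ZMod (2 * H) → ℝ) :
    ∑ x, f x = ∑ k ∈ range (2 * H), f (k : ZMod (2 * H)) := by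
  have h := sum_range_zmod (n := 2 * H) (fun x => ((f x : ℝ) : ℂ))
  have h2 : ((∑ k ∈ range (2 * H), f (k : ZMod (2 * H)) : ℝ) : ℂ) = ((∑ x, f x : ℝ) : ℂ) := by
    push_cast
    exact h
  exact_mod_cast h2.symm

lemma val_cast' {i : ℕ} (h : i < 2 * H) : ((i : ZMod (2 * H))).val = i := ZMod.val_cast_of_lt h

/-- the A part of a folded sum -/
lemma foldA (ρ : ZMod (2 * H) → ℝ) (s : ℕ → ℝ) :
    ∑ k ∈ range (2 * H), s k * Ar ρ k ^ 2 = s 0 * Ar ρ 0 ^ 2 +
      ∑ i ∈ range H, (s (i + 1) + if i + 1 < H then s (2 * H - (i + 1)) else 0) * Ar ρ (i + 1) ^ 2 := by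
  rw [fold_sum H _ Hpos]
  congr 1
  apply Finset.sum_congr rfl
  intro i hi
  have hi' := Finset.mem_range.mp hi
  split_ifs with h
  · rw [Ar_reflect ρ (by omega)]; ring
  · ring

lemma Sq_range (ρ : ZMod (2 * H) → ℝ) (b : ZMod (2 * H) → ℂ) (d : ℕ) :
    Sq ρ b d = sn (2 * H) d * Ar ρ 0 ^ 2 +
      ∑ i ∈ range H, (sn (2 * H) ((6 * ((i + 1 : ℕ) : ℤ) + 1) * d) +
        if i + 1 < H then sn (2 * H) ((6 * ((2 * H - (i + 1) : ℕ) : ℤ) + 1) * d) else 0) *
        Ar ρ (i + 1) ^ 2 +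
      ∑ l ∈ range (2 * H), sn (2 * H) ((6 * (l : ℤ) - 1) * d) * Br b l ^ 2 := by
  have h := foldA ρ (fun k => sn (2 * H) ((6 * (k : ℤ) + 1) * d))
  simp only [Nat.cast_zero, mul_zero, zero_add, one_mul] at h
  rw [← h]
  unfold Sq
  rw [Finset.sum_add_distrib, sum_zmod_range, sum_zmod_range]
  congr 1
  · apply Finset.sum_congr rfl
    intro k hk
    rw [val_cast' (Finset.mem_range.mp hk)]
    unfold Ar; ring
  · apply Finset.sum_congr rfl
    intro k hk
    rw [val_cast' (Finset.mem_range.mp hk)]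
    unfold Br; ring

/-- index of the partner mode -/
def pidx (H r l : ℕ) : ℕ := (4 * H - r - l) % (2 * H)

lemma pidx_cast {r l : ℕ} (hr : r ≤ 2 * H) (hl : l ≤ 2 * H) :
    ((pidx H r l : ℕ) : ZMod (2 * H)) = -(((r : ℤ)) : ZMod (2 * H)) - (l : ZMod (2 * H)) := by
  unfold pidx
  rw [ZMod.natCast_mod, Nat.cast_sub (by omega), Nat.cast_sub (by omega)]
  have : ((4 * H : ℕ) : ZMod (2 * H)) = 0 := by
    have : 4 * H = 2 * (2 * H) := by ring
    rw [this, Nat.cast_mul, ZMod.natCast_self, mul_zero]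
  rw [this]; push_cast; ring

lemma pidx_lt (r l : ℕ) : pidx H r l < 2 * H := Nat.mod_lt _ (NeZero.pos _)

/-- sum over nonzero modes with the partner index -/
lemma sum_partner (r : ℕ) (hr : r < 2 * H) (hr0 : 0 < r) (K : ℕ → ℝ) (b : ZMod (2 * H) → ℂ)
    (F : ℝ → ℝ) :
    ∑ l ∈ univ.erase (0 : ZMod (2 * H)), K l.val * F (Bm b (-(((r : ℤ)) : ZMod (2 * H)) - l)) =
      ∑ l ∈ range (2 * H), (if l = 2 * H - r then 0 else K (pidx H r l)) * F (Br b l) := by
  set R : ZMod (2 * H) := (((r : ℤ)) : ZMod (2 * H)) with hR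
  have e1 : ∑ l ∈ univ.erase (0 : ZMod (2 * H)), K l.val * F (Bm b (-R - l)) =
      ∑ l : ZMod (2 * H), (if l = 0 then 0 else K l.val) * F (Bm b (-R - l)) := by
    rw [← Finset.add_sum_erase univ _ (Finset.mem_univ (0 : ZMod (2 * H)))]
    rw [if_pos rfl, zero_mul, zero_add]
    apply Finset.sum_congr rfl
    intro l hl
    rw [if_neg (Finset.ne_of_mem_erase hl)]
  rw [e1, ← Equiv.sum_comp (Equiv.subLeft (-R))]
  simp only [Equiv.subLeft_apply, sub_sub_cancel]
  rw [sum_zmod_range]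
  apply Finset.sum_congr rfl
  intro l hl
  have hl' := Finset.mem_range.mp hl
  have hp : -R - (l : ZMod (2 * H)) = ((pidx H r l : ℕ) : ZMod (2 * H)) :=
    (pidx_cast hr.le hl'.le).symm
  have hv : (-R - (l : ZMod (2 * H))).val = pidx H r l := by
    rw [hp, val_cast' (pidx_lt r l)]
  have hz : (-R - (l : ZMod (2 * H)) = 0) ↔ l = 2 * H - r := by
    rw [← ZMod.val_eq_zero, hv]
    unfold pidx
    constructor
    · intro h
      have h2 : 2 * H ∣ (4 * H - r - l) := Nat.dvd_of_mod_eq_zero h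
      obtain ⟨c, hc⟩ := h2
      have hc1 : c = 1 := by
        have h3 : 0 < 4 * H - r - l := by omega
        have h4 : 4 * H - r - l < 2 * (2 * H) := by omega
        rw [hc] at h3 h4
        have : c < 2 := by
          by_contra hcon
          push Not at hcon
          have : 2 * H * 2 ≤ 2 * H * c := Nat.mul_le_mul_left _ hcon
          omega
        have : 0 < c := Nat.pos_of_mul_pos_left h3 |> fun _ => by
          by_contra hcon
          have : c = 0 := by omega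
          rw [this] at h3; simp at h3
        omega
      rw [hc1] at hc
      omega
    · intro h
      rw [h]
      have : 4 * H - r - (2 * H - r) = 2 * H := by omega
      rw [this]; exact Nat.mod_self _
  rw [hv]
  congr 1
  by_cases h : l = 2 * H - r
  · rw [if_pos h, if_pos (hz.mpr h)]
  · rw [if_neg h, if_neg (fun h' => h (hz.mp h'))]

end

end Rein69
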