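import Pool.Agent.Rein69.Gauge

set_option autoImplicit false

namespace Rein69

open Complex Finset

/-- unit complex number with angle `x` -/
noncomputable def ex (x : ℝ) : ℂ := exp ((x : ℂ) * I)

lemma ex_add (x y : ℝ) : ex (x + y) = ex x * ex y := by
  unfold ex; rw [← Complex.exp_add]; push_cast; ring_nf

lemma ex_zero : ex 0 = 1 := by unfold ex; simp

lemma conj_ex (x : ℝ) : (starRingEnd ℂ) (ex x) = ex (-x) := by
  unfold ex
  rw [← Complex.exp_conj, map_mul, Complex.conj_ofReal, Complex.conj_I]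
  congr 1; push_cast; ring

lemma norm_ex (x : ℝ) : ‖ex x‖ = 1 := Complex.norm_exp_ofReal_mul_I x

lemma ex_re (x : ℝ) : (ex x).re = Real.cos x := Complex.exp_ofReal_mul_I_re x
lemma ex_im (x : ℝ) : (ex x).im = Real.sin x := Complex.exp_ofReal_mul_I_im x

lemma ex_mul_ex_neg (x : ℝ) : ex x * ex (-x) = 1 := by
  rw [← ex_add]; simp [ex_zero]

/-- reduction to the balanced case -/
theorem reduce {κ : ℝ} (h : ∀ (N : ℂ → ℝ) (V : ℝ), IsSN N → AreaBd N V →
    ∀ φ0 ψ ρ0 ρ4 β, Balanced N φ0 ψ ρ0 ρ4 β → Good κ N V) :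
    ∀ (N : ℂ → ℝ) (V : ℝ), IsSN N → AreaBd N V → Good κ N V := by
  intro N V hN hV
  have hD1 : 0 < normSq (hA N 0) - normSq (hB N 0) := by linarith [hN.hB_lt 0]
  apply Good.of_comp_lin (c := hA N 0) (d := hB N 0) hD1
  have hN1 := hN.comp_lin hD1
  have hV1 := hV.comp_lin hD1
  have e1 : lin (hA N 0) (hB N 0) 1 = P N 0 := by
    rw [hN.P_eq 0]; simp [lin]
  have e2 : lin (hA N 0) (hB N 0) om = P N (tau N 0) := by
    rw [hN.P_tau_eq 0]; simp [lin, conj_om]; ring
  obtain ⟨c, d, hcd, φ0, ψ, ρ0, ρ4, β, hbal⟩ := balanced_of_regular hN1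
    (by simp only [e1]; exact hN.N_P 0) (by simp only [e2]; exact hN.N_P _)
    (by simp only [lin_sub, e1, e2]; exact (hN.tau_spec 0).2.2)
  exact Good.of_comp_lin hcd (h _ _ (hN1.comp_lin hcd) (hV1.comp_lin hcd) _ _ _ _ _ hbal)

/-- a cyclic sequence of inscribed hexagons with equally spaced rotation angles -/
structure HSeq (N : ℂ → ℝ) (n : ℕ) (Φ : ℕ → ℝ) (ρ : ℕ → ℝ) (b : ℕ → ℂ) : Prop where
  mono : StrictMono Φ
  next : ∀ k, Φ (k + n) = tau N (Φ k)
  a : ∀ k, hA N (Φ k) = ρ k * ex (k * (Real.pi / (3 * n)))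
  bb : ∀ k, hB N (Φ k) = b k * ex (-(k * (Real.pi / (3 * n))))
  ρpos : ∀ k, 0 < ρ k
  ρper : ∀ k, ρ (k + n) = ρ k
  bper : ∀ k, b (k + n) = b k

lemma exists_seq {N : ℂ → ℝ} (hN : IsSN N) {φ0 ψ ρ0 ρ4 : ℝ} {β : ℂ}
    (hb : Balanced N φ0 ψ ρ0 ρ4 β) (m : ℕ) (hm : 0 < m) :
    ∃ Φ ρ b, HSeq N (2 * m) Φ ρ b ∧ b 0 + b m = 0 := by
  have hpi := Real.pi_pos
  have hm' : (0 : ℝ) < m := by exact_mod_cast hm
  set n := 2 * m with hn
  have hn0 : 0 < n := by omega
  have hn' : (n : ℝ) = 2 * m := by rw [hn]; push_cast; ring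
  set θ : ℝ := Real.pi / (3 * n) with hθ
  have hnθ : n * θ = Real.pi / 3 := by rw [hθ, hn']; field_simp
  have hmθ : m * θ = Real.pi / 6 := by rw [hθ, hn']; field_simp; norm_num
  have hθ0 : 0 < θ := by rw [hθ, hn']; positivity
  have hex : ∀ k : ℕ, k < n → ∃ φ r : ℝ, φ0 ≤ φ ∧ φ < tau N φ0 ∧ 0 < r ∧
      hA N φ = r * ex (k * θ) ∧ (k = 0 → φ = φ0) ∧ (k = m → φ = ψ) := by
    intro k hk
    by_cases hk0 : k = 0
    · refine ⟨φ0, ρ0, le_refl _, (hN.tau_spec φ0).1, hb.pos0, ?_, fun _ => rfl, ?_⟩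
      · rw [hb.a0, hk0]; simp [ex_zero]
      · intro h; omega
    · by_cases hkm : k = m
      · refine ⟨ψ, ρ4, hb.lt1.le, hb.lt2, hb.pos4, ?_, fun h => absurd h hk0, fun _ => rfl⟩
        rw [hb.a4, hkm, hmθ]; rfl
      · have hk1 : (0 : ℝ) < k := by
          have : 0 < k := by omega
          exact_mod_cast this
        obtain ⟨φ, h1, h2, r, hr, h3⟩ := hN.exists_rot hb.pos0 hb.a0 (θ := k * θ)
          (by positivity) (by
            rw [← hnθ]
            have : (k : ℝ) < n := by exact_mod_cast hk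
            nlinarith)
        exact ⟨φ, r, h1.le, h2, hr, h3, fun h => absurd h hk0, fun h => absurd h hkm⟩
  choose! g r hg1 hg2 hr hgA hg0 hgm using hex
  have hgmono : ∀ i j, i < j → j < n → g i < g j := by
    intro i j hij hj
    have hi : i < n := hij.trans hj
    by_contra hcon
    push Not at hcon
    have h1 : g i ≤ tau N (g j) :=
      ((hg2 i hi).trans_le (hN.tau_strictMono.monotone (hg1 j hj))).le
    have h2 := hN.rot hcon h1
    rw [hgA i hi, hgA j hj, map_mul, Complex.conj_ofReal, conj_ex] at h2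
    have e : ((r j : ℂ) * ex (-(j * θ)) * ((r i : ℂ) * ex (i * θ))).im =
        r j * (r i * Real.sin (i * θ - j * θ)) := by
      have : (r j : ℂ) * ex (-(j * θ)) * ((r i : ℂ) * ex (i * θ)) =
          (r j : ℂ) * ((r i : ℂ) * (ex (i * θ - j * θ))) := by
        rw [sub_eq_add_neg, ex_add]; ring
      rw [this, Complex.im_ofReal_mul, Complex.im_ofReal_mul, ex_im]
    rw [e] at h2
    have hij' : (i : ℝ) < j := by exact_mod_cast hij
    have hjn : (j : ℝ) < n := by exact_mod_cast hj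
    have hi0 : (0 : ℝ) ≤ i := by positivity
    have h3 : Real.sin (i * θ - j * θ) < 0 := by
      apply Real.sin_neg_of_neg_of_neg_pi_lt
      · nlinarith
      · have : j * θ < Real.pi / 3 := by rw [← hnθ]; nlinarith
        have : 0 ≤ i * θ := by positivity
        linarith
    have h4 : r i * Real.sin (i * θ - j * θ) < 0 := mul_neg_of_pos_of_neg (hr i hi) h3
    have h5 := mul_neg_of_pos_of_neg (hr j hj) h4
    linarith
  set Φ : ℕ → ℝ := fun k => (tau N)^[k / n] (g (k % n)) with hΦ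
  set ρ : ℕ → ℝ := fun k => r (k % n) with hρ
  set b : ℕ → ℂ := fun k => hB N (Φ k) * ex (k * θ) with hbdef
  have hnext : ∀ k, Φ (k + n) = tau N (Φ k) := by
    intro k
    simp only [hΦ]
    rw [Nat.add_div_right _ hn0, Nat.add_mod_right, Function.iterate_succ_apply']
  have hΦlt : ∀ k, k < n → Φ k = g k := by
    intro k hk
    simp only [hΦ]
    rw [Nat.div_eq_of_lt hk, Nat.mod_eq_of_lt hk]; rfl
  have hmono : StrictMono Φ := by
    apply strictMono_nat_of_lt_succ
    intro k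
    simp only [hΦ]
    have hkn : k % n < n := Nat.mod_lt _ hn0
    have hdm : n * (k / n) + k % n = k := Nat.div_add_mod k n
    by_cases hc : k % n + 1 < n
    · have hdm' : k / n * n + k % n = k := by rw [mul_comm]; exact hdm
      have e1 : (k + 1) / n = k / n := by
        apply Nat.div_eq_of_lt_le
        · linarith [Nat.zero_le (k % n)]
        · rw [add_mul]; linarith
      have e2 : (k + 1) % n = k % n + 1 := by
        have := Nat.div_add_mod (k + 1) n
        rw [e1] at this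
        omega
      rw [e1, e2]
      exact hN.tau_strictMono.iterate _ (hgmono _ _ (Nat.lt_succ_self _) hc)
    · have hc' : k % n + 1 = n := by omega
      have e0 : k + 1 = n * (k / n + 1) := by
        rw [mul_add]; omega
      have e1 : (k + 1) / n = k / n + 1 := by
        rw [e0]; exact Nat.mul_div_cancel_left _ hn0
      have e2 : (k + 1) % n = 0 := by
        rw [e0]; exact Nat.mul_mod_right _ _
      rw [e1, e2, Function.iterate_succ_apply]
      apply hN.tau_strictMono.iterate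
      rw [hg0 0 hn0 rfl]
      exact hg2 _ hkn
  have hA' : ∀ k, hA N (Φ k) = ρ k * ex (k * θ) := by
    intro k
    induction k using Nat.strong_induction_on with
    | _ k ih =>
      by_cases hk : k < n
      · rw [hΦlt k hk, hgA k hk]
        simp only [hρ]
        rw [Nat.mod_eq_of_lt hk]
      · obtain ⟨k', rfl⟩ : ∃ k', k = k' + n := ⟨k - n, by omega⟩
        rw [hnext, hN.hA_tau, ih k' (by omega)]
        have e : ((k' + n : ℕ) : ℝ) * θ = k' * θ + Real.pi / 3 := by
          push_cast; rw [add_mul, hnθ]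
        rw [e, ex_add]
        simp only [hρ]
        rw [Nat.add_mod_right, om_eq_exp]
        unfold ex
        ring
  refine ⟨Φ, ρ, b, ⟨hmono, hnext, hA', ?_, ?_, ?_, ?_⟩, ?_⟩
  · intro k
    simp only [hbdef]
    rw [mul_assoc, ex_mul_ex_neg, mul_one]
  · intro k
    exact hr _ (Nat.mod_lt _ hn0)
  · intro k
    simp only [hρ]
    rw [Nat.add_mod_right]
  · intro k
    simp only [hbdef]
    rw [hnext, hN.hB_tau]
    have e : ((k + n : ℕ) : ℝ) * θ = k * θ + Real.pi / 3 := by
      push_cast; rw [add_mul, hnθ]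
    have e2 : ex (Real.pi / 3) = om := by rw [om_eq_exp]; rfl
    rw [e, ex_add, e2]
    linear_combination (hB N (Φ k) * ex (k * θ)) * om_mul_ob
  · simp only [hbdef]
    have hmn : m < n := by omega
    rw [hΦlt 0 hn0, hΦlt m hmn, hg0 0 hn0 rfl, hgm m hmn rfl, hb.b0, hb.b4, hmθ]
    have : exp ((-(Real.pi / 6) : ℝ) * I) = ex (-(Real.pi / 6)) := rfl
    rw [this]
    have h2 := ex_mul_ex_neg (Real.pi / 6)
    simp only [Nat.cast_zero, zero_mul, ex_zero]
    linear_combination (-β) * h2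

section
variable {N : ℂ → ℝ} (hN : IsSN N) {n : ℕ} {Φ : ℕ → ℝ} {ρ : ℕ → ℝ} {b : ℕ → ℂ}
  (h : HSeq N n Φ ρ b)
include hN h

lemma HSeq.half (k : ℕ) : Φ (k + 3 * n) = Φ k + Real.pi := by
  have e : k + 3 * n = k + n + n + n := by ring
  rw [e, h.next, h.next, h.next, hN.tau_three]

lemma HSeq.pos {i j : ℕ} (h1 : i < j) (h2 : j < i + 3 * n) :
    0 < cr (P N (Φ i)) (P N (Φ j)) := by
  apply hN.cr_P_pos (h.mono h1)
  rw [← h.half hN]
  exact h.mono h2

lemma HSeq.nonneg {i j : ℕ} (h1 : i ≤ j) (h2 : j ≤ i + 3 * n) :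
    0 ≤ cr (P N (Φ i)) (P N (Φ j)) := by
  apply hN.cr_P_nonneg (h.mono.monotone h1)
  rw [← h.half hN]
  exact h.mono.monotone h2

lemma HSeq.three {i j l : ℕ} (h1 : i ≤ j) (h2 : j ≤ l) (h3 : l ≤ i + 3 * n) :
    cr (P N (Φ i)) (P N (Φ l)) ≤ cr (P N (Φ i)) (P N (Φ j)) + cr (P N (Φ j)) (P N (Φ l)) :=
  hN.three (hN.N_P _) (hN.N_P _) (hN.N_P _) (h.nonneg hN h1 (by omega))
    (h.nonneg hN h2 (by omega)) (h.nonneg hN (h1.trans h2) h3)

lemma HSeq.P_half (k : ℕ) : P N (Φ (k + 3 * n)) = - P N (Φ k) := by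
  rw [h.half hN, hN.P_add_pi]

/-- area bound for the sub polygon with step `s` -/
lemma HSeq.area_step {V : ℝ} (hV : AreaBd N V) (s M i0 : ℕ) (hs : 0 < s) (hM : 2 ≤ M)
    (hsM : s * M = 3 * n) :
    ∑ i ∈ range M, cr (P N (Φ (i0 + s * i))) (P N (Φ (i0 + s * (i + 1)))) ≤ V := by
  apply hV M (fun i => P N (Φ (i0 + s * i))) hM (fun i => hN.N_P _)
  · simp only [hsM, mul_zero, add_zero]
    exact h.P_half hN i0
  · intro i j hij hjM hor
    apply h.pos hN
    · have : s * i < s * j := Nat.mul_lt_mul_of_pos_left hij hs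
      omega
    · have h1 : s * j ≤ s * M := Nat.mul_le_mul_left s hjM
      rcases hor with h2 | h2
      · have : 0 < s * i := Nat.mul_pos hs h2
        omega
      · have : s * j < s * M := Nat.mul_lt_mul_of_pos_left h2 hs
        omega

/-- area bound for the twelve-gon given by two hexagons -/
lemma HSeq.area_pair {V : ℝ} (hV : AreaBd N V) (i j : ℕ) (hij : i < j) (hj : j < i + n) :
    cr (P N (Φ i)) (P N (Φ j)) + cr (P N (Φ j)) (P N (Φ (i + n))) +
    cr (P N (Φ (i + n))) (P N (Φ (j + n))) + cr (P N (Φ (j + n))) (P N (Φ (i + 2 * n))) +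
    cr (P N (Φ (i + 2 * n))) (P N (Φ (j + 2 * n))) +
    cr (P N (Φ (j + 2 * n))) (P N (Φ (i + 3 * n))) ≤ V := by
  set f : ℕ → ℕ := fun k => (if k % 2 = 0 then i else j) + (k / 2) * n with hf
  have hfm : StrictMono f := by
    apply strictMono_nat_of_lt_succ
    intro k
    simp only [hf]
    rcases Nat.even_or_odd' k with ⟨c, rfl | rfl⟩
    · have e1 : (2 * c) % 2 = 0 := by omega
      have e2 : (2 * c + 1) % 2 = 1 := by omega
      have e3 : (2 * c) / 2 = c := by omega
      have e4 : (2 * c + 1) / 2 = c := by omega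
      rw [e1, e2, e3, e4]; simp; exact hij
    · have e1 : (2 * c + 1) % 2 = 1 := by omega
      have e2 : (2 * c + 1 + 1) % 2 = 0 := by omega
      have e3 : (2 * c + 1) / 2 = c := by omega
      have e4 : (2 * c + 1 + 1) / 2 = c + 1 := by omega
      rw [e1, e2, e3, e4]; simp; rw [add_mul]; omega
  have f6 : f 6 = i + 3 * n := by simp [hf]
  have f0 : f 0 = i := by simp [hf]
  have := hV 6 (fun k => P N (Φ (f k))) (by norm_num) (fun i => hN.N_P _)
    (by simp only [f6, f0]; exact h.P_half hN i)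
    (fun a c h1 h2 h3 => by
      apply h.pos hN (hfm h1)
      have h4 : f c ≤ f 6 := hfm.monotone h2
      have h5 : f 0 ≤ f a := hfm.monotone (Nat.zero_le _)
      rcases h3 with h3 | h3
      · have := hfm h3
        omega
      · have := hfm h3
        omega)
  simp only [Finset.sum_range_succ, Finset.sum_range_zero, zero_add] at this
  have g0 : f 0 = i := by simp [hf]
  have g1 : f 1 = j := by simp [hf]
  have g2 : f 2 = i + n := by simp [hf]
  have g3 : f 3 = j + n := by simp [hf]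
  have g4 : f 4 = i + 2 * n := by simp [hf]
  have g5 : f 5 = j + 2 * n := by simp [hf]
  norm_num [g0, g1, g2, g3, g4, g5, f6] at this
  exact this

end

end Rein69
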