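import Pool.Agent.Rein69.Avg
import Pool.Agent.Rein69.Check

set_option autoImplicit false

namespace Rein69

open Complex Finset

/-- denominators used for the sine tables -/
def DD : ℤ := 1000000000000

/-- ceiling division -/
def cdiv (a b : ℤ) : ℤ := -((-a) / b)

lemma cdiv_ge {a b : ℤ} (hb : 0 < b) : (a : ℝ) / b ≤ (cdiv a b : ℤ) := by
  unfold cdiv
  have h1 : ((-a) / b) * b ≤ -a := Int.ediv_mul_le _ hb.ne'
  have h2 : (((-a) / b : ℤ) : ℝ) * b ≤ -a := by exact_mod_cast h1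
  have hb' : (0 : ℝ) < b := by exact_mod_cast hb
  push_cast
  rw [div_le_iff₀ hb']
  nlinarith

lemma fdiv_le {a b : ℤ} (hb : 0 < b) : ((a / b : ℤ) : ℝ) ≤ (a : ℝ) / b := by
  have h1 : (a / b) * b ≤ a := Int.ediv_mul_le _ hb.ne'
  have h2 : ((a / b : ℤ) : ℝ) * b ≤ a := by exact_mod_cast h1
  have hb' : (0 : ℝ) < b := by exact_mod_cast hb
  rw [le_div_iff₀ hb']
  exact h2

section
variable (n : ℕ) (Lo Hi : List ℤ)

/-- validity of a sine table -/
def TabOK : Prop := ∀ u : ℕ, u ≤ 3 * n →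
  ((Lo.getD u 0 : ℤ) : ℝ) ≤ DD * Real.sin (u * (Real.pi / (6 * n))) ∧
    DD * Real.sin (u * (Real.pi / (6 * n))) ≤ ((Hi.getD u 0 : ℤ) : ℝ)

/-- lower bound for `DD * sin (i π/(6n))` -/
def FLo (i : ℤ) : ℤ :=
  let u := (i % (12 * n)).toNat
  if u ≤ 3 * n then Lo.getD u 0
  else if u ≤ 6 * n then Lo.getD (6 * n - u) 0
  else if u ≤ 9 * n then -Hi.getD (u - 6 * n) 0
  else -Hi.getD (12 * n - u) 0

/-- upper bound for `DD * sin (i π/(6n))` -/
def FHi (i : ℤ) : ℤ :=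
  let u := (i % (12 * n)).toNat
  if u ≤ 3 * n then Hi.getD u 0
  else if u ≤ 6 * n then Hi.getD (6 * n - u) 0
  else if u ≤ 9 * n then -Lo.getD (u - 6 * n) 0
  else -Lo.getD (12 * n - u) 0

/-- lower bound for the absolute value -/
def ALo (i : ℤ) : ℤ :=
  let u := (i % (6 * n)).toNat
  if u ≤ 3 * n then Lo.getD u 0 else Lo.getD (6 * n - u) 0

/-- upper bound for the absolute value -/
def AHi (i : ℤ) : ℤ :=
  let u := (i % (6 * n)).toNat
  if u ≤ 3 * n then Hi.getD u 0 else Hi.getD (6 * n - u) 0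

variable {n Lo Hi} [NeZero n] (htab : TabOK n Lo Hi)
include htab

lemma sin_red (i : ℤ) : Real.sin (i * (Real.pi / (6 * n))) =
    Real.sin (((i % (12 * n) : ℤ)) * (Real.pi / (6 * n))) := by
  have h := Int.emod_add_mul_ediv i (12 * n)
  have hn := n_ne (n := n)
  have e : (i : ℝ) * (Real.pi / (6 * n)) =
      ((i % (12 * n) : ℤ)) * (Real.pi / (6 * n)) + ((i / (12 * n) : ℤ)) * (2 * Real.pi) := by
    have h' : ((i % (12 * n) : ℤ) : ℝ) + 12 * n * ((i / (12 * n) : ℤ) : ℝ) = i := by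
      exact_mod_cast h
    rw [← h']
    push_cast
    field_simp
    ring
  rw [e, Real.sin_add_int_mul_two_pi]

lemma F_bounds (i : ℤ) : ((FLo n Lo Hi i : ℤ) : ℝ) ≤ DD * Real.sin (i * (Real.pi / (6 * n))) ∧
    DD * Real.sin (i * (Real.pi / (6 * n))) ≤ ((FHi n Lo Hi i : ℤ) : ℝ) := by
  have hn0 : 0 < n := NeZero.pos n
  have hn := n_ne (n := n)
  rw [sin_red htab]
  unfold FLo FHi
  have hmod0 : 0 ≤ i % (12 * n) := Int.emod_nonneg _ (by positivity)
  have hmodlt : i % (12 * n) < 12 * n := Int.emod_lt_of_pos _ (by positivity)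
  obtain ⟨u, hu⟩ := Int.eq_ofNat_of_zero_le hmod0
  have hult : u < 12 * n := by omega
  simp only [hu, Int.toNat_natCast]
  have hcast : (((u : ℕ) : ℤ) : ℝ) = (u : ℝ) := by push_cast; rfl
  rw [hcast]
  split_ifs with h1 h2 h3
  · exact htab u h1
  · obtain ⟨v, hv⟩ : ∃ v, u + v = 6 * n := ⟨6 * n - u, by omega⟩
    have hv' : 6 * n - u = v := by omega
    have e : Real.sin (u * (Real.pi / (6 * n))) = Real.sin (v * (Real.pi / (6 * n))) := by
      rw [← Real.sin_pi_sub]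
      congr 1
      have : (u : ℝ) + v = 6 * n := by exact_mod_cast hv
      have h4 : (u : ℝ) = 6 * n - v := by linarith
      rw [h4]; field_simp; ring
    rw [e, hv']
    exact htab v (by omega)
  · obtain ⟨v, hv⟩ : ∃ v, u = 6 * n + v := ⟨u - 6 * n, by omega⟩
    have hv' : u - 6 * n = v := by omega
    have e : Real.sin (u * (Real.pi / (6 * n))) = - Real.sin (v * (Real.pi / (6 * n))) := by
      rw [hv]
      have : (((6 * n + v : ℕ) : ℝ)) * (Real.pi / (6 * n)) = v * (Real.pi / (6 * n)) + Real.pi := by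
        push_cast; field_simp; ring
      rw [this, Real.sin_add_pi]
    rw [e, hv']
    have := htab v (by omega)
    push_cast
    constructor <;> linarith [this.1, this.2]
  · obtain ⟨v, hv⟩ : ∃ v, u + v = 12 * n := ⟨12 * n - u, by omega⟩
    have hv' : 12 * n - u = v := by omega
    have e : Real.sin (u * (Real.pi / (6 * n))) = - Real.sin (v * (Real.pi / (6 * n))) := by
      rw [← Real.sin_neg, ← Real.sin_add_two_pi]
      rw [← Real.sin_add_two_pi (-(v * (Real.pi / (6 * n))))]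
      rw [Real.sin_add_two_pi]
      congr 1
      have : (u : ℝ) + v = 12 * n := by exact_mod_cast hv
      have h4 : (u : ℝ) = 12 * n - v := by linarith
      rw [h4]; field_simp; ring
    rw [e, hv']
    have := htab v (by omega)
    push_cast
    constructor <;> linarith [this.1, this.2]

lemma A_bounds (i : ℤ) : ((ALo n Lo i : ℤ) : ℝ) ≤ DD * |Real.sin (i * (Real.pi / (6 * n)))| ∧
    DD * |Real.sin (i * (Real.pi / (6 * n)))| ≤ ((AHi n Hi i : ℤ) : ℝ) := by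
  have hn0 : 0 < n := NeZero.pos n
  have hn := n_ne (n := n)
  have hpi := Real.pi_pos
  have hnpos := n_posR (n := n)
  -- reduce modulo 6 n
  have h := Int.emod_add_mul_ediv i (6 * n)
  have e : |Real.sin (i * (Real.pi / (6 * n)))| =
      |Real.sin (((i % (6 * n) : ℤ)) * (Real.pi / (6 * n)))| := by
    have h' : ((i % (6 * n) : ℤ) : ℝ) + 6 * n * ((i / (6 * n) : ℤ) : ℝ) = i := by
      exact_mod_cast h
    have e2 : (i : ℝ) * (Real.pi / (6 * n)) =
      ((i % (6 * n) : ℤ)) * (Real.pi / (6 * n)) + ((i / (6 * n) : ℤ)) * Real.pi := by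
      rw [← h']; push_cast; field_simp
    rw [e2, Real.sin_add_int_mul_pi, abs_mul]
    have : |(-1 : ℝ) ^ (i / (6 * (n : ℤ)))| = 1 := by rw [abs_zpow]; simp
    rw [this, one_mul]
  rw [e]
  unfold ALo AHi
  have hmod0 : 0 ≤ i % (6 * n) := Int.emod_nonneg _ (by positivity)
  have hmodlt : i % (6 * n) < 6 * n := Int.emod_lt_of_pos _ (by positivity)
  obtain ⟨u, hu⟩ := Int.eq_ofNat_of_zero_le hmod0
  have hult : u < 6 * n := by omega
  simp only [hu, Int.toNat_natCast]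
  have hcast : (((u : ℕ) : ℤ) : ℝ) = (u : ℝ) := by push_cast; rfl
  rw [hcast]
  have hupos : 0 ≤ Real.sin (u * (Real.pi / (6 * n))) := by
    apply Real.sin_nonneg_of_nonneg_of_le_pi (by positivity)
    have : (u : ℝ) ≤ 6 * n := by exact_mod_cast hult.le
    rw [mul_div_assoc', div_le_iff₀ (by positivity)]
    nlinarith
  rw [abs_of_nonneg hupos]
  split_ifs with h1
  · exact htab u h1
  · obtain ⟨v, hv⟩ : ∃ v, u + v = 6 * n := ⟨6 * n - u, by omega⟩
    have hv' : 6 * n - u = v := by omega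
    have e : Real.sin (u * (Real.pi / (6 * n))) = Real.sin (v * (Real.pi / (6 * n))) := by
      rw [← Real.sin_pi_sub]
      congr 1
      have : (u : ℝ) + v = 6 * n := by exact_mod_cast hv
      have h4 : (u : ℝ) = 6 * n - v := by linarith
      rw [h4]; field_simp; ring
    rw [e, hv']
    exact htab v (by omega)

lemma sn_le (j : ℤ) : DD * sn n j ≤ ((FHi n Lo Hi (2 * j) : ℤ) : ℝ) := by
  have h := (F_bounds htab (2 * j)).2
  have hn := n_ne (n := n)
  have e : ((2 * j : ℤ) : ℝ) * (Real.pi / (6 * n)) = j * (Real.pi / (3 * n)) := by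
    push_cast; field_simp; ring
  rw [e] at h
  exact h

lemma le_sn (j : ℤ) : ((FLo n Lo Hi (2 * j) : ℤ) : ℝ) ≤ DD * sn n j := by
  have h := (F_bounds htab (2 * j)).1
  have hn := n_ne (n := n)
  have e : ((2 * j : ℤ) : ℝ) * (Real.pi / (6 * n)) = j * (Real.pi / (3 * n)) := by
    push_cast; field_simp; ring
  rw [e] at h
  exact h

lemma hs_le (j : ℤ) : DD * hs n j ≤ ((AHi n Hi j : ℤ) : ℝ) := (A_bounds htab j).2

lemma le_hs (j : ℤ) : ((ALo n Lo j : ℤ) : ℝ) ≤ DD * hs n j := (A_bounds htab j).1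

end

/-- validity check of a table by the addition theorem -/
def tabCheck (Lo Hi : List ℤ) (J : ℕ) (s1 s2 c1 c2 : ℤ) (CLo CHi : List ℤ) : Bool :=
  (List.range J).all fun j =>
    decide (0 ≤ Lo.getD j 0 ∧ 0 ≤ CLo.getD j 0 ∧
      Lo.getD (j + 1) 0 * DD ≤ Lo.getD j 0 * c1 + CLo.getD j 0 * s1 ∧
      Hi.getD j 0 * c2 + CHi.getD j 0 * s2 ≤ Hi.getD (j + 1) 0 * DD ∧
      CLo.getD (j + 1) 0 * DD ≤ CLo.getD j 0 * c1 - Hi.getD j 0 * s2 ∧
      CHi.getD j 0 * c2 - Lo.getD j 0 * s1 ≤ CHi.getD (j + 1) 0 * DD)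

lemma tab_of_check {Lo Hi CLo CHi : List ℤ} {J : ℕ} {s1 s2 c1 c2 : ℤ} {x : ℝ}
    (hs1 : 0 ≤ s1) (hc1 : 0 ≤ c1)
    (h1 : (s1 : ℝ) ≤ DD * Real.sin x) (h2 : DD * Real.sin x ≤ s2)
    (h3 : (c1 : ℝ) ≤ DD * Real.cos x) (h4 : DD * Real.cos x ≤ c2)
    (h0 : Lo.getD 0 0 = 0 ∧ Hi.getD 0 0 = 0 ∧ CLo.getD 0 0 = DD ∧ CHi.getD 0 0 = DD)
    (hc : tabCheck Lo Hi J s1 s2 c1 c2 CLo CHi = true) :
    ∀ j : ℕ, j ≤ J → ((Lo.getD j 0 : ℤ) : ℝ) ≤ DD * Real.sin (j * x) ∧
      DD * Real.sin (j * x) ≤ ((Hi.getD j 0 : ℤ) : ℝ) ∧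
      ((CLo.getD j 0 : ℤ) : ℝ) ≤ DD * Real.cos (j * x) ∧
      DD * Real.cos (j * x) ≤ ((CHi.getD j 0 : ℤ) : ℝ) := by
  intro j
  induction j with
  | zero =>
    intro _
    rw [h0.1, h0.2.1, h0.2.2.1, h0.2.2.2]
    simp
  | succ j ih =>
    intro hj
    obtain ⟨a1, a2, a3, a4⟩ := ih (by omega)
    unfold tabCheck at hc
    rw [List.all_eq_true] at hc
    have hcj := hc j (by simp; omega)
    simp only [decide_eq_true_eq] at hcj
    obtain ⟨b1, b2, b3, b4, b5, b6⟩ := hcj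
    have hD : (0 : ℝ) < DD := by unfold DD; norm_num
    have b1' : (0 : ℝ) ≤ (Lo.getD j 0 : ℤ) := by exact_mod_cast b1
    have b2' : (0 : ℝ) ≤ (CLo.getD j 0 : ℤ) := by exact_mod_cast b2
    have hs1' : (0 : ℝ) ≤ s1 := by exact_mod_cast hs1
    have hc1' : (0 : ℝ) ≤ c1 := by exact_mod_cast hc1
    have b3' : ((Lo.getD (j + 1) 0 : ℤ) : ℝ) * DD ≤ (Lo.getD j 0 : ℤ) * c1 + (CLo.getD j 0 : ℤ) * s1 := by
      exact_mod_cast b3
    have b4' : ((Hi.getD j 0 : ℤ) : ℝ) * c2 + (CHi.getD j 0 : ℤ) * s2 ≤ (Hi.getD (j + 1) 0 : ℤ) * DD := by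
      exact_mod_cast b4
    have b5' : ((CLo.getD (j + 1) 0 : ℤ) : ℝ) * DD ≤ (CLo.getD j 0 : ℤ) * c1 - (Hi.getD j 0 : ℤ) * s2 := by
      exact_mod_cast b5
    have b6' : ((CHi.getD j 0 : ℤ) : ℝ) * c2 - (Lo.getD j 0 : ℤ) * s1 ≤ (CHi.getD (j + 1) 0 : ℤ) * DD := by
      exact_mod_cast b6
    have e : ((j + 1 : ℕ) : ℝ) * x = j * x + x := by push_cast; ring
    rw [e, Real.sin_add, Real.cos_add]
    set S := Real.sin (j * x)
    set C := Real.cos (j * x)
    set s := Real.sin x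
    set c := Real.cos x
    have hS0 : 0 ≤ DD * S := b1'.trans a1
    have hC0 : 0 ≤ DD * C := b2'.trans a3
    have hs0 : 0 ≤ DD * s := hs1'.trans h1
    have hc0 : 0 ≤ DD * c := hc1'.trans h3
    have m1 := mul_le_mul a1 h3 hc1' hS0
    have m2 := mul_le_mul a3 h1 hs1' hC0
    have m3 := mul_le_mul a2 h4 hc0 (hS0.trans a2)
    have m4 := mul_le_mul a4 h2 hs0 (hC0.trans a4)
    have m5 := mul_le_mul a3 h3 hc1' hC0
    have m6 := mul_le_mul a2 h2 hs0 (hS0.trans a2)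
    have m7 := mul_le_mul a4 h4 hc0 (hC0.trans a4)
    have m8 := mul_le_mul a1 h1 hs1' hS0
    have r1 : (DD : ℝ) * (DD * (S * c + C * s)) = DD * S * (DD * c) + DD * C * (DD * s) := by ring
    have r2 : (DD : ℝ) * (DD * (C * c - S * s)) = DD * C * (DD * c) - DD * S * (DD * s) := by ring
    refine ⟨?_, ?_, ?_, ?_⟩
    · apply le_of_mul_le_mul_left _ hD
      rw [r1]; linarith
    · apply le_of_mul_le_mul_left _ hD
      rw [r1]; linarith
    · apply le_of_mul_le_mul_left _ hD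
      rw [r2]; linarith
    · apply le_of_mul_le_mul_left _ hD
      rw [r2]; linarith

end Rein69
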