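import Pool.Agent.Rein69.Norm

set_option autoImplicit false

namespace Rein69

open Complex

lemma exp_ne (φ : ℝ) : exp (φ * I) ≠ 0 := Complex.exp_ne_zero _

/-- boundary point in direction φ -/
noncomputable def P (N : ℂ → ℝ) (φ : ℝ) : ℂ := ((1 / N (exp (φ * I)) : ℝ) : ℂ) * exp (φ * I)

lemma cr_exp (φ ψ : ℝ) : cr (exp (φ * I)) (exp (ψ * I)) = Real.sin (ψ - φ) := by
  unfold cr
  rw [Complex.exp_ofReal_mul_I_re, Complex.exp_ofReal_mul_I_re, Complex.exp_ofReal_mul_I_im,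
    Complex.exp_ofReal_mul_I_im, Real.sin_sub]
  ring

section
variable {N : ℂ → ℝ} (hN : IsSN N)
include hN

lemma IsSN.Nexp_pos (φ : ℝ) : 0 < N (exp (φ * I)) := hN.pos _ (exp_ne φ)

lemma IsSN.N_P (φ : ℝ) : N (P N φ) = 1 := by
  unfold P
  have := hN.Nexp_pos φ
  rw [hN.smul_nonneg (by positivity)]
  field_simp

lemma IsSN.cont_P : Continuous (P N) := by
  unfold P
  have h1 : Continuous (fun φ : ℝ => exp ((φ : ℂ) * I)) := by fun_prop
  have h2 : Continuous (fun φ : ℝ => 1 / N (exp ((φ : ℂ) * I))) :=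
    continuous_const.div (hN.cont.comp h1) (fun φ => (hN.Nexp_pos φ).ne')
  exact (Complex.continuous_ofReal.comp h2).mul h1

lemma IsSN.cr_P (φ ψ : ℝ) :
    cr (P N φ) (P N ψ) = Real.sin (ψ - φ) / (N (exp (φ * I)) * N (exp (ψ * I))) := by
  unfold P
  rw [cr_smul_left, cr_smul_right, cr_exp]
  have := hN.Nexp_pos φ
  have := hN.Nexp_pos ψ
  field_simp

lemma IsSN.cr_P_pos {φ ψ : ℝ} (h1 : φ < ψ) (h2 : ψ < φ + Real.pi) :
    0 < cr (P N φ) (P N ψ) := by
  rw [hN.cr_P]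
  have := hN.Nexp_pos φ
  have := hN.Nexp_pos ψ
  have : 0 < Real.sin (ψ - φ) := Real.sin_pos_of_pos_of_lt_pi (by linarith) (by linarith)
  positivity

lemma IsSN.cr_P_nonneg {φ ψ : ℝ} (h1 : φ ≤ ψ) (h2 : ψ ≤ φ + Real.pi) :
    0 ≤ cr (P N φ) (P N ψ) := by
  rw [hN.cr_P]
  have := hN.Nexp_pos φ
  have := hN.Nexp_pos ψ
  have : 0 ≤ Real.sin (ψ - φ) := Real.sin_nonneg_of_nonneg_of_le_pi (by linarith) (by linarith)
  positivity

lemma IsSN.sin_pos_of_cr {φ ψ : ℝ} (h : 0 < cr (P N φ) (P N ψ)) : 0 < Real.sin (ψ - φ) := by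
  rw [hN.cr_P] at h
  have h1 := hN.Nexp_pos φ
  have h2 := hN.Nexp_pos ψ
  exact (div_pos_iff_of_pos_right (mul_pos h1 h2)).mp h

lemma IsSN.P_add_pi (φ : ℝ) : P N (φ + Real.pi) = - P N φ := by
  unfold P
  have : exp (((φ + Real.pi : ℝ) : ℂ) * I) = - exp (φ * I) := by
    push_cast
    rw [add_mul, Complex.exp_add, Complex.exp_pi_mul_I]; ring
  rw [this, hN.neg]; ring

/-- every unit vector on the left side of `P φ` is `P ψ` with `ψ` in the half turn -/
lemma IsSN.exists_angle {φ : ℝ} {u : ℂ} (hu : N u = 1) (h : 0 < cr (P N φ) u) :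
    ∃ ψ, φ < ψ ∧ ψ < φ + Real.pi ∧ P N ψ = u := by
  set v := exp (-(φ : ℂ) * I) * u with hv
  have hu0 := hN.ne_zero_of_one hu
  have hcr : cr (P N φ) u = (1 / N (exp (φ * I))) * v.im := by
    rw [P, cr_smul_left, cr_eq_im, hv, ← Complex.exp_conj]
    simp
  have hvim : 0 < v.im := by
    rw [hcr] at h
    have := hN.Nexp_pos φ
    have h3 : 0 < 1 / N (exp (φ * I)) := by positivity
    exact (pos_iff_pos_of_mul_pos h).mp h3
  have harg1 : 0 < v.arg := by
    have h1 : 0 ≤ v.arg := Complex.arg_nonneg_iff.mpr hvim.le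
    rcases h1.eq_or_lt with h2 | h2
    · exfalso
      have := Complex.arg_eq_zero_iff.mp h2.symm
      linarith [this.2]
    · exact h2
  have harg2 : v.arg < Real.pi := by
    rcases (Complex.arg_le_pi v).eq_or_lt with h2 | h2
    · exfalso
      have := Complex.arg_eq_pi_iff.mp h2
      linarith [this.2]
    · exact h2
  refine ⟨φ + v.arg, by linarith, by linarith, ?_⟩
  have hu' : u = ((‖v‖ : ℝ) : ℂ) * exp (((φ + v.arg : ℝ) : ℂ) * I) := by
    have h1 : ((‖v‖ : ℝ) : ℂ) * exp (v.arg * I) = v := Complex.norm_mul_exp_arg_mul_I v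
    have h2 : u = exp ((φ : ℂ) * I) * v := by
      rw [hv, ← mul_assoc, ← Complex.exp_add]
      simp
    push_cast
    rw [add_mul, Complex.exp_add]
    calc u = exp ((φ : ℂ) * I) * v := h2
      _ = exp ((φ : ℂ) * I) * (((‖v‖ : ℝ) : ℂ) * exp (v.arg * I)) := by rw [h1]
      _ = _ := by ring
  have hNu : ‖v‖ * N (exp (((φ + v.arg : ℝ) : ℂ) * I)) = 1 := by
    rw [← hN.smul_nonneg (norm_nonneg v), ← hu', hu]
  have hpos := hN.Nexp_pos (φ + v.arg)
  unfold P
  have : (1 / N (exp (((φ + v.arg : ℝ) : ℂ) * I)) : ℝ) = ‖v‖ := by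
    field_simp; linarith
  rw [this, ← hu']

/-- strict monotonicity in angle form -/
lemma IsSN.mono_P {a b c : ℝ} (h1 : a < b) (h2 : b < c) (h3 : c < a + Real.pi) :
    N (P N b - P N a) < N (P N c - P N a) ∧ N (P N c - P N b) < N (P N c - P N a) :=
  hN.mono (hN.N_P a) (hN.N_P b) (hN.N_P c) (hN.cr_P_pos h1 (by linarith))
    (hN.cr_P_pos h2 (by linarith)) (hN.cr_P_pos (by linarith) h3)

lemma IsSN.exists_tau (φ : ℝ) :
    ∃ ψ, φ < ψ ∧ ψ < φ + Real.pi ∧ N (P N ψ - P N φ) = 1 := by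
  have hcont : Continuous (fun ψ => N (P N ψ - P N φ)) :=
    hN.cont.comp (hN.cont_P.sub continuous_const)
  have h0 : N (P N φ - P N φ) = 0 := by rw [sub_self, hN.zero]
  have h2 : N (P N (φ + Real.pi) - P N φ) = 2 := by
    rw [hN.P_add_pi]
    have e : - P N φ - P N φ = ((-2 : ℝ) : ℂ) * P N φ := by push_cast; ring
    rw [e, hN.smul, hN.N_P]; norm_num
  have hle : φ ≤ φ + Real.pi := by linarith [Real.pi_pos]
  have := intermediate_value_Icc hle hcont.continuousOn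
  simp only [h0, h2] at this
  obtain ⟨ψ, ⟨hψ1, hψ2⟩, hψ⟩ := this (show (1 : ℝ) ∈ Set.Icc 0 2 by norm_num)
  simp only at hψ
  refine ⟨ψ, lt_of_le_of_ne hψ1 ?_, lt_of_le_of_ne hψ2 ?_, hψ⟩
  · rintro rfl; rw [h0] at hψ; norm_num at hψ
  · rintro rfl; rw [h2] at hψ; norm_num at hψ

end

/-- the next vertex of the inscribed hexagon -/
noncomputable def tau (N : ℂ → ℝ) (φ : ℝ) : ℝ := by
  classical
  exact if h : ∃ ψ, φ < ψ ∧ ψ < φ + Real.pi ∧ N (P N ψ - P N φ) = 1 then h.choose else 0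

section
variable {N : ℂ → ℝ} (hN : IsSN N)
include hN

lemma IsSN.tau_spec (φ : ℝ) :
    φ < tau N φ ∧ tau N φ < φ + Real.pi ∧ N (P N (tau N φ) - P N φ) = 1 := by
  have h := hN.exists_tau φ
  unfold tau
  rw [dif_pos h]
  exact h.choose_spec

lemma IsSN.tau_unique {φ ψ : ℝ} (h1 : φ < ψ) (h2 : ψ < φ + Real.pi)
    (h3 : N (P N ψ - P N φ) = 1) : ψ = tau N φ := by
  obtain ⟨k1, k2, k3⟩ := hN.tau_spec φ
  rcases lt_trichotomy ψ (tau N φ) with h | h | h
  · have := (hN.mono_P h1 h k2).1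
    linarith
  · exact h
  · have := (hN.mono_P k1 h h2).1
    linarith

lemma IsSN.tau_strictMono : StrictMono (tau N) := by
  intro φ φ' h
  obtain ⟨k1, k2, k3⟩ := hN.tau_spec φ
  obtain ⟨l1, l2, l3⟩ := hN.tau_spec φ'
  by_contra hcon
  push Not at hcon
  have m1 := (hN.mono_P h l1 (by linarith)).2
  have m2 : N (P N (tau N φ') - P N φ) ≤ 1 := by
    rcases hcon.eq_or_lt with h5 | h5
    · rw [h5, k3]
    · have := (hN.mono_P (h.trans l1) h5 k2).1
      linarith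
  linarith

lemma IsSN.P_tau_tau (φ : ℝ) : P N (tau N (tau N φ)) = P N (tau N φ) - P N φ := by
  obtain ⟨k1, k2, k3⟩ := hN.tau_spec φ
  have hcr : 0 < cr (P N (tau N φ)) (P N (tau N φ) - P N φ) := by
    rw [cr_sub_right, cr_self, cr_swap (P N (tau N φ))]
    have := hN.cr_P_pos k1 k2
    linarith
  obtain ⟨ψ, h1, h2, h3⟩ := hN.exists_angle k3 hcr
  rw [← h3]
  congr 1
  symm
  apply hN.tau_unique h1 h2
  rw [h3, sub_sub_cancel_left, hN.neg, hN.N_P]

lemma IsSN.tau_tau_lt (φ : ℝ) : tau N (tau N φ) < φ + Real.pi := by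
  obtain ⟨k1, k2, k3⟩ := hN.tau_spec φ
  obtain ⟨l1, l2, l3⟩ := hN.tau_spec (tau N φ)
  have hcr : 0 < cr (P N φ) (P N (tau N (tau N φ))) := by
    rw [hN.P_tau_tau, cr_sub_right, cr_self]
    have := hN.cr_P_pos k1 k2
    linarith
  have hs := hN.sin_pos_of_cr hcr
  by_contra hcon
  push Not at hcon
  have : Real.sin (tau N (tau N φ) - φ) ≤ 0 := by
    have e : Real.sin (tau N (tau N φ) - φ) = - Real.sin (tau N (tau N φ) - φ - Real.pi) := by
      rw [Real.sin_sub_pi]; ring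
    rw [e]
    have := Real.sin_nonneg_of_nonneg_of_le_pi (x := tau N (tau N φ) - φ - Real.pi)
      (by linarith) (by linarith)
    linarith
  linarith

lemma IsSN.tau_three (φ : ℝ) : tau N (tau N (tau N φ)) = φ + Real.pi := by
  have h1 := hN.P_tau_tau φ
  have h2 := hN.P_tau_tau (tau N φ)
  have h3 : P N (tau N (tau N (tau N φ))) = P N (φ + Real.pi) := by
    rw [h2, h1, hN.P_add_pi]; ring
  obtain ⟨k1, k2, k3⟩ := hN.tau_spec φ
  obtain ⟨l1, l2, l3⟩ := hN.tau_spec (tau N φ)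
  obtain ⟨m1, m2, m3⟩ := hN.tau_spec (tau N (tau N φ))
  have h4 := hN.tau_tau_lt φ
  set x := tau N (tau N (tau N φ)) with hx
  rcases lt_trichotomy x (φ + Real.pi) with h | h | h
  · have := hN.cr_P_pos h (by linarith)
    rw [h3, cr_self] at this
    exact absurd this (lt_irrefl _)
  · exact h
  · have := hN.cr_P_pos h (by linarith)
    rw [h3, cr_self] at this
    exact absurd this (lt_irrefl _)

lemma IsSN.tau_surj : Function.Surjective (tau N) := by
  intro y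
  refine ⟨tau N (tau N (y - Real.pi)), ?_⟩
  rw [hN.tau_three]; ring

lemma IsSN.tau_cont : Continuous (tau N) :=
  hN.tau_strictMono.monotone.continuous_of_surjective hN.tau_surj

lemma IsSN.tau_add_pi (φ : ℝ) : tau N (φ + Real.pi) = tau N φ + Real.pi := by
  have h1 := hN.tau_three φ
  have h2 := hN.tau_three (tau N φ)
  rw [h1] at h2
  exact h2

end

end Rein69
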