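import Pool.Agent.Rein69.Rows

set_option autoImplicit false

namespace Rein69

open Complex Finset

/-- from table units to row units -/
def q9 (x : ℤ) : ℤ := cdiv x 1000

lemma DDR : ((DD : ℤ) : ℝ) = 1000 * (SC : ℤ) := by unfold DD SC; norm_num
lemma SCpos : (0 : ℝ) < (SC : ℤ) := by unfold SC; norm_num
lemma DDpos : (0 : ℝ) < (DD : ℤ) := by unfold DD; norm_num

lemma q9_ge {c : ℝ} {x : ℤ} (h : DD * c ≤ x) : SC * c ≤ (q9 x : ℤ) := by
  have h1 : (x : ℝ) / ((1000 : ℤ) : ℝ) ≤ (cdiv x 1000 : ℤ) := cdiv_ge (by norm_num)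
  unfold q9
  rw [DDR] at h
  push_cast at h1
  refine le_trans ?_ h1
  rw [le_div_iff₀ (by norm_num)]
  linarith

section
variable (n : ℕ) (Lo Hi : List ℤ)

/-- real version of the quadratic coefficient of the three point rows -/
noncomputable def gR (m : ℕ) (j : ℤ) : ℝ := 2 * (2 * sn n (j * m) - sn n (j * (2 * m : ℕ)))

/-- integer version -/
def gI (m : ℕ) (j : ℤ) : ℤ :=
  2 * (2 * FHi n Lo Hi (2 * (j * m)) - FLo n Lo Hi (2 * (j * (2 * m : ℕ))))

/-- upper bound of mixed coefficients -/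
def KHi (m r l : ℕ) : ℤ :=
  cdiv (8 * (AHi n Hi ((12 * l + 6 * r) * m) * AHi n Hi ((6 * l - 1) * m) *
    AHi n Hi ((6 * (r + l) + 1) * m))) (DD * DD * 1000)

/-- lower bound of the main coefficient -/
def KLo (m r : ℕ) : ℤ :=
  (8 * (ALo n Lo (6 * r * m) * ALo n Lo (-(m : ℤ)) * ALo n Lo ((6 * r + 1) * m))) / (DD * DD * 1000)

variable {n Lo Hi} [NeZero n] (htab : TabOK n Lo Hi)
include htab

lemma g_le (m : ℕ) (j : ℤ) : DD * gR n m j ≤ (gI n Lo Hi m j : ℤ) := by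
  have h1 := sn_le htab (j * m)
  have h2 := le_sn htab (j * (2 * m : ℕ))
  unfold gR gI
  push_cast at h1 h2 ⊢
  linarith

lemma KHi_ge (m r l : ℕ) : SC * Kc n m r l ≤ (KHi n Hi m r l : ℤ) := by
  have h1 := hs_le htab ((12 * l + 6 * r) * m)
  have h2 := hs_le htab ((6 * l - 1) * m)
  have h3 := hs_le htab ((6 * (r + l) + 1) * m)
  have p1 : 0 ≤ DD * hs n ((12 * l + 6 * r) * m) := by
    have := DDpos; unfold hs; positivity
  have p2 : 0 ≤ DD * hs n ((6 * l - 1) * m) := by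
    have := DDpos; unfold hs; positivity
  have p3 : 0 ≤ DD * hs n ((6 * (r + l) + 1) * m) := by
    have := DDpos; unfold hs; positivity
  have m1 := mul_le_mul h1 h2 p2 (p1.trans h1)
  have m2 := mul_le_mul m1 h3 p3 (le_trans (mul_nonneg p1 p2) m1)
  unfold KHi Kc
  have hc := cdiv_ge (a := 8 * (AHi n Hi ((12 * l + 6 * r) * m) * AHi n Hi ((6 * l - 1) * m) *
    AHi n Hi ((6 * (r + l) + 1) * m))) (b := DD * DD * 1000) (by unfold DD; norm_num)
  refine le_trans ?_ hc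
  have hD := DDpos
  have hS := SCpos
  push_cast
  rw [le_div_iff₀ (by positivity), DDR]
  rw [DDR] at m2
  push_cast at m2
  nlinarith

lemma KLo_le (hLo : ∀ u, 0 ≤ Lo.getD u 0) (m r : ℕ) : ((KLo n Lo m r : ℤ) : ℝ) ≤ SC * Kc n m r 0 := by
  have h1 := le_hs htab (6 * r * m)
  have h2 := le_hs htab (-(m : ℤ))
  have h3 := le_hs htab ((6 * r + 1) * m)
  have hA : ∀ i, (0 : ℝ) ≤ (ALo n Lo i : ℤ) := by
    intro i
    have : 0 ≤ ALo n Lo i := by
      unfold ALo; simp only; split_ifs <;> exact hLo _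
    exact_mod_cast this
  have m1 := mul_le_mul h1 h2 (hA _) (le_trans (hA _) h1)
  have m2 := mul_le_mul m1 h3 (hA _) (le_trans (mul_nonneg (hA _) (hA _)) m1)
  unfold KLo Kc
  have hc := fdiv_le (a := 8 * (ALo n Lo (6 * r * m) * ALo n Lo (-(m : ℤ)) * ALo n Lo ((6 * r + 1) * m)))
    (b := DD * DD * 1000) (by unfold DD; norm_num)
  refine le_trans hc ?_
  have hD := DDpos
  have hS := SCpos
  have e1 : (12 * (0 : ℤ) + 6 * (r : ℤ)) * (m : ℤ) = 6 * r * m := by ring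
  have e2 : (6 * (0 : ℤ) - 1) * (m : ℤ) = -(m : ℤ) := by ring
  have e3 : (6 * ((r : ℤ) + 0) + 1) * (m : ℤ) = (6 * r + 1) * m := by ring
  rw [e1, e2, e3]
  push_cast
  rw [div_le_iff₀ (by positivity), DDR]
  rw [DDR] at m2
  push_cast at m2
  nlinarith

end

lemma Kc_nonneg (n : ℕ) (m r l : ℤ) : 0 ≤ Kc n m r l := by
  unfold Kc hs; positivity

section
variable (H : ℕ) (Lo Hi : List ℤ)

/-- determinant row -/
def rowD : Row := mkRow H (2 * H) 0 (2 * SC) SC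
  (fun i => (0, if i + 1 < H then 2 * SC else SC)) (fun _ => (0, -SC))

/-- variance row -/
def rowV (τ : ℤ) : Row := mkRow H (2 * H) 0 τ (-SC)
  (fun i => (0, if i + 1 < H then -(2 * SC) else -SC)) (fun _ => (0, 0))

/-- area row -/
def rowC (κn κd : ℤ) (s : ℕ) : Row := mkRow H (2 * H)
  (cdiv (κn * s * Hi.getD (4 * H) 0 * SC) (κd * (6 * H) * DD) + q9 (-FLo (2 * H) Lo Hi (2 * s)))
  (q9 (-(2 * FLo (2 * H) Lo Hi (2 * s)))) (q9 (-FLo (2 * H) Lo Hi (2 * s)))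
  (fun i => (0, q9 (-(FLo (2 * H) Lo Hi (2 * ((6 * ((i + 1 : ℕ) : ℤ) + 1) * s)) +
    if i + 1 < H then FLo (2 * H) Lo Hi (2 * ((6 * ((2 * H - (i + 1) : ℕ) : ℤ) + 1) * s)) else 0))))
  (fun l => (0, q9 (-FLo (2 * H) Lo Hi (2 * ((6 * (l : ℤ) - 1) * s)))))

/-- base part of the three point rows -/
def rowT (m r : ℕ) : Row := mkRow H (2 * H)
  (q9 (gI (2 * H) Lo Hi m 1)) (q9 (2 * gI (2 * H) Lo Hi m 1)) (q9 (gI (2 * H) Lo Hi m 1))
  (fun i => (0, q9 (gI (2 * H) Lo Hi m (6 * ((i + 1 : ℕ) : ℤ) + 1) +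
    if i + 1 < H then gI (2 * H) Lo Hi m (6 * ((2 * H - (i + 1) : ℕ) : ℤ) + 1) else 0)))
  (fun l => (if l = 2 * H - r then -KLo (2 * H) Lo m r else 0, q9 (gI (2 * H) Lo Hi m (6 * (l : ℤ) - 1))))

/-- linear cross part -/
def rowX (m r : ℕ) : Row := mkRow H (2 * H) 0 0 0 (fun _ => (0, 0))
  (fun l => (if l = 2 * H - r then 0 else KHi (2 * H) Hi m r (pidx H r l), 0))

/-- quadratic cross part with weight `p/q` -/
def rowN (m r p q : ℕ) : Row := mkRow H (2 * H)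
  (q9 (gI (2 * H) Lo Hi m 1)) (q9 (2 * gI (2 * H) Lo Hi m 1)) (q9 (gI (2 * H) Lo Hi m 1))
  (fun i => (0, q9 (gI (2 * H) Lo Hi m (6 * ((i + 1 : ℕ) : ℤ) + 1) +
    if i + 1 < H then gI (2 * H) Lo Hi m (6 * ((2 * H - (i + 1) : ℕ) : ℤ) + 1) else 0) +
    cdiv (p * (KHi (2 * H) Hi m r (i + 1) +
      if i + 1 < H then KHi (2 * H) Hi m r (2 * H - (i + 1)) else 0)) (2 * q)))
  (fun l => (if l = 2 * H - r then -KLo (2 * H) Lo m r else 0,
    q9 (gI (2 * H) Lo Hi m (6 * (l : ℤ) - 1)) +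
    if l = 2 * H - r then 0 else cdiv (q * KHi (2 * H) Hi m r (pidx H r l)) (2 * p)))

variable {H Lo Hi} [NeZero (2 * H)] (htab : TabOK (2 * H) Lo Hi)
  {ρ : ZMod (2 * H) → ℝ} {b : ZMod (2 * H) → ℂ} {V : ℝ} (h : Cfg (2 * H) ρ b V)
include htab h

omit htab h in
lemma Ar_zero (ρ : ZMod (2 * H) → ℝ) : Ar ρ 0 = Am ρ 0 := by unfold Ar; simp

omit htab h in
lemma Ar_nonneg (ρ : ZMod (2 * H) → ℝ) (i : ℕ) : 0 ≤ Ar ρ i := Am_nonneg _ _
omit htab h in
lemma Br_nonneg (b : ZMod (2 * H) → ℂ) (i : ℕ) : 0 ≤ Br b i := Bm_nonneg _ _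

omit htab in
lemma Cfg.t_nonneg : 0 ≤ Am ρ 0 - 1 := by linarith [h.A0_ge]

omit htab h in
lemma sumA_fold (ρ : ZMod (2 * H) → ℝ) : ∑ l, Am ρ l ^ 2 = Am ρ 0 ^ 2 +
    ∑ i ∈ range H, (if i + 1 < H then 2 else 1) * Ar ρ (i + 1) ^ 2 := by
  have h1 := foldA ρ (fun _ => (1 : ℝ))
  have h2 : ∑ l, Am ρ l ^ 2 = ∑ k ∈ range (2 * H), 1 * Ar ρ k ^ 2 := by
    rw [sum_zmod_range]
    apply Finset.sum_congr rfl
    intro k _; unfold Ar; ring
  rw [h2, h1, Ar_zero, one_mul]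
  congr 1
  apply Finset.sum_congr rfl
  intro i _
  split_ifs <;> ring

omit htab in
lemma validD : 0 ≤ (rowD H).val (Am ρ 0 - 1) (xvec H (2 * H) (Ar ρ) (Br b)) := by
  have hD := h.D_ineq
  rw [sumA_fold] at hD
  have hB : ∑ l, Bm b l ^ 2 = ∑ k ∈ range (2 * H), Br b k ^ 2 := by
    rw [sum_zmod_range]; rfl
  rw [hB] at hD
  have hS := SCpos
  refine le_trans ?_ (val_ge (k' := 0) (t1' := 2) (t2' := 1) (a1 := fun _ => 0)
    (a2 := fun i => if i + 1 < H then 2 else 1) (b1 := fun _ => 0) (b2 := fun _ => -1)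
    h.t_nonneg (Ar_nonneg ρ) (Br_nonneg b) (by simp) (by push_cast; linarith) (by linarith)
    (by intro i _; simp) (by intro i _; split_ifs <;> push_cast <;> linarith)
    (by intro i _; simp) (by intro i _; push_cast; linarith))
  apply mul_nonneg hS.le
  have e1 : ∑ i ∈ range H, ((0 : ℝ) * Ar ρ (i + 1) + (if i + 1 < H then 2 else 1) * Ar ρ (i + 1) ^ 2) =
      ∑ i ∈ range H, (if i + 1 < H then 2 else 1) * Ar ρ (i + 1) ^ 2 := by
    apply Finset.sum_congr rfl; intro i _; ring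
  have e2 : ∑ i ∈ range (2 * H), ((0 : ℝ) * Br b i + (-1) * Br b i ^ 2) =
      - ∑ k ∈ range (2 * H), Br b k ^ 2 := by
    rw [← Finset.sum_neg_distrib]
    apply Finset.sum_congr rfl; intro i _; ring
  rw [e1, e2]
  nlinarith

omit htab in
lemma validV {τ : ℝ} {τI : ℤ} (hτI : SC * τ ≤ τI) (hτ : ∀ x, ρ x ≤ 1 + τ) :
    0 ≤ (rowV H τI).val (Am ρ 0 - 1) (xvec H (2 * H) (Ar ρ) (Br b)) := by
  have hV := h.VA hτ
  have hA := sumA_fold ρ
  have h1 : Am ρ 0 ^ 2 + ∑ l ∈ univ.erase (0 : ZMod (2 * H)), Am ρ l ^ 2 = ∑ l, Am ρ l ^ 2 :=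
    Finset.add_sum_erase univ (fun l => Am ρ l ^ 2) (Finset.mem_univ 0)
  have hS := SCpos
  refine le_trans ?_ (val_ge (k' := 0) (t1' := τ) (t2' := -1) (a1 := fun _ => 0)
    (a2 := fun i => if i + 1 < H then -2 else -1) (b1 := fun _ => 0) (b2 := fun _ => 0)
    h.t_nonneg (Ar_nonneg ρ) (Br_nonneg b) (by simp) hτI (by push_cast; linarith)
    (by intro i _; simp) (by intro i _; split_ifs <;> push_cast <;> linarith)
    (by intro i _; simp) (by intro i _; simp))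
  apply mul_nonneg hS.le
  have e1 : ∑ i ∈ range H, ((0 : ℝ) * Ar ρ (i + 1) + (if i + 1 < H then -2 else -1) * Ar ρ (i + 1) ^ 2) =
      - ∑ i ∈ range H, (if i + 1 < H then 2 else 1) * Ar ρ (i + 1) ^ 2 := by
    rw [← Finset.sum_neg_distrib]
    apply Finset.sum_congr rfl; intro i _; split_ifs <;> ring
  have e2 : ∑ i ∈ range (2 * H), ((0 : ℝ) * Br b i + 0 * Br b i ^ 2) = 0 := by
    apply Finset.sum_eq_zero; intro i _; ring
  rw [e1, e2]
  nlinarith

lemma validC {κn κd : ℤ} (hκd : 0 < κd) (hκn : 0 ≤ κn) (hV : V ≤ κn / κd * (Real.sqrt 3 / 2))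
    {s : ℕ} (hs : 0 < s) (hs2 : 2 * s ≤ 6 * H) (hdvd : s ∣ 6 * H) :
    0 ≤ (rowC H Lo Hi κn κd s).val (Am ρ 0 - 1) (xvec H (2 * H) (Ar ρ) (Br b)) := by
  have hH : 0 < H := Hpos
  have hHr : (0 : ℝ) < H := by exact_mod_cast hH
  have hS := SCpos
  have hD := DDpos
  obtain ⟨M, hM⟩ := hdvd
  have hM2 : 2 ≤ M := by
    by_contra hcon
    push Not at hcon
    have : s * M ≤ s * 1 := Nat.mul_le_mul_left s (by omega)
    omega
  have hq := h.Sq_le s M hs hM2 (by rw [← hM]; ring)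
  rw [Sq_range] at hq
  have hsr : (0 : ℝ) < s := by exact_mod_cast hs
  have hκd' : (0 : ℝ) < κd := by exact_mod_cast hκd
  have hκn' : (0 : ℝ) ≤ κn := by exact_mod_cast hκn
  -- constant
  set v' : ℝ := κn / κd * (Real.sqrt 3 / 2) * s / (6 * H) with hv'
  have hs32 : DD * (Real.sqrt 3 / 2) ≤ ((Hi.getD (4 * H) 0 : ℤ) : ℝ) := by
    have := (htab (4 * H) (by omega)).2
    have e : (((4 * H : ℕ) : ℝ)) * (Real.pi / (6 * ((2 * H : ℕ) : ℝ))) = Real.pi / 3 := by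
      push_cast; field_simp; ring
    rw [e, Real.sin_pi_div_three] at this
    exact this
  have hconst : SC * v' ≤ (cdiv (κn * s * Hi.getD (4 * H) 0 * SC) (κd * (6 * H) * DD) : ℤ) := by
    refine le_trans ?_ (cdiv_ge (by
      have : (0 : ℤ) < H := by exact_mod_cast hH
      have : (0 : ℤ) < DD := by unfold DD; norm_num
      positivity))
    rw [hv']
    push_cast
    rw [le_div_iff₀ (by positivity)]
    have : (SC : ℝ) * (κn / κd * (Real.sqrt 3 / 2) * s / (6 * H)) * (κd * (6 * H) * DD) =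
        κn * s * (DD * (Real.sqrt 3 / 2)) * SC := by field_simp
    rw [this]
    apply mul_le_mul_of_nonneg_right _ hS.le
    exact mul_le_mul_of_nonneg_left hs32 (by positivity)
  have f0 : ∀ j : ℤ, DD * (-sn (2 * H) j) ≤ ((-FLo (2 * H) Lo Hi (2 * j) : ℤ) : ℝ) := by
    intro j
    have := le_sn htab j
    push_cast; linarith
  have hq' : 0 ≤ (v' - sn (2 * H) s) + (-(2 * sn (2 * H) s)) * (Am ρ 0 - 1) +
      (-sn (2 * H) s) * (Am ρ 0 - 1) ^ 2 +
      ∑ i ∈ range H, ((0 : ℝ) * Ar ρ (i + 1) + (-(sn (2 * H) ((6 * ((i + 1 : ℕ) : ℤ) + 1) * s) +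
        if i + 1 < H then sn (2 * H) ((6 * ((2 * H - (i + 1) : ℕ) : ℤ) + 1) * s) else 0)) *
        Ar ρ (i + 1) ^ 2) +
      ∑ l ∈ range (2 * H), ((0 : ℝ) * Br b l + (-sn (2 * H) ((6 * (l : ℤ) - 1) * s)) * Br b l ^ 2) := by
    have e1 : ∑ i ∈ range H, ((0 : ℝ) * Ar ρ (i + 1) + (-(sn (2 * H) ((6 * ((i + 1 : ℕ) : ℤ) + 1) * s) +
        if i + 1 < H then sn (2 * H) ((6 * ((2 * H - (i + 1) : ℕ) : ℤ) + 1) * s) else 0)) *
        Ar ρ (i + 1) ^ 2) = - ∑ i ∈ range H, (sn (2 * H) ((6 * ((i + 1 : ℕ) : ℤ) + 1) * s) +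
        if i + 1 < H then sn (2 * H) ((6 * ((2 * H - (i + 1) : ℕ) : ℤ) + 1) * s) else 0) *
        Ar ρ (i + 1) ^ 2 := by
      rw [← Finset.sum_neg_distrib]
      apply Finset.sum_congr rfl; intro i _; ring
    have e2 : ∑ l ∈ range (2 * H), ((0 : ℝ) * Br b l + (-sn (2 * H) ((6 * (l : ℤ) - 1) * s)) * Br b l ^ 2) =
        - ∑ l ∈ range (2 * H), sn (2 * H) ((6 * (l : ℤ) - 1) * s) * Br b l ^ 2 := by
      rw [← Finset.sum_neg_distrib]
      apply Finset.sum_congr rfl; intro i _; ring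
    rw [e1, e2]
    rw [Ar_zero] at hq
    set X := ∑ i ∈ range H, (sn (2 * H) ((6 * ((i + 1 : ℕ) : ℤ) + 1) * s) +
        if i + 1 < H then sn (2 * H) ((6 * ((2 * H - (i + 1) : ℕ) : ℤ) + 1) * s) else 0) *
        Ar ρ (i + 1) ^ 2
    set Y := ∑ l ∈ range (2 * H), sn (2 * H) ((6 * (l : ℤ) - 1) * s) * Br b l ^ 2
    have h1 : sn (2 * H) s * Am ρ 0 ^ 2 + X + Y ≤ v' := by
      rw [hv', le_div_iff₀ (by positivity)]
      have h2 : (s : ℝ) * V ≤ s * (κn / κd * (Real.sqrt 3 / 2)) :=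
        mul_le_mul_of_nonneg_left hV hsr.le
      push_cast at hq
      nlinarith
    nlinarith
  refine le_trans (mul_nonneg hS.le hq') (val_ge h.t_nonneg (Ar_nonneg ρ) (Br_nonneg b) ?_ ?_ ?_ ?_ ?_ ?_ ?_)
  · have := q9_ge (f0 s)
    push_cast
    push_cast at this
    linarith
  · apply q9_ge
    have := f0 s
    push_cast at this ⊢
    linarith
  · exact q9_ge (f0 s)
  · intro i _; simp
  · intro i _
    apply q9_ge
    have g1 := f0 ((6 * ((i + 1 : ℕ) : ℤ) + 1) * s)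
    have g2 := f0 ((6 * ((2 * H - (i + 1) : ℕ) : ℤ) + 1) * s)
    split_ifs
    · push_cast at g1 g2 ⊢
      linarith
    · push_cast at g1 ⊢
      linarith
  · intro i _; simp
  · intro l _
    exact q9_ge (f0 ((6 * (l : ℤ) - 1) * s))

omit htab h in
lemma gq_range (ρ : ZMod (2 * H) → ℝ) (b : ZMod (2 * H) → ℂ) (m : ℕ) :
    2 * (2 * Sq ρ b m - Sq ρ b (2 * m)) = gR (2 * H) m 1 * Am ρ 0 ^ 2 +
      ∑ i ∈ range H, (gR (2 * H) m (6 * ((i + 1 : ℕ) : ℤ) + 1) +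
        if i + 1 < H then gR (2 * H) m (6 * ((2 * H - (i + 1) : ℕ) : ℤ) + 1) else 0) *
        Ar ρ (i + 1) ^ 2 +
      ∑ l ∈ range (2 * H), gR (2 * H) m (6 * (l : ℤ) - 1) * Br b l ^ 2 := by
  rw [Sq_range, Sq_range, ← Ar_zero]
  have e1 : ∑ i ∈ range H, (gR (2 * H) m (6 * ((i + 1 : ℕ) : ℤ) + 1) +
        if i + 1 < H then gR (2 * H) m (6 * ((2 * H - (i + 1) : ℕ) : ℤ) + 1) else 0) *
        Ar ρ (i + 1) ^ 2 =
      4 * ∑ i ∈ range H, (sn (2 * H) ((6 * ((i + 1 : ℕ) : ℤ) + 1) * (m : ℕ)) +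
        if i + 1 < H then sn (2 * H) ((6 * ((2 * H - (i + 1) : ℕ) : ℤ) + 1) * (m : ℕ)) else 0) *
        Ar ρ (i + 1) ^ 2 -
      2 * ∑ i ∈ range H, (sn (2 * H) ((6 * ((i + 1 : ℕ) : ℤ) + 1) * (2 * m : ℕ)) +
        if i + 1 < H then sn (2 * H) ((6 * ((2 * H - (i + 1) : ℕ) : ℤ) + 1) * (2 * m : ℕ)) else 0) *
        Ar ρ (i + 1) ^ 2 := by
    rw [Finset.mul_sum, Finset.mul_sum, ← Finset.sum_sub_distrib]
    apply Finset.sum_congr rfl
    intro i _
    unfold gR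
    split_ifs <;> ring
  have e2 : ∑ l ∈ range (2 * H), gR (2 * H) m (6 * (l : ℤ) - 1) * Br b l ^ 2 =
      4 * ∑ l ∈ range (2 * H), sn (2 * H) ((6 * (l : ℤ) - 1) * (m : ℕ)) * Br b l ^ 2 -
      2 * ∑ l ∈ range (2 * H), sn (2 * H) ((6 * (l : ℤ) - 1) * (2 * m : ℕ)) * Br b l ^ 2 := by
    rw [Finset.mul_sum, Finset.mul_sum, ← Finset.sum_sub_distrib]
    apply Finset.sum_congr rfl
    intro i _
    unfold gR
    ring
  rw [e1, e2]
  unfold gR
  simp only [one_mul]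
  ring

/-- the three point inequality with range sums -/
lemma T_range (m r : ℕ) (hm : 2 * m ≤ 6 * H) (hr0 : 0 < r) (hr : r < 2 * H) :
    Kc (2 * H) m r 0 * Br b (2 * H - r) ≤ gR (2 * H) m 1 * Am ρ 0 ^ 2 +
      ∑ i ∈ range H, (gR (2 * H) m (6 * ((i + 1 : ℕ) : ℤ) + 1) +
        if i + 1 < H then gR (2 * H) m (6 * ((2 * H - (i + 1) : ℕ) : ℤ) + 1) else 0) *
        Ar ρ (i + 1) ^ 2 +
      ∑ l ∈ range (2 * H), gR (2 * H) m (6 * (l : ℤ) - 1) * Br b l ^ 2 +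
      ∑ l ∈ univ.erase (0 : ZMod (2 * H)), Am ρ l * Bm b (-(((r : ℤ)) : ZMod (2 * H)) - l) *
        Kc (2 * H) m r l.val := by
  have hT := h.T m r (by omega)
  rw [gq_range] at hT
  have e : Bm b (-(((r : ℤ)) : ZMod (2 * H))) = Br b (2 * H - r) := by
    unfold Br
    congr 1
    rw [Nat.cast_sub hr.le]; simp
  rw [e] at hT
  refine le_trans ?_ hT
  have h1 := h.A0_ge
  have h2 := Kc_nonneg (2 * H) m r 0
  have h3 := Br_nonneg b (2 * H - r)
  have h4 : 0 ≤ Br b (2 * H - r) * Kc (2 * H) m r 0 := mul_nonneg h3 h2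
  nlinarith

lemma validL (hLo : ∀ u, 0 ≤ Lo.getD u 0) (m r : ℕ) (hm : 2 * m ≤ 6 * H) (hr0 : 0 < r)
    (hr : r < 2 * H) (s : ℝ) (hs : Am ρ 0 - 1 ≤ s) :
    0 ≤ (rowT H Lo Hi m r).val (Am ρ 0 - 1) (xvec H (2 * H) (Ar ρ) (Br b)) +
      s * (rowX H Hi m r).val (Am ρ 0 - 1) (xvec H (2 * H) (Ar ρ) (Br b)) := by
  have hS := SCpos
  have hs0 : 0 ≤ s := h.t_nonneg.trans hs
  have hT := T_range htab h m r hm hr0 hr
  have hgl := fun j => g_le htab m j
  -- cross part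
  have hcross : ∑ l ∈ univ.erase (0 : ZMod (2 * H)), Am ρ l * Bm b (-(((r : ℤ)) : ZMod (2 * H)) - l) *
        Kc (2 * H) m r l.val ≤ s * ∑ l ∈ range (2 * H),
          (if l = 2 * H - r then 0 else Kc (2 * H) m r (pidx H r l)) * Br b l := by
    have e := sum_partner r hr hr0 (fun l => Kc (2 * H) m r (l : ℕ)) b (fun x => x)
    rw [← e, Finset.mul_sum]
    apply Finset.sum_le_sum
    intro l hl
    have h1 : Am ρ l ≤ s := (h.A_le (Finset.ne_of_mem_erase hl)).trans hs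
    have h2 := Bm_nonneg b (-(((r : ℤ)) : ZMod (2 * H)) - l)
    have h3 := Kc_nonneg (2 * H) m r l.val
    have h4 := mul_nonneg h2 h3
    have h5 := mul_le_mul_of_nonneg_right h1 h4
    linarith
  have hX : SC * ∑ l ∈ range (2 * H),
      (if l = 2 * H - r then 0 else Kc (2 * H) m r (pidx H r l)) * Br b l ≤
      (rowX H Hi m r).val (Am ρ 0 - 1) (xvec H (2 * H) (Ar ρ) (Br b)) := by
    refine le_trans (le_of_eq ?_) (val_ge (k' := 0) (t1' := 0) (t2' := 0) (a1 := fun _ => 0)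
      (a2 := fun _ => 0)
      (b1 := fun l => if l = 2 * H - r then 0 else Kc (2 * H) m r (pidx H r l)) (b2 := fun _ => 0)
      h.t_nonneg (Ar_nonneg ρ) (Br_nonneg b) (by simp) (by simp) (by simp)
      (by intro i _; simp) (by intro i _; simp) ?_ (by intro i _; simp))
    · congr 1
      simp
    · intro l _
      dsimp only
      split_ifs
      · simp
      · exact KHi_ge htab m r (pidx H r l)
  have hB : SC * ((gR (2 * H) m 1) + (2 * gR (2 * H) m 1) * (Am ρ 0 - 1) +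
      (gR (2 * H) m 1) * (Am ρ 0 - 1) ^ 2 +
      ∑ i ∈ range H, ((0 : ℝ) * Ar ρ (i + 1) + (gR (2 * H) m (6 * ((i + 1 : ℕ) : ℤ) + 1) +
        if i + 1 < H then gR (2 * H) m (6 * ((2 * H - (i + 1) : ℕ) : ℤ) + 1) else 0) *
        Ar ρ (i + 1) ^ 2) +
      ∑ l ∈ range (2 * H), ((if l = 2 * H - r then -Kc (2 * H) m r 0 else 0) * Br b l +
        gR (2 * H) m (6 * (l : ℤ) - 1) * Br b l ^ 2)) ≤
      (rowT H Lo Hi m r).val (Am ρ 0 - 1) (xvec H (2 * H) (Ar ρ) (Br b)) := by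
    apply val_ge h.t_nonneg (Ar_nonneg ρ) (Br_nonneg b)
    · exact q9_ge (hgl 1)
    · apply q9_ge
      have := hgl 1
      push_cast; linarith
    · exact q9_ge (hgl 1)
    · intro i _; simp
    · intro i _
      apply q9_ge
      have g1 := hgl (6 * ((i + 1 : ℕ) : ℤ) + 1)
      have g2 := hgl (6 * ((2 * H - (i + 1) : ℕ) : ℤ) + 1)
      split_ifs
      · push_cast at g1 g2 ⊢
        linarith
      · push_cast at g1 ⊢
        linarith
    · intro l _
      dsimp only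
      split_ifs
      · have := KLo_le htab hLo m r
        push_cast; linarith
      · simp
    · intro l _
      exact q9_ge (hgl (6 * (l : ℤ) - 1))
  have e1 : ∑ i ∈ range H, ((0 : ℝ) * Ar ρ (i + 1) + (gR (2 * H) m (6 * ((i + 1 : ℕ) : ℤ) + 1) +
        if i + 1 < H then gR (2 * H) m (6 * ((2 * H - (i + 1) : ℕ) : ℤ) + 1) else 0) *
        Ar ρ (i + 1) ^ 2) = ∑ i ∈ range H, (gR (2 * H) m (6 * ((i + 1 : ℕ) : ℤ) + 1) +
        if i + 1 < H then gR (2 * H) m (6 * ((2 * H - (i + 1) : ℕ) : ℤ) + 1) else 0) *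
        Ar ρ (i + 1) ^ 2 := by
    apply Finset.sum_congr rfl; intro i _; ring
  have e2 : ∑ l ∈ range (2 * H), ((if l = 2 * H - r then -Kc (2 * H) m r 0 else 0) * Br b l +
        gR (2 * H) m (6 * (l : ℤ) - 1) * Br b l ^ 2) = -(Kc (2 * H) m r 0 * Br b (2 * H - r)) +
        ∑ l ∈ range (2 * H), gR (2 * H) m (6 * (l : ℤ) - 1) * Br b l ^ 2 := by
    rw [Finset.sum_add_distrib]
    congr 1
    rw [Finset.sum_eq_single (2 * H - r)]
    · rw [if_pos rfl]; ring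
    · intro l _ hl; rw [if_neg hl, zero_mul]
    · intro hl; exact absurd (Finset.mem_range.mpr (by omega)) hl
  rw [e1, e2] at hB
  have h6 := mul_le_mul_of_nonneg_left hX hs0
  nlinarith

lemma validN (hLo : ∀ u, 0 ≤ Lo.getD u 0) (m r p q : ℕ) (hm : 2 * m ≤ 6 * H) (hr0 : 0 < r)
    (hr : r < 2 * H) (hp : 0 < p) (hq : 0 < q) :
    0 ≤ (rowN H Lo Hi m r p q).val (Am ρ 0 - 1) (xvec H (2 * H) (Ar ρ) (Br b)) := by
  have hS := SCpos
  have hT := T_range htab h m r hm hr0 hr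
  have hgl := fun j => g_le htab m j
  have hp' : (0 : ℝ) < p := by exact_mod_cast hp
  have hq' : (0 : ℝ) < q := by exact_mod_cast hq
  have hcross : ∑ l ∈ univ.erase (0 : ZMod (2 * H)), Am ρ l * Bm b (-(((r : ℤ)) : ZMod (2 * H)) - l) *
        Kc (2 * H) m r l.val ≤ (p / (2 * q)) * ∑ l ∈ univ.erase (0 : ZMod (2 * H)),
          Kc (2 * H) m r l.val * Am ρ l ^ 2 + (q / (2 * p)) * ∑ l ∈ range (2 * H),
          (if l = 2 * H - r then 0 else Kc (2 * H) m r (pidx H r l)) * Br b l ^ 2 := by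
    have e := sum_partner r hr hr0 (fun l => Kc (2 * H) m r (l : ℕ)) b (fun x => x ^ 2)
    rw [← e, Finset.mul_sum, Finset.mul_sum, ← Finset.sum_add_distrib]
    apply Finset.sum_le_sum
    intro l hl
    have h3 := Kc_nonneg (2 * H) m r l.val
    set x := Am ρ l
    set y := Bm b (-(((r : ℤ)) : ZMod (2 * H)) - l)
    have h4 : x * y ≤ p / (2 * q) * x ^ 2 + q / (2 * p) * y ^ 2 := by
      have : p / (2 * q) * x ^ 2 + q / (2 * p) * y ^ 2 - x * y = (p * x - q * y) ^ 2 / (2 * p * q) := by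
        field_simp; ring
      have h5 : 0 ≤ (p * x - q * y) ^ 2 / (2 * p * q) := by positivity
      linarith
    have h5 := mul_le_mul_of_nonneg_right h4 h3
    linarith
  have hA : ∑ l ∈ univ.erase (0 : ZMod (2 * H)), Kc (2 * H) m r l.val * Am ρ l ^ 2 =
      ∑ i ∈ range H, (Kc (2 * H) m r ((i + 1 : ℕ) : ℤ) + if i + 1 < H then
        Kc (2 * H) m r ((2 * H - (i + 1) : ℕ) : ℤ) else 0) * Ar ρ (i + 1) ^ 2 := by
    have h1 := foldA ρ (fun k => if k = 0 then 0 else Kc (2 * H) m r (k : ℕ))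
    rw [if_pos rfl, zero_mul, zero_add] at h1
    have h2 : ∑ l ∈ univ.erase (0 : ZMod (2 * H)), Kc (2 * H) m r l.val * Am ρ l ^ 2 =
        ∑ k ∈ range (2 * H), (if k = 0 then 0 else Kc (2 * H) m r (k : ℕ)) * Ar ρ k ^ 2 := by
      have h3 : ∑ l ∈ univ.erase (0 : ZMod (2 * H)), Kc (2 * H) m r l.val * Am ρ l ^ 2 =
          ∑ l : ZMod (2 * H), (if l.val = 0 then 0 else Kc (2 * H) m r l.val) * Am ρ l ^ 2 := by
        rw [← Finset.add_sum_erase univ _ (Finset.mem_univ (0 : ZMod (2 * H))),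
          if_pos (ZMod.val_zero), zero_mul, zero_add]
        apply Finset.sum_congr rfl
        intro l hl
        rw [if_neg]
        rw [ZMod.val_eq_zero]; exact Finset.ne_of_mem_erase hl
      rw [h3, sum_zmod_range]
      apply Finset.sum_congr rfl
      intro k hk
      rw [val_cast' (Finset.mem_range.mp hk)]; rfl
    rw [h2, h1]
    apply Finset.sum_congr rfl
    intro i hi
    have hi' := Finset.mem_range.mp hi
    rw [if_neg (by omega : ¬ i + 1 = 0)]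
    congr 2
    split_ifs with h5 h6
    · omega
    · rfl
    · rfl
  rw [hA] at hcross
  have hK : ∀ l : ℕ, SC * Kc (2 * H) m r l ≤ (KHi (2 * H) Hi m r l : ℤ) := fun l => KHi_ge htab m r l
  have hB : SC * ((gR (2 * H) m 1) + (2 * gR (2 * H) m 1) * (Am ρ 0 - 1) +
      (gR (2 * H) m 1) * (Am ρ 0 - 1) ^ 2 +
      ∑ i ∈ range H, ((0 : ℝ) * Ar ρ (i + 1) + ((gR (2 * H) m (6 * ((i + 1 : ℕ) : ℤ) + 1) +
        if i + 1 < H then gR (2 * H) m (6 * ((2 * H - (i + 1) : ℕ) : ℤ) + 1) else 0) +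
        p / (2 * q) * (Kc (2 * H) m r ((i + 1 : ℕ) : ℤ) + if i + 1 < H then
        Kc (2 * H) m r ((2 * H - (i + 1) : ℕ) : ℤ) else 0)) *
        Ar ρ (i + 1) ^ 2) +
      ∑ l ∈ range (2 * H), ((if l = 2 * H - r then -Kc (2 * H) m r 0 else 0) * Br b l +
        (gR (2 * H) m (6 * (l : ℤ) - 1) + q / (2 * p) *
          (if l = 2 * H - r then 0 else Kc (2 * H) m r (pidx H r l))) * Br b l ^ 2)) ≤
      (rowN H Lo Hi m r p q).val (Am ρ 0 - 1) (xvec H (2 * H) (Ar ρ) (Br b)) := by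
    apply val_ge h.t_nonneg (Ar_nonneg ρ) (Br_nonneg b)
    · exact q9_ge (hgl 1)
    · apply q9_ge
      have := hgl 1
      push_cast; linarith
    · exact q9_ge (hgl 1)
    · intro i _; simp
    · intro i _
      have g1 := hgl (6 * ((i + 1 : ℕ) : ℤ) + 1)
      have g2 := hgl (6 * ((2 * H - (i + 1) : ℕ) : ℤ) + 1)
      have k1 := hK (i + 1)
      have k2 := hK (2 * H - (i + 1))
      dsimp only
      have a1 : SC * (gR (2 * H) m (6 * ((i + 1 : ℕ) : ℤ) + 1) +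
        if i + 1 < H then gR (2 * H) m (6 * ((2 * H - (i + 1) : ℕ) : ℤ) + 1) else 0) ≤
        (q9 (gI (2 * H) Lo Hi m (6 * ((i + 1 : ℕ) : ℤ) + 1) +
          if i + 1 < H then gI (2 * H) Lo Hi m (6 * ((2 * H - (i + 1) : ℕ) : ℤ) + 1) else 0) : ℤ) := by
        apply q9_ge
        split_ifs
        · push_cast at g1 g2 ⊢
          linarith
        · push_cast at g1 ⊢
          linarith
      have a2 : SC * (p / (2 * q) * (Kc (2 * H) m r ((i + 1 : ℕ) : ℤ) + if i + 1 < H then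
          Kc (2 * H) m r ((2 * H - (i + 1) : ℕ) : ℤ) else 0)) ≤
          (cdiv (p * (KHi (2 * H) Hi m r (i + 1) +
            if i + 1 < H then KHi (2 * H) Hi m r (2 * H - (i + 1)) else 0)) (2 * q) : ℤ) := by
        refine le_trans ?_ (cdiv_ge (by positivity))
        push_cast
        rw [le_div_iff₀ (by positivity)]
        have e : (SC : ℝ) * (p / (2 * q) * (Kc (2 * H) m r ((i : ℤ) + 1) + if i + 1 < H then
          Kc (2 * H) m r ((2 * H - (i + 1) : ℕ) : ℤ) else 0)) * (2 * q) =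
          p * (SC * Kc (2 * H) m r ((i : ℤ) + 1) + if i + 1 < H then
          SC * Kc (2 * H) m r ((2 * H - (i + 1) : ℕ) : ℤ) else 0) := by
          split_ifs
          · field_simp
          · field_simp; try ring
        rw [e]
        apply mul_le_mul_of_nonneg_left _ hp'.le
        push_cast at k1
        split_ifs
        · exact add_le_add k1 k2
        · simpa using k1
      push_cast
      push_cast at a1 a2
      rw [mul_add]
      exact add_le_add a1 a2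
    · intro l _
      dsimp only
      split_ifs
      · have := KLo_le htab hLo m r
        push_cast; linarith
      · simp
    · intro l _
      dsimp only
      have a1 := q9_ge (hgl (6 * (l : ℤ) - 1))
      split_ifs with hl
      · simp only [mul_zero, add_zero]
        exact a1
      · have a2 : SC * (q / (2 * p) * Kc (2 * H) m r (pidx H r l)) ≤
          (cdiv (q * KHi (2 * H) Hi m r (pidx H r l)) (2 * p) : ℤ) := by
          refine le_trans ?_ (cdiv_ge (by positivity))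
          push_cast
          rw [le_div_iff₀ (by positivity)]
          have e : (SC : ℝ) * (q / (2 * p) * Kc (2 * H) m r (pidx H r l)) * (2 * p) =
            q * (SC * Kc (2 * H) m r (pidx H r l)) := by field_simp
          rw [e]
          exact mul_le_mul_of_nonneg_left (hK _) hq'.le
        push_cast
        rw [mul_add]
        exact add_le_add a1 a2
  have e1 : ∑ i ∈ range H, ((0 : ℝ) * Ar ρ (i + 1) + ((gR (2 * H) m (6 * ((i + 1 : ℕ) : ℤ) + 1) +
        if i + 1 < H then gR (2 * H) m (6 * ((2 * H - (i + 1) : ℕ) : ℤ) + 1) else 0) +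
        p / (2 * q) * (Kc (2 * H) m r ((i + 1 : ℕ) : ℤ) + if i + 1 < H then
        Kc (2 * H) m r ((2 * H - (i + 1) : ℕ) : ℤ) else 0)) *
        Ar ρ (i + 1) ^ 2) = ∑ i ∈ range H, (gR (2 * H) m (6 * ((i + 1 : ℕ) : ℤ) + 1) +
        if i + 1 < H then gR (2 * H) m (6 * ((2 * H - (i + 1) : ℕ) : ℤ) + 1) else 0) *
        Ar ρ (i + 1) ^ 2 + p / (2 * q) * ∑ i ∈ range H, (Kc (2 * H) m r ((i + 1 : ℕ) : ℤ) +
          if i + 1 < H then Kc (2 * H) m r ((2 * H - (i + 1) : ℕ) : ℤ) else 0) * Ar ρ (i + 1) ^ 2 := by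
    rw [Finset.mul_sum, ← Finset.sum_add_distrib]
    apply Finset.sum_congr rfl; intro i _; ring
  have e2 : ∑ l ∈ range (2 * H), ((if l = 2 * H - r then -Kc (2 * H) m r 0 else 0) * Br b l +
        (gR (2 * H) m (6 * (l : ℤ) - 1) + q / (2 * p) *
          (if l = 2 * H - r then 0 else Kc (2 * H) m r (pidx H r l))) * Br b l ^ 2) =
        -(Kc (2 * H) m r 0 * Br b (2 * H - r)) +
        ∑ l ∈ range (2 * H), gR (2 * H) m (6 * (l : ℤ) - 1) * Br b l ^ 2 +
        q / (2 * p) * ∑ l ∈ range (2 * H),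
          (if l = 2 * H - r then 0 else Kc (2 * H) m r (pidx H r l)) * Br b l ^ 2 := by
    have e3 : ∑ l ∈ range (2 * H), (if l = 2 * H - r then -Kc (2 * H) m r 0 else 0) * Br b l =
        -(Kc (2 * H) m r 0 * Br b (2 * H - r)) := by
      rw [Finset.sum_eq_single (2 * H - r)]
      · rw [if_pos rfl]; ring
      · intro l _ hl; rw [if_neg hl, zero_mul]
      · intro hl; exact absurd (Finset.mem_range.mpr (by omega)) hl
    rw [← e3, Finset.mul_sum, ← Finset.sum_add_distrib, ← Finset.sum_add_distrib]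
    apply Finset.sum_congr rfl; intro i _; ring
  rw [e1, e2] at hB
  refine le_trans ?_ hB
  apply mul_nonneg hS.le
  nlinarith

end

end Rein69
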